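import Pool.Agent.Lib.MP_1a91b9_ntI.Iq

/-!
# The imaginary quadratic fields of discriminant at least `-8`
-/

set_option autoImplicit false
set_option linter.unusedSectionVars false

namespace Pool.Agent.Lib.MP_1a91b9_ntI

open NumberField

section

variable {K : Type*} [Field K] [NumberField K]

/-- the equation of an integer of a quadratic field, with its trace and norm -/
theorem quad_tr (hK : Module.finrank ℚ K = 2) (x : 𝓞 K) :
    x ^ 2 = ((Algebra.trace ℤ (𝓞 K) x : ℤ) : 𝓞 K) * x - ((Algebra.norm ℤ x : ℤ) : 𝓞 K) := by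
  have h2 : Module.finrank ℤ (𝓞 K) = 2 := by rw [RingOfIntegers.rank, hK]
  let b := Module.finBasisOfFinrankEq ℤ (𝓞 K) h2
  obtain ⟨M, hM⟩ : ∃ M, M = Algebra.leftMulMatrix b x := ⟨_, rfl⟩
  have h3 := Matrix.aeval_self_charpoly M
  have hdet : M.det = Algebra.norm ℤ x := by
    rw [hM]
    exact (Algebra.norm_eq_matrix_det b x).symm
  have htr : M.trace = Algebra.trace ℤ (𝓞 K) x := by
    rw [hM]
    exact (Algebra.trace_eq_matrix_trace b x).symm
  rw [Matrix.charpoly_fin_two, hdet, htr] at h3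
  have h4 : Algebra.leftMulMatrix b (x ^ 2 - ((Algebra.trace ℤ (𝓞 K) x : ℤ) : 𝓞 K) * x +
      ((Algebra.norm ℤ x : ℤ) : 𝓞 K)) = 0 := by
    rw [map_add, map_sub, map_mul, map_pow, map_intCast, map_intCast]
    rw [map_add, map_sub, map_mul, map_pow, Polynomial.aeval_X, Polynomial.aeval_C,
      Polynomial.aeval_C] at h3
    rw [← hM]
    exact h3
  have h5 := Algebra.leftMulMatrix_injective b (h4.trans (map_zero _).symm)
  linear_combination h5

theorem trace_int (hK : Module.finrank ℚ K = 2) (m : ℤ) :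
    Algebra.trace ℤ (𝓞 K) ((m : ℤ) : 𝓞 K) = 2 * m := by
  have h2 : Module.finrank ℤ (𝓞 K) = 2 := by rw [RingOfIntegers.rank, hK]
  have h := Algebra.trace_algebraMap_of_basis (Module.finBasisOfFinrankEq ℤ (𝓞 K) h2) m
  rw [Fintype.card_fin, nsmul_eq_mul] at h
  exact_mod_cast h

/-- the discriminant of `1, x` -/
theorem discr_one (hK : Module.finrank ℚ K = 2) (x : 𝓞 K) :
    Algebra.discr ℤ ![1, x] =
      (Algebra.trace ℤ (𝓞 K) x) ^ 2 - 4 * Algebra.norm ℤ x := by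
  obtain ⟨t, ht⟩ : ∃ t, t = Algebra.trace ℤ (𝓞 K) x := ⟨_, rfl⟩
  obtain ⟨n, hn⟩ : ∃ n, n = Algebra.norm ℤ x := ⟨_, rfl⟩
  have hq := quad_tr hK x
  rw [← ht, ← hn] at hq ⊢
  rw [Algebra.discr_def, Matrix.det_fin_two]
  have e1 : Algebra.trace ℤ (𝓞 K) 1 = 2 := by
    have h := trace_int hK 1
    push_cast at h
    rw [h]
  have e2 : Algebra.trace ℤ (𝓞 K) (x * x) = t ^ 2 - 2 * n := by
    have h : x * x = t • x - (((n : ℤ)) : 𝓞 K) := by
      rw [zsmul_eq_mul]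
      linear_combination hq
    rw [h, map_sub, map_zsmul, trace_int hK, ← ht, smul_eq_mul]
    ring
  simp only [Algebra.traceMatrix_apply, Algebra.traceForm_apply, Matrix.cons_val_zero,
    Matrix.cons_val_one, one_mul, mul_one]
  rw [e1, e2, ← ht]
  ring

/-- the equation of an irrational integer is unique -/
theorem tr_of_quad (hK : Module.finrank ℚ K = 2) {x : 𝓞 K} {t n : ℤ}
    (h : x ^ 2 = (t : 𝓞 K) * x - (n : 𝓞 K)) (hd : t ^ 2 - 4 * n < 0) :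
    Algebra.trace ℤ (𝓞 K) x = t ∧ Algebra.norm ℤ x = n := by
  obtain ⟨t', ht'⟩ : ∃ t, t = Algebra.trace ℤ (𝓞 K) x := ⟨_, rfl⟩
  obtain ⟨n', hn'⟩ : ∃ n, n = Algebra.norm ℤ x := ⟨_, rfl⟩
  have hq := quad_tr hK x
  rw [← ht', ← hn'] at hq ⊢
  have h1 : ((t' - t : ℤ) : 𝓞 K) * x = ((n' - n : ℤ) : 𝓞 K) := by
    push_cast
    linear_combination h - hq
  by_cases h2 : t' - t = 0
  · refine ⟨by omega, ?_⟩
    rw [h2, Int.cast_zero, zero_mul] at h1
    have h3 : n' - n = 0 := by exact_mod_cast h1.symm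
    omega
  · exfalso
    have h3 : (((n' - n) ^ 2 - t * (n' - n) * (t' - t) + n * (t' - t) ^ 2 : ℤ) : 𝓞 K) = 0 := by
      push_cast at h1 ⊢
      obtain ⟨a, ha⟩ : ∃ a : 𝓞 K, a = (t' : 𝓞 K) - t := ⟨_, rfl⟩
      obtain ⟨b, hb⟩ : ∃ b : 𝓞 K, b = (n' : 𝓞 K) - n := ⟨_, rfl⟩
      rw [← ha, ← hb] at h1 ⊢
      linear_combination a ^ 2 * h - (a * x + b - t * a) * h1
    have h4 : (n' - n) ^ 2 - t * (n' - n) * (t' - t) + n * (t' - t) ^ 2 = 0 := by
      exact_mod_cast h3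
    have h5 : 0 < (t' - t) ^ 2 := by positivity
    nlinarith [sq_nonneg (2 * (n' - n) - t * (t' - t)), mul_pos h5 (by linarith : (0 : ℤ) < 4 * n - t ^ 2)]

/-- the discriminant of an irrational integer is a square times the discriminant of the field -/
theorem disc_sq (hK : Module.finrank ℚ K = 2) {x : 𝓞 K} {t n : ℤ}
    (h : x ^ 2 = (t : 𝓞 K) * x - (n : 𝓞 K)) (hd : t ^ 2 - 4 * n < 0) :
    ∃ d : ℤ, t ^ 2 - 4 * n = d ^ 2 * discr K := by
  have h2 : Module.finrank ℤ (𝓞 K) = 2 := by rw [RingOfIntegers.rank, hK]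
  obtain ⟨b, -⟩ : ∃ b : Module.Basis (Fin 2) ℤ (𝓞 K), True :=
    ⟨Module.finBasisOfFinrankEq ℤ (𝓞 K) h2, trivial⟩
  have key : ∀ y : 𝓞 K, y = ((b.repr y 0 : ℤ) : 𝓞 K) * b 0 + ((b.repr y 1 : ℤ) : 𝓞 K) * b 1 := by
    intro y
    have h := b.sum_repr y
    rw [Fin.sum_univ_two, zsmul_eq_mul, zsmul_eq_mul] at h
    exact h.symm
  obtain ⟨P, hP⟩ : ∃ P : Matrix (Fin 2) (Fin 2) ℤ,
    P = !![b.repr 1 0, b.repr 1 1; b.repr x 0, b.repr x 1] := ⟨_, rfl⟩
  have hvec : Matrix.mulVec (P.map (algebraMap ℤ (𝓞 K))) (b : Fin 2 → 𝓞 K) = ![1, x] := by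
    funext i
    fin_cases i
    · rw [hP]
      have h3 := key 1
      simp only [Matrix.mulVec, dotProduct, Fin.sum_univ_two]
      exact h3.symm
    · rw [hP]
      have h3 := key x
      simp only [Matrix.mulVec, dotProduct, Fin.sum_univ_two]
      exact h3.symm
  have hD := Algebra.discr_of_matrix_mulVec (b : Fin 2 → 𝓞 K) P
  obtain ⟨e1, e2⟩ := tr_of_quad hK h hd
  rw [hvec, discr_eq_discr, discr_one hK, e1, e2] at hD
  exact ⟨P.det, hD⟩

/-- an element whose equation has the discriminant of the field -/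
theorem exists_beta (hK : Module.finrank ℚ K = 2) : ∃ (x : 𝓞 K) (t n : ℤ),
    x ^ 2 = (t : 𝓞 K) * x - (n : 𝓞 K) ∧ discr K = t ^ 2 - 4 * n := by
  have h2 : Module.finrank ℤ (𝓞 K) = 2 := by rw [RingOfIntegers.rank, hK]
  obtain ⟨b, -⟩ : ∃ b : Module.Basis (Fin 2) ℤ (𝓞 K), True :=
    ⟨Module.finBasisOfFinrankEq ℤ (𝓞 K) h2, trivial⟩
  obtain ⟨p, q, hpq⟩ : ∃ p q : ℤ, (1 : 𝓞 K) = (p : 𝓞 K) * b 0 + (q : 𝓞 K) * b 1 := by
    refine ⟨b.repr 1 0, b.repr 1 1, ?_⟩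
    have h := b.sum_repr 1
    rw [Fin.sum_univ_two, zsmul_eq_mul, zsmul_eq_mul] at h
    exact h.symm
  have hg : IsCoprime p q := by
    rw [Int.isCoprime_iff_gcd_eq_one]
    obtain ⟨p', hp'⟩ := Int.gcd_dvd_left p q
    obtain ⟨q', hq'⟩ := Int.gcd_dvd_right p q
    obtain ⟨g, hg⟩ : ∃ g : ℕ, g = Int.gcd p q := ⟨_, rfl⟩
    rw [← hg] at hp' hq' ⊢
    have h3 : (1 : 𝓞 K) = ((g : ℤ) : 𝓞 K) * ((p' : 𝓞 K) * b 0 + (q' : 𝓞 K) * b 1) := by
      rw [hpq, hp', hq']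
      push_cast
      ring
    have h4 := congrArg (Algebra.norm ℤ) h3
    rw [map_one, map_mul, norm_int hK] at h4
    have h5 : ((g : ℤ)) ^ 2 ∣ 1 := ⟨_, h4⟩
    have h6 : IsUnit ((g : ℤ)) := by
      have := isUnit_of_dvd_one h5
      exact (isUnit_pow_iff two_ne_zero).1 this
    exact_mod_cast (Int.isUnit_iff_natAbs_eq.1 h6)
  obtain ⟨r, s, hrs⟩ := hg
  obtain ⟨x, hx⟩ : ∃ x : 𝓞 K, x = ((-s : ℤ) : 𝓞 K) * b 0 + (r : 𝓞 K) * b 1 := ⟨_, rfl⟩
  obtain ⟨P, hP⟩ : ∃ P : Matrix (Fin 2) (Fin 2) ℤ, P = !![p, q; -s, r] := ⟨_, rfl⟩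
  have hPdet : P.det = 1 := by
    rw [hP, Matrix.det_fin_two_of]
    linear_combination hrs
  have hvec : Matrix.mulVec (P.map (algebraMap ℤ (𝓞 K))) (b : Fin 2 → 𝓞 K) = ![1, x] := by
    funext i
    fin_cases i
    · rw [hP]
      simp [Matrix.mulVec, dotProduct, Fin.sum_univ_two, hpq]
    · rw [hP]
      simp [Matrix.mulVec, dotProduct, Fin.sum_univ_two, hx]
  have hd := Algebra.discr_of_matrix_mulVec (b : Fin 2 → 𝓞 K) P
  rw [hvec, hPdet, one_pow, one_mul, discr_eq_discr, discr_one hK] at hd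
  exact ⟨x, _, _, quad_tr hK x, hd.symm⟩

/-- **The imaginary quadratic fields of discriminant at least `-8`.** -/
theorem of_discr (hK : Module.finrank ℚ K = 2) (h0 : discr K < 0) (h8 : -8 ≤ discr K) :
    ∃ x : 𝓞 K, x ^ 2 = -1 ∨ x ^ 2 = -2 ∨ x ^ 2 = x - 2 ∨ x ^ 2 = x - 1 := by
  obtain ⟨β, t, n, h1, h2⟩ := exists_beta hK
  rw [h2] at h0 h8
  obtain ⟨k, hk | hk⟩ := Int.even_or_odd' t
  · refine ⟨β - (k : 𝓞 K), ?_⟩
    have h3 : (β - (k : 𝓞 K)) ^ 2 = ((k ^ 2 - n : ℤ) : 𝓞 K) := by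
      rw [hk] at h1
      push_cast at h1 ⊢
      linear_combination h1
    have h4 : k ^ 2 - n = -1 ∨ k ^ 2 - n = -2 := by
      rw [hk] at h0 h8
      have h5 : (2 * k) ^ 2 = 4 * k ^ 2 := by ring
      rw [h5] at h0 h8
      omega
    rcases h4 with h4 | h4
    · left
      rw [h3, h4]
      push_cast
      rfl
    · right
      left
      rw [h3, h4]
      push_cast
      rfl
  · refine ⟨β - (k : 𝓞 K), ?_⟩
    have h3 : (β - (k : 𝓞 K)) ^ 2 = (β - (k : 𝓞 K)) + ((k ^ 2 + k - n : ℤ) : 𝓞 K) := by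
      rw [hk] at h1
      push_cast at h1 ⊢
      linear_combination h1
    have h4 : k ^ 2 + k - n = -1 ∨ k ^ 2 + k - n = -2 := by
      rw [hk] at h0 h8
      have h5 : (2 * k + 1) ^ 2 = 4 * k ^ 2 + 4 * k + 1 := by ring
      rw [h5] at h0 h8
      omega
    rcases h4 with h4 | h4
    · right
      right
      right
      rw [h3, h4]
      push_cast
      ring
    · right
      right
      left
      rw [h3, h4]
      push_cast
      ring

end

end Pool.Agent.Lib.MP_1a91b9_ntI
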