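import Pool.Agent.Lib.MP_1a91b9_ntI.KEq
import Pool.Agent.Lib.MP_1a91b9_ntI.Disc
import Pool.Agent.Lib.MP_1a91b9_ntH.R.Ring

/-!
# The field `ℚ(√-3)`, and the four imaginary quadratic fields of discriminant at least `-8`
-/

set_option autoImplicit false
set_option linter.unusedSectionVars false

namespace Pool.Agent.Lib.MP_1a91b9_ntI

open NumberField
open Pool.Agent.Lib.MP_1a91b9_ntW (K8)
open Pool.Agent.Lib.MP_1a91b9_ntV (K7 t7 t7_sq gen7)
open Pool.Agent.Lib.MP_1a91b9_ntQ (K4 iO iO_sq)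
open Pool.Agent.Lib.MP_1a91b9_ntH (wO wO_quad)

/-! ### The field `ℚ(√-3)` -/

/-- the field `ℚ(√-3)` -/
abbrev K3 : Type := Pool.Agent.Lib.MP_1a91b9_ntT.K

theorem w3_sq : (-wO : 𝓞 K3) ^ 2 = -wO - 1 := by linear_combination wO_quad

theorem w3_quad : (-wO : 𝓞 K3) ^ 2 = ((1 : ℤ) : 𝓞 K3) * (-wO) - ((1 : ℤ) : 𝓞 K3) := by
  rw [w3_sq]
  push_cast
  ring

theorem finK3 : Module.finrank ℚ K3 = 2 := by
  refine finrank_of w3_quad (by norm_num) ?_
  intro x
  refine ⟨(Pool.Agent.Lib.MP_1a91b9_ntH.cp x).1, -(Pool.Agent.Lib.MP_1a91b9_ntH.cp x).2, ?_⟩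
  have h := Pool.Agent.Lib.MP_1a91b9_ntH.eq_cp x
  push_cast
  linear_combination h

theorem empK3 : IsEmpty (K3 →+* ℝ) := isEmpty_of w3_quad (by norm_num)

theorem pirK3 : IsPrincipalIdealRing (𝓞 K3) := Pool.Agent.Lib.MP_1a91b9_ntH.pidO

section

variable {K : Type*} [Field K] [NumberField K]

theorem coe_w {x : 𝓞 K} (h : x ^ 2 = x - 1) : ((x : K)) ^ 2 = (x : K) - 1 := by
  have h2 := congrArg (algebraMap (𝓞 K) K) h
  rw [map_pow, map_sub, map_one] at h2
  exact h2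

theorem iso_w3 (hK : Module.finrank ℚ K = 2) {θ : 𝓞 K} (hθ : θ ^ 2 = θ - 1) :
    ∃ e : K3 ≃+* K, e ((-wO : 𝓞 K3) : K3) = (θ : K) := by
  have h1 := coe_w w3_sq
  have h2 := coe_w hθ
  obtain ⟨y, hy⟩ : ∃ y : K3, y = ((-wO : 𝓞 K3) : K3) := ⟨_, rfl⟩
  rw [← hy] at h1 ⊢
  obtain ⟨e, he⟩ := iso_sq finK3 hK (x := 2 * y - 1) (x' := 2 * (θ : K) - 1) (a := -3)
    (by push_cast; linear_combination 4 * h1) (by push_cast; linear_combination 4 * h2) ns3
  refine ⟨e, ?_⟩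
  rw [map_sub, map_mul, map_one, map_ofNat] at he
  have h3 : (2 : K) ≠ 0 := two_ne_zero
  apply mul_left_cancel₀ h3
  linear_combination he

/-- Transport of principality. -/
theorem pir_of {K' : Type*} [Field K'] [NumberField K'] (e : K ≃+* K')
    (h : IsPrincipalIdealRing (𝓞 K)) : IsPrincipalIdealRing (𝓞 K') :=
  IsPrincipalIdealRing.of_surjective (RingOfIntegers.mapRingEquiv e)
    (RingOfIntegers.mapRingEquiv e).surjective

/-! ### Principality -/

theorem pir_i (hK : Module.finrank ℚ K = 2) {i : 𝓞 K} (hi : i ^ 2 = -1) :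
    IsPrincipalIdealRing (𝓞 K) := by
  obtain ⟨e, -⟩ := iso_i' hK hi
  exact pir_of e inferInstance

theorem pir_s (hK : Module.finrank ℚ K = 2) {s : 𝓞 K} (hs : s ^ 2 = -2) :
    IsPrincipalIdealRing (𝓞 K) := by
  obtain ⟨e, -⟩ := iso_s hK hs
  exact pir_of e pirK8

theorem pir_t (hK : Module.finrank ℚ K = 2) {θ : 𝓞 K} (hθ : θ ^ 2 = θ - 2) :
    IsPrincipalIdealRing (𝓞 K) := by
  obtain ⟨e, -⟩ := iso_t hK hθ
  exact pir_of e pirK7

theorem pir_w (hK : Module.finrank ℚ K = 2) {θ : 𝓞 K} (hθ : θ ^ 2 = θ - 1) :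
    IsPrincipalIdealRing (𝓞 K) := by
  obtain ⟨e, -⟩ := iso_w3 hK hθ
  exact pir_of e pirK3

/-! ### No real embedding -/

theorem emp_i {i : 𝓞 K} (hi : i ^ 2 = -1) : IsEmpty (K →+* ℝ) :=
  isEmpty_of (θ := i) (a := 0) (b := 1) (by rw [hi]; push_cast; ring) (by norm_num)

theorem emp_s {s : 𝓞 K} (hs : s ^ 2 = -2) : IsEmpty (K →+* ℝ) :=
  isEmpty_of (θ := s) (a := 0) (b := 2) (by rw [hs]; push_cast; ring) (by norm_num)

theorem emp_t {θ : 𝓞 K} (hθ : θ ^ 2 = θ - 2) : IsEmpty (K →+* ℝ) :=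
  isEmpty_of (θ := θ) (a := 1) (b := 2) (by rw [hθ]; push_cast; ring) (by norm_num)

theorem emp_w {θ : 𝓞 K} (hθ : θ ^ 2 = θ - 1) : IsEmpty (K →+* ℝ) :=
  isEmpty_of (θ := θ) (a := 1) (b := 1) (by rw [hθ]; push_cast; ring) (by norm_num)

/-! ### The number `2` -/

theorem np_i (hK : Module.finrank ℚ K = 2) {i : 𝓞 K} (hi : i ^ 2 = -1) : ¬ Prime (2 : 𝓞 K) :=
  fun h => nsf_i hK hi h.irreducible.squarefree

theorem np_s (hK : Module.finrank ℚ K = 2) {s : 𝓞 K} (hs : s ^ 2 = -2) : ¬ Prime (2 : 𝓞 K) :=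
  fun h => nsf_s hK hs h.irreducible.squarefree

theorem np_t (hK : Module.finrank ℚ K = 2) {θ : 𝓞 K} (hθ : θ ^ 2 = θ - 2) :
    ¬ Prime (2 : 𝓞 K) := by
  intro h
  have hr := emp_t hθ
  have h1 : (2 : 𝓞 K) = θ * (1 - θ) := by linear_combination hθ
  rcases h.irreducible.isUnit_or_isUnit h1 with h2 | h2
  · rcases units_t hK hr (coe_th hθ) h2 with h3 | h3
    · rw [h3] at hθ
      have h4 : (2 : 𝓞 K) = 0 := by linear_combination hθ
      norm_num at h4
    · rw [h3] at hθ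
      have h4 : (4 : 𝓞 K) = 0 := by linear_combination hθ
      norm_num at h4
  · rcases units_t hK hr (coe_th hθ) h2 with h3 | h3
    · have h5 : θ = 0 := by linear_combination -h3
      rw [h5] at hθ
      have h4 : (2 : 𝓞 K) = 0 := by linear_combination hθ
      norm_num at h4
    · have h5 : θ = 2 := by linear_combination -h3
      rw [h5] at hθ
      have h4 : (4 : 𝓞 K) = 0 := by linear_combination hθ
      norm_num at h4

theorem prime_w (hK : Module.finrank ℚ K = 2) {θ : 𝓞 K} (hθ : θ ^ 2 = θ - 1) :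
    Prime (2 : 𝓞 K) := by
  have hp := pir_w hK hθ
  have hr := emp_w hθ
  by_contra h
  have h3 : (2 * (θ : K) - 1) ^ 2 = -3 := by linear_combination 4 * coe_w hθ
  obtain ⟨s, h1 | h1 | h1⟩ := exists_two hK hr h
  · have h2 : ((s : K)) ^ 2 = -1 := by
      have := congrArg (algebraMap (𝓞 K) K) h1
      rw [map_pow, map_neg, map_one] at this
      exact this
    exact excl6 hK h2 h3
  · have h2 : ((s : K)) ^ 2 = -2 := by
      have := congrArg (algebraMap (𝓞 K) K) h1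
      rw [map_pow, map_neg, map_ofNat] at this
      exact this
    exact excl4 hK h2 h3
  · exact excl5 hK (th7 (coe_th h1)) h3

/-! ### The four fields -/

/-- **The imaginary quadratic fields of discriminant at least `-8`**: there are no real places, the
ring of integers is principal, and there is an integer of norm at most two which is not rational. -/
theorem four_fields (hK : Module.finrank ℚ K = 2) (h0 : discr K < 0) (h8 : -8 ≤ discr K) :
    IsEmpty (K →+* ℝ) ∧ IsPrincipalIdealRing (𝓞 K) ∧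
      ∃ x : 𝓞 K, x ^ 2 = -1 ∨ x ^ 2 = -2 ∨ x ^ 2 = x - 2 ∨ x ^ 2 = x - 1 := by
  obtain ⟨x, h⟩ := of_discr hK h0 h8
  rcases h with h1 | h1 | h1 | h1
  · exact ⟨emp_i h1, pir_i hK h1, x, Or.inl h1⟩
  · exact ⟨emp_s h1, pir_s hK h1, x, Or.inr (Or.inl h1)⟩
  · exact ⟨emp_t h1, pir_t hK h1, x, Or.inr (Or.inr (Or.inl h1))⟩
  · exact ⟨emp_w h1, pir_w hK h1, x, Or.inr (Or.inr (Or.inr h1))⟩

/-- **Conversely**, an integer of this kind bounds the discriminant. -/
theorem discr_range (hK : Module.finrank ℚ K = 2) {x : 𝓞 K}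
    (h : x ^ 2 = -1 ∨ x ^ 2 = -2 ∨ x ^ 2 = x - 2 ∨ x ^ 2 = x - 1) :
    discr K < 0 ∧ -8 ≤ discr K := by
  have key : ∀ t n : ℤ, x ^ 2 = (t : 𝓞 K) * x - (n : 𝓞 K) → t ^ 2 - 4 * n < 0 →
      -8 ≤ t ^ 2 - 4 * n → discr K < 0 ∧ -8 ≤ discr K := by
    intro t n h1 h2 h3
    obtain ⟨d, hd⟩ := disc_sq hK h1 h2
    rw [hd] at h2 h3
    have h4 : 0 < d ^ 2 := by
      have h5 : d ≠ 0 := by
        rintro rfl
        norm_num at h2
      positivity
    have h6 : discr K < 0 := by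
      by_contra hn
      push Not at hn
      have := mul_nonneg h4.le hn
      linarith
    refine ⟨h6, ?_⟩
    nlinarith
  rcases h with h1 | h1 | h1 | h1
  · exact key 0 1 (by rw [h1]; push_cast; ring) (by norm_num) (by norm_num)
  · exact key 0 2 (by rw [h1]; push_cast; ring) (by norm_num) (by norm_num)
  · exact key 1 2 (by rw [h1]; push_cast; ring) (by norm_num) (by norm_num)
  · exact key 1 1 (by rw [h1]; push_cast; ring) (by norm_num) (by norm_num)

end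

end Pool.Agent.Lib.MP_1a91b9_ntI
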