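import Mathlib

/-!
# Imaginary quadratic fields: square roots, the elements of norm two, the units
-/

set_option autoImplicit false

namespace Pool.Agent.Lib.MP_1a91b9_ntI

open NumberField

section

variable {K : Type*} [Field K] [NumberField K]

theorem nonsq_rat {a : ℤ} (ha : ¬ IsSquare a) (r : ℚ) : r ^ 2 ≠ (a : ℚ) := by
  intro h
  apply ha
  rw [← Rat.isSquare_intCast_iff]
  exact ⟨r, by rw [← h, sq]⟩

/-- the coordinates in a quadratic field generated by a square root -/
theorem coord (hK : Module.finrank ℚ K = 2) {x : K} {a : ℤ} (hx : x ^ 2 = a) (ha : ¬ IsSquare a) :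
    (∀ y : K, ∃ p q : ℚ, y = (p : K) + (q : K) * x) ∧
      ∀ p q : ℚ, (p : K) + (q : K) * x = 0 → p = 0 ∧ q = 0 := by
  have huniq : ∀ p q : ℚ, (p : K) + (q : K) * x = 0 → p = 0 ∧ q = 0 := by
    intro p q h
    have hq : q = 0 := by
      by_contra hq
      have hq' : (q : K) ≠ 0 := by exact_mod_cast hq
      have h1 : x = ((-p / q : ℚ) : K) := by
        push_cast
        field_simp
        linear_combination h
      have h2 : ((((-p / q : ℚ) ^ 2 : ℚ)) : K) = ((a : ℚ) : K) := by
        push_cast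
        push_cast at h1
        rw [← h1, hx]
      exact nonsq_rat ha _ (by exact_mod_cast h2)
    rw [hq] at h
    refine ⟨?_, hq⟩
    have h1 : (p : K) = 0 := by
      rw [← h]
      push_cast
      ring
    exact_mod_cast h1
  refine ⟨?_, huniq⟩
  have hli : LinearIndependent ℚ ![(1 : K), x] := by
    rw [LinearIndependent.pair_iff]
    intro s t h
    rw [Rat.smul_def, Rat.smul_def, mul_one] at h
    exact huniq s t h
  intro y
  let b := basisOfLinearIndependentOfCardEqFinrank hli (by rw [hK, Fintype.card_fin])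
  have h := b.sum_repr y
  rw [Fin.sum_univ_two] at h
  refine ⟨b.repr y 0, b.repr y 1, ?_⟩
  have h0 : b 0 = 1 := by
    rw [show b = basisOfLinearIndependentOfCardEqFinrank hli (by rw [hK, Fintype.card_fin]) from rfl,
      coe_basisOfLinearIndependentOfCardEqFinrank]
    rfl
  have h1 : b 1 = x := by
    rw [show b = basisOfLinearIndependentOfCardEqFinrank hli (by rw [hK, Fintype.card_fin]) from rfl,
      coe_basisOfLinearIndependentOfCardEqFinrank]
    rfl
  rw [h0, h1, Rat.smul_def, Rat.smul_def, mul_one] at h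
  exact h.symm

/-- two independent square roots do not fit in a quadratic field -/
theorem excl (hK : Module.finrank ℚ K = 2) {x y : K} {a b : ℤ} (hx : x ^ 2 = a) (hy : y ^ 2 = b)
    (ha : ¬ IsSquare a) (hb : ¬ IsSquare b) (hab : ¬ IsSquare (a * b)) : False := by
  obtain ⟨h1, h2⟩ := coord hK hx ha
  obtain ⟨p, q, rfl⟩ := h1 y
  have h3 : ((p ^ 2 + a * q ^ 2 - b : ℚ) : K) + ((2 * p * q : ℚ) : K) * x = 0 := by
    push_cast
    linear_combination hy - (q : K) ^ 2 * hx
  obtain ⟨h4, h5⟩ := h2 _ _ h3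
  have h6 : p = 0 ∨ q = 0 := by
    rcases mul_eq_zero.1 h5 with h6 | h6
    · exact Or.inl ((mul_eq_zero.1 h6).resolve_left two_ne_zero)
    · exact Or.inr h6
  rcases h6 with h6 | h6
  · rw [h6] at h4
    refine nonsq_rat hab (a * q) ?_
    push_cast
    linear_combination a * h4
  · rw [h6] at h4
    refine nonsq_rat hb p ?_
    linear_combination h4

/-- a square root in a quadratic field without real place is imaginary -/
theorem neg_of_sq (hK : Module.finrank ℚ K = 2) (hr : IsEmpty (K →+* ℝ)) {x : K} {a : ℤ}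
    (hx : x ^ 2 = a) (ha : ¬ IsSquare a) : a < 0 := by
  by_contra hn
  push Not at hn
  obtain ⟨h1, -⟩ := coord hK hx ha
  obtain ⟨φ⟩ : Nonempty (K →+* ℂ) := inferInstance
  have h2 : (φ x) ^ 2 = ((Real.sqrt a : ℝ) : ℂ) ^ 2 := by
    rw [← map_pow, hx, map_intCast, ← Complex.ofReal_pow, Real.sq_sqrt (by exact_mod_cast hn)]
    push_cast
    rfl
  have h3 : (starRingEnd ℂ) (φ x) = φ x := by
    rcases sq_eq_sq_iff_eq_or_eq_neg.1 h2 with h | h
    · rw [h, Complex.conj_ofReal]
    · rw [h, map_neg, Complex.conj_ofReal]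
  have h4 : ComplexEmbedding.IsReal φ := by
    rw [ComplexEmbedding.isReal_iff]
    ext y
    obtain ⟨p, q, rfl⟩ := h1 y
    rw [ComplexEmbedding.conjugate_coe_eq, map_add, map_mul, map_ratCast, map_ratCast, map_add,
      map_mul, map_ratCast, map_ratCast, h3]
  exact hr.false h4.embedding

/-- the quadratic equation of an integer -/
theorem quad (hK : Module.finrank ℚ K = 2) (x : 𝓞 K) : ∃ t : ℤ,
    x ^ 2 = (t : 𝓞 K) * x - ((Algebra.norm ℤ x : ℤ) : 𝓞 K) := by
  have h2 : Module.finrank ℤ (𝓞 K) = 2 := by rw [RingOfIntegers.rank, hK]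
  let b := Module.finBasisOfFinrankEq ℤ (𝓞 K) h2
  obtain ⟨M, hM⟩ : ∃ M, M = Algebra.leftMulMatrix b x := ⟨_, rfl⟩
  have h3 := Matrix.aeval_self_charpoly M
  have hdet : M.det = Algebra.norm ℤ x := by
    rw [hM]
    exact (Algebra.norm_eq_matrix_det b x).symm
  rw [Matrix.charpoly_fin_two, hdet] at h3
  refine ⟨M.trace, ?_⟩
  have h4 : Algebra.leftMulMatrix b (x ^ 2 - ((M.trace : ℤ) : 𝓞 K) * x +
      ((Algebra.norm ℤ x : ℤ) : 𝓞 K)) = 0 := by
    rw [map_add, map_sub, map_mul, map_pow, map_intCast, map_intCast]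
    rw [map_add, map_sub, map_mul, map_pow, Polynomial.aeval_X, Polynomial.aeval_C,
      Polynomial.aeval_C] at h3
    rw [← hM]
    exact h3
  have h5 := Algebra.leftMulMatrix_injective b (h4.trans (map_zero _).symm)
  linear_combination h5

theorem int_coe (n : ℤ) : (((n : 𝓞 K)) : K) = (n : K) := map_intCast (algebraMap (𝓞 K) K) n

/-- an integer is rational or of negative discriminant -/
theorem quad_disc (hK : Module.finrank ℚ K = 2) (hr : IsEmpty (K →+* ℝ)) {x : 𝓞 K} {t n : ℤ}
    (h : x ^ 2 = (t : 𝓞 K) * x - (n : 𝓞 K)) : (∃ m : ℤ, x = m) ∨ t ^ 2 < 4 * n := by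
  have h' : (x : K) ^ 2 = (t : K) * (x : K) - (n : K) := by
    have h1 : ((x ^ 2 : 𝓞 K) : K) = (((t : 𝓞 K) * x - (n : 𝓞 K) : 𝓞 K) : K) := by rw [h]
    have e1 : ((x ^ 2 : 𝓞 K) : K) = (x : K) ^ 2 := map_pow (algebraMap (𝓞 K) K) _ _
    have e2 : (((t : 𝓞 K) * x - (n : 𝓞 K) : 𝓞 K) : K) = (t : K) * (x : K) - (n : K) := by
      change algebraMap (𝓞 K) K ((t : 𝓞 K) * x - (n : 𝓞 K)) = _
      rw [map_sub, map_mul, map_intCast, map_intCast]
    rw [← e1, h1, e2]
  have hy : (2 * (x : K) - t) ^ 2 = ((t ^ 2 - 4 * n : ℤ) : K) := by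
    push_cast
    linear_combination 4 * h'
  by_cases hs : IsSquare (t ^ 2 - 4 * n)
  · left
    obtain ⟨e, he⟩ := hs
    rw [he] at hy
    push_cast at hy
    obtain ⟨c, hc⟩ : ∃ c : ℤ, 2 * (x : K) = c := by
      have h1 : (2 * (x : K) - t) ^ 2 = (e : K) ^ 2 := by rw [hy]; ring
      rcases sq_eq_sq_iff_eq_or_eq_neg.1 h1 with h2 | h2
      · exact ⟨t + e, by push_cast; linear_combination h2⟩
      · exact ⟨t - e, by push_cast; linear_combination h2⟩
    have h2 : c ^ 2 = 2 * t * c - 4 * n := by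
      have h3 : (c : K) ^ 2 = 2 * (t : K) * c - 4 * n := by
        rw [← hc]
        linear_combination 4 * h'
      exact_mod_cast h3
    have h3 : c % 2 = 0 := by
      rcases Int.emod_two_eq_zero_or_one c with h4 | h4
      · exact h4
      · exfalso
        obtain ⟨k, hk⟩ : ∃ k, c = 2 * k + 1 := ⟨c / 2, by omega⟩
        rw [hk] at h2
        have h5 : 2 * (2 * k ^ 2 + 2 * k - t * (2 * k + 1) + 2 * n) = -1 := by linear_combination h2
        omega
    refine ⟨c / 2, ?_⟩
    apply RingOfIntegers.ext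
    rw [int_coe]
    have h4 : c = 2 * (c / 2) := by omega
    rw [h4] at hc
    push_cast at hc
    exact mul_left_cancel₀ two_ne_zero hc
  · right
    have h1 := neg_of_sq hK hr hy hs
    linarith

theorem unit_of_norm {x : 𝓞 K} {t : ℤ} (h : x ^ 2 = (t : 𝓞 K) * x -
    ((Algebra.norm ℤ x : ℤ) : 𝓞 K)) (hn : Algebra.norm ℤ x = 1 ∨ Algebra.norm ℤ x = -1) :
    IsUnit x := by
  have h1 : x * ((t : 𝓞 K) - x) = ((Algebra.norm ℤ x : ℤ) : 𝓞 K) := by linear_combination -h
  have h2 : IsUnit (x * ((t : 𝓞 K) - x)) := by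
    rw [h1]
    rcases hn with h3 | h3
    · rw [h3]
      simp
    · rw [h3]
      simp
  exact isUnit_of_mul_isUnit_left h2

theorem norm_int (hK : Module.finrank ℚ K = 2) (m : ℤ) : Algebra.norm ℤ ((m : ℤ) : 𝓞 K) = m ^ 2 := by
  have h2 : Module.finrank ℤ (𝓞 K) = 2 := by rw [RingOfIntegers.rank, hK]
  have h := Algebra.norm_algebraMap_of_basis (Module.finBasisOfFinrankEq ℤ (𝓞 K) h2) m
  rw [Fintype.card_fin] at h
  exact h

/-- **If `2` is not inert, there is an element of norm two.** -/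
theorem exists_two (hK : Module.finrank ℚ K = 2) (hr : IsEmpty (K →+* ℝ))
    [IsPrincipalIdealRing (𝓞 K)] (h2 : ¬ Prime (2 : 𝓞 K)) :
    ∃ s : 𝓞 K, s ^ 2 = -1 ∨ s ^ 2 = -2 ∨ s ^ 2 = s - 2 := by
  have hN2 : Algebra.norm ℤ (2 : 𝓞 K) = 4 := by
    have h := norm_int hK 2
    push_cast at h
    exact h
  have hnu : ¬ IsUnit (2 : 𝓞 K) := by
    intro h
    have h1 := h.map (Algebra.norm ℤ)
    rw [hN2] at h1
    exact absurd (Int.isUnit_iff.1 h1) (by norm_num)
  obtain ⟨π, hπ, ρ, hρ⟩ := WfDvdMonoid.exists_irreducible_factor hnu two_ne_zero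
  have hmul : Algebra.norm ℤ π * Algebra.norm ℤ ρ = 4 := by rw [← map_mul, ← hρ, hN2]
  obtain ⟨t, ht⟩ := quad hK π
  obtain ⟨t', ht'⟩ := quad hK ρ
  have h1 : ¬ (Algebra.norm ℤ π = 1 ∨ Algebra.norm ℤ π = -1) := fun h =>
    hπ.not_isUnit (unit_of_norm ht h)
  have h3 : ¬ (Algebra.norm ℤ ρ = 1 ∨ Algebra.norm ℤ ρ = -1) := by
    intro h
    apply h2
    have hu := unit_of_norm ht' h
    have has : Associated π 2 := by
      rw [hρ]
      exact (associated_mul_unit_right π ρ hu)
    exact has.prime hπ.prime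
  obtain ⟨n, hn⟩ : ∃ n, n = Algebra.norm ℤ π := ⟨_, rfl⟩
  obtain ⟨n', hn'⟩ : ∃ n', n' = Algebra.norm ℤ ρ := ⟨_, rfl⟩
  rw [← hn, ← hn'] at hmul
  rw [← hn] at h1 ht
  rw [← hn'] at h3
  have hn2 : n = 2 ∨ n = -2 := by
    have hd : n ∣ 4 := ⟨n', hmul.symm⟩
    have hle : n ≤ 4 := Int.le_of_dvd (by norm_num) hd
    have hge : -4 ≤ n := by
      have h5 : -n ≤ 4 := Int.le_of_dvd (by norm_num) ((neg_dvd).2 hd)
      linarith
    push Not at h1 h3
    interval_cases n <;> omega
  rcases quad_disc hK hr ht with ⟨m, hm⟩ | h5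
  · exfalso
    rw [hm, norm_int hK] at hn
    rcases hn2 with h6 | h6
    · rw [h6] at hn
      have h7 : m ≤ 1 := by nlinarith
      have h8 : -1 ≤ m := by nlinarith
      interval_cases m <;> omega
    · rw [h6] at hn
      nlinarith
  · have hn3 : n = 2 := by
      rcases hn2 with h6 | h6
      · exact h6
      · rw [h6] at h5
        nlinarith
    rw [hn3] at h5 ht
    have h7 : t ≤ 2 := by nlinarith
    have h8 : -2 ≤ t := by nlinarith
    push_cast at ht
    interval_cases t
    · exact ⟨π + 1, Or.inl (by push_cast at ht; linear_combination ht)⟩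
    · exact ⟨-π, Or.inr (Or.inr (by push_cast at ht; linear_combination ht))⟩
    · exact ⟨π, Or.inr (Or.inl (by push_cast at ht; linear_combination ht))⟩
    · exact ⟨π, Or.inr (Or.inr (by push_cast at ht; linear_combination ht))⟩
    · exact ⟨π - 1, Or.inl (by push_cast at ht; linear_combination ht)⟩

/-- the units of an imaginary quadratic field -/
theorem unit_cases (hK : Module.finrank ℚ K = 2) (hr : IsEmpty (K →+* ℝ)) {u : 𝓞 K}
    (hu : IsUnit u) : u = 1 ∨ u = -1 ∨ u ^ 2 = -1 ∨ u ^ 2 = u - 1 ∨ u ^ 2 = -u - 1 := by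
  obtain ⟨t, ht⟩ := quad hK u
  have hn := Int.isUnit_iff.1 (hu.map (Algebra.norm ℤ))
  rcases quad_disc hK hr ht with ⟨m, hm⟩ | h5
  · rw [hm, norm_int hK] at hn
    have h1 : m ^ 2 = 1 := by
      rcases hn with h | h
      · exact h
      · nlinarith
    have h9 : m = 1 ∨ m = -1 := by
      rcases sq_eq_sq_iff_eq_or_eq_neg.1 (h1.trans (one_pow 2).symm) with h | h
      · exact Or.inl h
      · exact Or.inr h
    rcases h9 with h | h
    · left
      rw [hm, h, Int.cast_one]
    · right; left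
      rw [hm, h]
      push_cast
      rfl
  · have hn1 : Algebra.norm ℤ u = 1 := by
      rcases hn with h | h
      · exact h
      · rw [h] at h5
        nlinarith
    rw [hn1] at h5 ht
    have h7 : t ≤ 1 := by nlinarith
    have h8 : -1 ≤ t := by nlinarith
    interval_cases t
    · right; right; right; right
      push_cast at ht
      linear_combination ht
    · right; right; left
      push_cast at ht
      linear_combination ht
    · right; right; right; left
      push_cast at ht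
      linear_combination ht

end

end Pool.Agent.Lib.MP_1a91b9_ntI
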