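import Pool.Agent.Lib.MP_1a91b9_nuI.Glob

/-!
# The L-series of a curve with integral invariant `j` does not depend on the equation
-/

set_option autoImplicit false
set_option linter.unusedSectionVars false

namespace Pool.Agent.Lib.MP_1a91b9_ntI

open NumberField IsDedekindDomain WeierstrassCurve
open Pool.Agent.Lib.MP_1a91b9_nuI (HasJ LFunction_change)

variable {N : Type*} [Field N] [NumberField N]

/-- **The L-series is invariant.** -/
theorem ls_vc (W : WeierstrassCurve N) (C : VariableChange N) (j : ℤ) (hj : HasJ W j) (s : ℂ) :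
    (C • W).LSeries s = W.LSeries s := by
  unfold WeierstrassCurve.LSeries
  rw [LFunction_change W C j hj]

/-- `HasJ` for an elliptic curve -/
theorem hasJ_of_j {W : WeierstrassCurve N} [W.IsElliptic] {j : ℤ} (h : W.j = (j : N)) :
    HasJ W j := by
  unfold HasJ
  rw [← h, WeierstrassCurve.j, Units.val_inv_eq_inv_val, WeierstrassCurve.coe_Δ']
  have hΔ : W.Δ ≠ 0 := by
    rw [← WeierstrassCurve.coe_Δ']
    exact W.Δ'.ne_zero
  field_simp

end Pool.Agent.Lib.MP_1a91b9_ntI
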