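import Pool.Agent.Lib.MP_1a91b9_ntI.EndI

/-!
# Two quadratic fields with the same square root are isomorphic
-/

set_option autoImplicit false
set_option linter.unusedSectionVars false

namespace Pool.Agent.Lib.MP_1a91b9_ntI

open NumberField

section

variable {K K' : Type*} [Field K] [NumberField K] [Field K'] [NumberField K']

theorem coord_uniq (hK : Module.finrank ℚ K = 2) {x : K} {a : ℤ} (hx : x ^ 2 = a)
    (ha : ¬ IsSquare a) {p q p' q' : ℚ} (h : (p : K) + (q : K) * x = (p' : K) + (q' : K) * x) :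
    p = p' ∧ q = q' := by
  obtain ⟨-, h2⟩ := coord hK hx ha
  obtain ⟨h3, h4⟩ := h2 (p - p') (q - q') (by push_cast; linear_combination h)
  exact ⟨sub_eq_zero.1 h3, sub_eq_zero.1 h4⟩

/-- **Two quadratic fields generated by a square root of the same integer are isomorphic.** -/
theorem iso_sq (hK : Module.finrank ℚ K = 2) (hK' : Module.finrank ℚ K' = 2) {x : K} {x' : K'}
    {a : ℤ} (hx : x ^ 2 = a) (hx' : x' ^ 2 = a) (ha : ¬ IsSquare a) :
    ∃ e : K ≃+* K', e x = x' := by
  obtain ⟨h1, -⟩ := coord hK hx ha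
  obtain ⟨h1', -⟩ := coord hK' hx' ha
  choose p q hpq using h1
  have hu : ∀ (y : K) (r s : ℚ), y = (r : K) + (s : K) * x → p y = r ∧ q y = s := by
    intro y r s h
    exact coord_uniq hK hx ha ((hpq y).symm.trans h)
  let f : K →+* K' :=
    { toFun := fun y => (p y : K') + (q y : K') * x'
      map_one' := by
        obtain ⟨h3, h4⟩ := hu 1 1 0 (by push_cast; ring)
        rw [h3, h4]
        push_cast
        ring
      map_mul' := fun y z => by
        obtain ⟨h3, h4⟩ := hu (y * z) (p y * p z + a * (q y * q z)) (p y * q z + q y * p z) (by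
          have hy := hpq y
          have hz := hpq z
          obtain ⟨py, hpy⟩ : ∃ t, t = p y := ⟨_, rfl⟩
          obtain ⟨qy, hqy⟩ : ∃ t, t = q y := ⟨_, rfl⟩
          obtain ⟨pz, hpz⟩ : ∃ t, t = p z := ⟨_, rfl⟩
          obtain ⟨qz, hqz⟩ : ∃ t, t = q z := ⟨_, rfl⟩
          rw [← hpy, ← hqy] at hy ⊢
          rw [← hpz, ← hqz] at hz ⊢
          rw [hy, hz]
          push_cast
          linear_combination (qy : K) * (qz : K) * hx)
        rw [h3, h4]
        push_cast
        linear_combination (-(q y : K') * (q z : K')) * hx'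
      map_zero' := by
        obtain ⟨h3, h4⟩ := hu 0 0 0 (by push_cast; ring)
        rw [h3, h4]
        push_cast
        ring
      map_add' := fun y z => by
        obtain ⟨h3, h4⟩ := hu (y + z) (p y + p z) (q y + q z) (by
          have hy := hpq y
          have hz := hpq z
          obtain ⟨py, hpy⟩ : ∃ t, t = p y := ⟨_, rfl⟩
          obtain ⟨qy, hqy⟩ : ∃ t, t = q y := ⟨_, rfl⟩
          obtain ⟨pz, hpz⟩ : ∃ t, t = p z := ⟨_, rfl⟩
          obtain ⟨qz, hqz⟩ : ∃ t, t = q z := ⟨_, rfl⟩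
          rw [← hpy, ← hqy] at hy ⊢
          rw [← hpz, ← hqz] at hz ⊢
          rw [hy, hz]
          push_cast
          ring)
        rw [h3, h4]
        push_cast
        ring }
  have hf : ∀ r s : ℚ, f ((r : K) + (s : K) * x) = (r : K') + (s : K') * x' := by
    intro r s
    obtain ⟨h3, h4⟩ := hu ((r : K) + (s : K) * x) r s rfl
    change (p ((r : K) + (s : K) * x) : K') + (q ((r : K) + (s : K) * x) : K') * x' = _
    rw [h3, h4]
  have hs : Function.Surjective f := by
    intro y'
    obtain ⟨r, s, h⟩ := h1' y'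
    exact ⟨(r : K) + (s : K) * x, by rw [hf, h]⟩
  refine ⟨RingEquiv.ofBijective f ⟨f.injective, hs⟩, ?_⟩
  have h := hf 0 1
  rw [RingEquiv.ofBijective_apply]
  push_cast at h
  rw [zero_add, one_mul, zero_add, one_mul] at h
  exact h

/-- the case of a root of `θ² - θ + 2` -/
theorem iso_th (hK : Module.finrank ℚ K = 2) (hK' : Module.finrank ℚ K' = 2) {θ : K} {θ' : K'}
    (hθ : θ ^ 2 = θ - 2) (hθ' : θ' ^ 2 = θ' - 2) : ∃ e : K ≃+* K', e θ = θ' := by
  obtain ⟨e, he⟩ := iso_sq hK hK' (x := 2 * θ - 1) (x' := 2 * θ' - 1) (a := -7)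
    (by rw [th7 hθ]; push_cast; rfl) (by rw [th7 hθ']; push_cast; rfl) ns7
  refine ⟨e, ?_⟩
  rw [map_sub, map_mul, map_one, map_ofNat] at he
  have h2 : (2 : K') ≠ 0 := two_ne_zero
  refine mul_left_cancel₀ h2 ?_
  linear_combination he

end

end Pool.Agent.Lib.MP_1a91b9_ntI
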