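import Pool.Agent.Lib.MP_1a91b9_ntS.R.Defs

/-!
# The family of curves and the main statement over a quadratic field

`CM2 W`: `W` has a `K`-rational point of order two and complex multiplication. `Fr K w D`: no `w`-th power of a prime divides `D`. `cW K w a b D`: the curve
`y² = x³ + a D x² + b D^{4/w} x`. `TP`: the main statement over a field.
-/

set_option autoImplicit false
set_option linter.unusedSectionVars false

namespace Pool.Agent.Lib.MP_1a91b9_ntI

open NumberField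
open Pool.Agent.Lib.MP_1a91b9_ntS (BSDMod)

noncomputable section

/-- `W` is isomorphic over `K` to a nonsingular curve `E : y² = x³ + a x² + b x` (it has a `K`-rational point
of order two), and `E` is isomorphic over `K` to its quotient `y² = x³ - 2 a x² + (a² - 4 b) x` by the
subgroup generated by `(0, 0)` (that is, `E` has an endomorphism of degree two over `K` with this kernel), or
`W` has an automorphism over `K` other than `1`, `-1`. -/
def CM2 {K : Type*} [Field K] (W : WeierstrassCurve K) : Prop :=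
  ∃ a b : K, b ≠ 0 ∧ a ^ 2 - 4 * b ≠ 0 ∧
    (∃ C : WeierstrassCurve.VariableChange K, C • W = ⟨0, a, 0, b, 0⟩) ∧
    ((∃ C : WeierstrassCurve.VariableChange K, C • (⟨0, a, 0, b, 0⟩ : WeierstrassCurve K) =
      ⟨0, -2 * a, 0, a ^ 2 - 4 * b, 0⟩) ∨
      ∃ C : WeierstrassCurve.VariableChange K, C • W = W ∧ (C.u : K) ^ 2 ≠ 1)

/-- `D` is not divisible by the `w`-th power of a prime. -/
def Fr (K : Type) [Field K] (w : ℕ) (D : 𝓞 K) : Prop := ∀ p : 𝓞 K, Prime p → ¬ p ^ w ∣ D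

/-- The curves. -/
def cW (K : Type) [Field K] (w : ℕ) (a b D : 𝓞 K) : WeierstrassCurve K :=
  ⟨0, ((a * D : 𝓞 K) : K), 0, ((b * D ^ (4 / w) : 𝓞 K) : K), 0⟩

/-- The main statement. -/
def TP (K : Type) [Field K] [NumberField K] (w : ℕ) (a b : 𝓞 K) (c : ℝ) : Prop :=
  ∃ q : 𝓞 K → ℚ, (∀ D : 𝓞 K, Fr K w D → BSDMod 2 (cW K w a b D) (q D)) ∧
    ∀ (n : ℕ) (m u : 𝓞 K), m ∣ 2 ^ n → (∀ p : 𝓞 K, Prime p → ¬ (p ^ w ∣ m ∧ p ^ w ∣ u)) →
      Filter.Tendsto (fun X : ℝ =>
        (Nat.card {D : 𝓞 K // Fr K w D ∧ m ∣ D - u ∧ |Algebra.norm ℤ D| ≤ X ∧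
          ¬ 2 ∣ (q D).num} : ℝ) /
        (Nat.card {D : 𝓞 K // Fr K w D ∧ m ∣ D - u ∧ |Algebra.norm ℤ D| ≤ X} : ℝ))
        Filter.atTop (nhds c)

end

end Pool.Agent.Lib.MP_1a91b9_ntI
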