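import Mathlib

/-!
# Number fields of degree two generated by a root of the same polynomial are isomorphic
-/

set_option autoImplicit false

namespace Pool.Agent.Lib.MP_1a91b9_ntI

open Polynomial IntermediateField

noncomputable section

theorem adjoin_top {K : Type} [Field K] [NumberField K] (h : Module.finrank ℚ K = 2) {f : ℚ[X]}
    (hf : Irreducible f) (hm : f.Monic) (hd : f.natDegree = 2) {s : K} (hs : aeval s f = 0) :
    ℚ⟮s⟯ = ⊤ := by
  have h1 : minpoly ℚ s = f := (minpoly.eq_of_irreducible_of_monic hf hs hm).symm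
  have h2 : IsIntegral ℚ s := ⟨f, hm, hs⟩
  have h3 : Module.finrank ℚ ℚ⟮s⟯ = 2 := by
    rw [adjoin.finrank h2, h1, hd]
  apply IntermediateField.eq_of_le_of_finrank_eq le_top
  rw [h3, IntermediateField.finrank_top', h]

theorem equiv_adjoinRoot {K : Type} [Field K] [NumberField K] (h : Module.finrank ℚ K = 2)
    {f : ℚ[X]} (hf : Irreducible f) (hm : f.Monic) (hd : f.natDegree = 2) {s : K}
    (hs : aeval s f = 0) : Nonempty (AdjoinRoot f ≃+* K) := by
  have h1 : minpoly ℚ s = f := (minpoly.eq_of_irreducible_of_monic hf hs hm).symm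
  have h2 : IsIntegral ℚ s := ⟨f, hm, hs⟩
  have h3 := adjoin_top h hf hm hd hs
  have e1 : AdjoinRoot (minpoly ℚ s) ≃ₐ[ℚ] ℚ⟮s⟯ := adjoinRootEquivAdjoin ℚ h2
  have e2 : ℚ⟮s⟯ ≃ₐ[ℚ] (⊤ : IntermediateField ℚ K) := IntermediateField.equivOfEq h3
  rw [h1] at e1
  exact ⟨((e1.trans e2).trans IntermediateField.topEquiv).toRingEquiv⟩

/-- **The isomorphism.** -/
theorem exists_iso {K K' : Type} [Field K] [NumberField K] [Field K'] [NumberField K']
    (h : Module.finrank ℚ K = 2) (h' : Module.finrank ℚ K' = 2) {f : ℚ[X]} (hf : Irreducible f)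
    (hm : f.Monic) (hd : f.natDegree = 2) {s : K} (hs : aeval s f = 0) {s' : K'}
    (hs' : aeval s' f = 0) : Nonempty (K ≃+* K') := by
  obtain ⟨e⟩ := equiv_adjoinRoot h hf hm hd hs
  obtain ⟨e'⟩ := equiv_adjoinRoot h' hf hm hd hs'
  exact ⟨e.symm.trans e'⟩

/-- The polynomial `X² - t X + n`. -/
def pq (t n : ℚ) : ℚ[X] := X ^ 2 - C t * X + C n

theorem pq_deg (t n : ℚ) : (pq t n).natDegree = 2 := by
  unfold pq
  compute_degree!

theorem pq_monic (t n : ℚ) : (pq t n).Monic := by
  unfold pq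
  monicity!

theorem pq_irr {t n : ℚ} (h : t ^ 2 - 4 * n < 0) : Irreducible (pq t n) := by
  rw [irreducible_iff_roots_eq_zero_of_degree_le_three]
  · rw [Multiset.eq_zero_iff_forall_notMem]
    intro x hx
    have h1 := (mem_roots'.1 hx).2
    rw [pq, IsRoot.def] at h1
    simp only [eval_add, eval_sub, eval_pow, eval_X, eval_mul, eval_C] at h1
    nlinarith [sq_nonneg (2 * x - t)]
  · rw [pq_deg]
  · rw [pq_deg]
    norm_num

theorem aeval_pq {A : Type} [CommRing A] [Algebra ℚ A] (t n : ℚ) (s : A) :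
    aeval s (pq t n) = s ^ 2 - algebraMap ℚ A t * s + algebraMap ℚ A n := by
  simp [pq]

/-- **The isomorphism**, for roots of `X² - t X + n`. -/
theorem exists_iso_pq {K K' : Type} [Field K] [NumberField K] [Field K'] [NumberField K']
    (h : Module.finrank ℚ K = 2) (h' : Module.finrank ℚ K' = 2) {t n : ℚ}
    (htn : t ^ 2 - 4 * n < 0) {s : K} (hs : s ^ 2 = (t : K) * s - n) {s' : K'}
    (hs' : s' ^ 2 = (t : K') * s' - n) : Nonempty (K ≃+* K') := by
  obtain ⟨e⟩ := exists_iso h h' (pq_irr htn) (pq_monic t n) (pq_deg t n) (s := s) (s' := s')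
    (by
      rw [aeval_pq]
      simp only [eq_ratCast]
      linear_combination hs)
    (by
      rw [aeval_pq]
      simp only [eq_ratCast]
      linear_combination hs')
  exact ⟨e⟩

end

end Pool.Agent.Lib.MP_1a91b9_ntI
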