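import Pool.Agent.Lib.MP_1a91b9_ntI.TrPl
import Pool.Agent.Lib.MP_1a91b9_nuI.Glob

/-!
# Transport along an isomorphism of number fields, file TrLs: the L-series

`ls_e`: for a curve `W` over `N` whose `j`-invariant is integral at all places and an isomorphism
`e : N ≃+* N'`, the curves `W` and `W.map e` have the same L-series.
-/

set_option autoImplicit false
set_option linter.unusedSectionVars false

namespace Pool.Agent.Lib.MP_1a91b9_ntI

open WeierstrassCurve IsDedekindDomain NumberField
open Pool.Agent.Lib.MP_1a91b9_nuI (Good HasJ locpoly_bad)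
open Pool.Agent.Lib.MP_1a91b9_nt (localPolynomial_of_model)

noncomputable section

/-! ### The points -/

/-- The map on the points. -/
def ptMap {k k' : Type*} [Field k] [Field k'] (f : k →+* k') (W : WeierstrassCurve k) :
    W.toAffine.Point → (W.map f).toAffine.Point
  | .zero => .zero
  | .some X Y h => .some (f X) (f Y) ((Affine.map_nonsingular W.toAffine f.injective X Y).2 h)

theorem ptMap_bij {k k' : Type*} [Field k] [Field k'] (g : k ≃+* k') (W : WeierstrassCurve k) :
    Function.Bijective (ptMap (g : k →+* k') W) := by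
  constructor
  · rintro (_ | ⟨x₁, y₁, h₁⟩) (_ | ⟨x₂, y₂, h₂⟩) h
    · rfl
    · exact absurd h (by simp [ptMap])
    · exact absurd h (by simp [ptMap])
    · simp only [ptMap, Affine.Point.some.injEq] at h
      obtain ⟨hx, hy⟩ := h
      have h1 : x₁ = x₂ := g.injective hx
      have h2 : y₁ = y₂ := g.injective hy
      subst h1
      subst h2
      rfl
  · rintro (_ | ⟨x, y, h⟩)
    · exact ⟨.zero, rfl⟩
    · obtain ⟨x', rfl⟩ := g.surjective x
      obtain ⟨y', rfl⟩ := g.surjective y
      exact ⟨.some x' y' ((Affine.map_nonsingular W.toAffine (g : k →+* k').injective x' y').1 h),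
        rfl⟩

theorem card_pts {k k' : Type*} [Field k] [Field k'] (g : k ≃+* k') (W : WeierstrassCurve k) :
    Nat.card (W.map (g : k →+* k')).toAffine.Point = Nat.card W.toAffine.Point :=
  (Nat.card_eq_of_bijective _ (ptMap_bij g W)).symm

/-! ### The local polynomials -/

section Local

variable {R : Type*} [CommRing R] [IsDomain R] [IsDiscreteValuationRing R] {K : Type*} [Field K]
  [Algebra R K] [IsFractionRing R K] {R' : Type*} [CommRing R'] [IsDomain R']
  [IsDiscreteValuationRing R'] {K' : Type*} [Field K'] [Algebra R' K'] [IsFractionRing R' K']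

theorem card_res (f : R ≃+* R') : Nat.card (IsLocalRing.ResidueField R') =
    Nat.card (IsLocalRing.ResidueField R) :=
  (Nat.card_congr (IsLocalRing.ResidueField.mapEquiv f).toEquiv).symm

theorem good_map (f : R ≃+* R') (e : K ≃+* K')
    (h : ∀ x, e (algebraMap R K x) = algebraMap R' K' (f x)) (W : WeierstrassCurve K) (n : ℕ)
    (hW : Good R W n) : Good R' (W.map (e : K →+* K')) n := by
  obtain ⟨C, W₀, h1, h2, h3⟩ := hW
  refine ⟨C.map (e : K →+* K'), W₀.map (f : R →+* R'), ?_, ?_, ?_⟩
  · have h4 : (e : K →+* K').comp (algebraMap R K) = (algebraMap R' K').comp (f : R →+* R') :=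
      RingHom.ext h
    rw [map_variableChange, h1, WeierstrassCurve.map_map, WeierstrassCurve.map_map, h4]
  · rw [WeierstrassCurve.map_Δ]
    exact h2.map (f : R →+* R')
  · have h5 : (W₀.map (f : R →+* R')).map (IsLocalRing.residue R') =
        (W₀.map (IsLocalRing.residue R)).map
          ((IsLocalRing.ResidueField.mapEquiv f : _ ≃+* _) : _ →+* _) := by
      rw [WeierstrassCurve.map_map, WeierstrassCurve.map_map]
      congr 1
    rw [h5, card_pts, h3]

theorem locPol_map (f : R ≃+* R') (e : K ≃+* K')
    (h : ∀ x, e (algebraMap R K x) = algebraMap R' K' (f x)) (W : WeierstrassCurve K)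
    (hj : ∃ j : R, W.c₄ ^ 3 = algebraMap R K j * W.Δ) :
    (W.map (e : K →+* K')).localPolynomial R' = W.localPolynomial R := by
  by_cases hg : ∃ n, Good R W n
  · obtain ⟨n, hn⟩ := hg
    obtain ⟨C', W₀', e1', e2', e3'⟩ := good_map f e h W n hn
    obtain ⟨C, W₀, e1, e2, e3⟩ := hn
    rw [localPolynomial_of_model R W C W₀ e1 e2, localPolynomial_of_model R' _ C' W₀' e1' e2', e3,
      e3', card_res f]
  · have hsymm : ∀ x, e.symm (algebraMap R' K' x) = algebraMap R K (f.symm x) := by
      intro x
      rw [RingEquiv.symm_apply_eq, h, RingEquiv.apply_symm_apply]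
    have hmap : (W.map (e : K →+* K')).map (e.symm : K' →+* K) = W := by
      rw [WeierstrassCurve.map_map]
      have h4 : (e.symm : K' →+* K).comp (e : K →+* K') = RingHom.id K :=
        RingHom.ext fun x => e.symm_apply_apply x
      rw [h4]
      exact W.map_id
    rw [locpoly_bad R W hj fun n hn => hg ⟨n, hn⟩, locpoly_bad R' (W.map (e : K →+* K')) ?_ ?_]
    · obtain ⟨j, hj⟩ := hj
      refine ⟨f j, ?_⟩
      rw [WeierstrassCurve.map_c₄, WeierstrassCurve.map_Δ, ← h, ← map_pow, hj]
      exact map_mul e _ _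
    · intro n hn
      apply hg
      have h5 := good_map f.symm e.symm hsymm _ n hn
      rw [hmap] at h5
      exact ⟨n, h5⟩

theorem euler_map (f : R ≃+* R') (e : K ≃+* K')
    (h : ∀ x, e (algebraMap R K x) = algebraMap R' K' (f x)) (W : WeierstrassCurve K)
    (hj : ∃ j : R, W.c₄ ^ 3 = algebraMap R K j * W.Δ) :
    (W.map (e : K →+* K')).localEulerFactor R' = W.localEulerFactor R := by
  unfold WeierstrassCurve.localEulerFactor WeierstrassCurve.localPowerSeries
  rw [locPol_map f e h W hj, card_res f]

end Local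

/-! ### Euler products -/

theorem eulerProduct_equiv {ι ι' : Type*} (σ : ι ≃ ι') (f : ι' → ArithmeticFunction ℤ) :
    ArithmeticFunction.eulerProduct (fun i => f (σ i)) = ArithmeticFunction.eulerProduct f := by
  let _ : UniformSpace (ArithmeticFunction ℤ) := ArithmeticFunction.uniformSpace
  exact σ.tprod_eq f

/-! ### The L-series -/

section Glob

variable {N N' : Type} [Field N] [NumberField N] [Field N'] [NumberField N'] (e : N ≃+* N')

/-- The isomorphism of the rings of integers of the completions. -/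
def ciE (v : HeightOneSpectrum (𝓞 N)) :
    v.adicCompletionIntegers N ≃+* (plE e v).adicCompletionIntegers N' where
  toFun x := ⟨cmE e v x, by
    have h := x.2
    rw [HeightOneSpectrum.mem_adicCompletionIntegers] at h ⊢
    rw [cmE_val]
    exact h⟩
  invFun x := ⟨(cmE e v).symm x, by
    have h := x.2
    rw [HeightOneSpectrum.mem_adicCompletionIntegers] at h ⊢
    rw [← cmE_val e v, RingEquiv.apply_symm_apply]
    exact h⟩
  left_inv x := Subtype.ext ((cmE e v).symm_apply_apply _)
  right_inv x := Subtype.ext ((cmE e v).apply_symm_apply _)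
  map_mul' x y := Subtype.ext (map_mul (cmE e v) _ _)
  map_add' x y := Subtype.ext (map_add (cmE e v) _ _)

theorem j_loc {W : WeierstrassCurve N} (v : HeightOneSpectrum (𝓞 N))
    (hj : v.valuation N (W.c₄ ^ 3) ≤ v.valuation N W.Δ) :
    ∃ j : v.adicCompletionIntegers N, (W.baseChange (v.adicCompletion N)).c₄ ^ 3 =
      algebraMap (v.adicCompletionIntegers N) (v.adicCompletion N) j *
        (W.baseChange (v.adicCompletion N)).Δ := by
  have hc : (W.baseChange (v.adicCompletion N)).c₄ = algebraMap N (v.adicCompletion N) W.c₄ :=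
    WeierstrassCurve.map_c₄ _ _
  have hd : (W.baseChange (v.adicCompletion N)).Δ = algebraMap N (v.adicCompletion N) W.Δ :=
    WeierstrassCurve.map_Δ _ _
  rw [hc, hd]
  by_cases h0 : W.Δ = 0
  · have h1 : W.c₄ ^ 3 = 0 := by
      rw [h0, map_zero] at hj
      exact (map_eq_zero _).1 (le_antisymm hj zero_le)
    refine ⟨0, ?_⟩
    rw [← map_pow, h1, map_zero, map_zero, zero_mul]
  · have h1 : Valued.v (algebraMap N (v.adicCompletion N) (W.c₄ ^ 3 / W.Δ)) ≤
        (1 : WithZero (Multiplicative ℤ)) := by
      have h2 : Valued.v (algebraMap N (v.adicCompletion N) (W.c₄ ^ 3 / W.Δ)) =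
          v.valuation N (W.c₄ ^ 3 / W.Δ) := v.valuedAdicCompletion_eq_valuation' _
      rw [h2, map_div₀]
      exact div_le_one_of_le₀ hj zero_le
    refine ⟨⟨_, h1⟩, ?_⟩
    have h3 : algebraMap (v.adicCompletionIntegers N) (v.adicCompletion N)
        ⟨algebraMap N (v.adicCompletion N) (W.c₄ ^ 3 / W.Δ), h1⟩ =
        algebraMap N (v.adicCompletion N) (W.c₄ ^ 3 / W.Δ) := rfl
    rw [h3, ← map_mul, div_mul_cancel₀ _ h0, map_pow]

/-- **The L-function of the transported curve.** -/
theorem lfun_e {W : WeierstrassCurve N}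
    (hj : ∀ v : HeightOneSpectrum (𝓞 N), v.valuation N (W.c₄ ^ 3) ≤ v.valuation N W.Δ) :
    (W.map (e : N →+* N')).LFunction = W.LFunction := by
  unfold WeierstrassCurve.LFunction
  rw [← eulerProduct_equiv (plE e)]
  congr 1
  funext v
  have h1 : (W.map (e : N →+* N')).baseChange ((plE e v).adicCompletion N') =
      (W.baseChange (v.adicCompletion N)).map (cmE e v : _ →+* _) := by
    rw [WeierstrassCurve.baseChange, WeierstrassCurve.baseChange, WeierstrassCurve.map_map,
      WeierstrassCurve.map_map]
    congr 1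
    exact RingHom.ext fun x => (cmE_coe e v x).symm
  rw [h1]
  exact euler_map (ciE e v) (cmE e v) (fun _ => rfl) _ (j_loc v (hj v))

/-- **The L-series of the transported curve.** -/
theorem ls_e {W : WeierstrassCurve N}
    (hj : ∀ v : HeightOneSpectrum (𝓞 N), v.valuation N (W.c₄ ^ 3) ≤ v.valuation N W.Δ) (s : ℂ) :
    (W.map (e : N →+* N')).LSeries s = W.LSeries s := by
  unfold WeierstrassCurve.LSeries
  rw [lfun_e e hj]

theorem ji_hasJ {W : WeierstrassCurve N} {j : ℤ} (hj : HasJ W j) (v : HeightOneSpectrum (𝓞 N)) :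
    v.valuation N (W.c₄ ^ 3) ≤ v.valuation N W.Δ := by
  have h1 : W.c₄ ^ 3 = algebraMap (𝓞 N) N (j : 𝓞 N) * W.Δ := by
    rw [map_intCast]
    exact hj
  rw [h1, map_mul]
  exact mul_le_of_le_one_left' (v.valuation_le_one _)

/-- The L-series, for a curve whose `j`-invariant is a rational integer. -/
theorem ls_e_hasJ {W : WeierstrassCurve N} {j : ℤ} (hj : HasJ W j) (s : ℂ) :
    (W.map (e : N →+* N')).LSeries s = W.LSeries s := ls_e e (ji_hasJ hj) s

end Glob

end

end Pool.Agent.Lib.MP_1a91b9_ntI
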