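import Pool.Agent.Lib.MP_1a91b9_ntI.Cls3

/-!
# The curves with complex multiplication and a rational point of order two: the four families

`AL'`: the family `cW K w a b D` is the family of all these curves, each once up to `D ↦ u ^ w D`.
-/

set_option autoImplicit false
set_option linter.unusedSectionVars false

namespace Pool.Agent.Lib.MP_1a91b9_ntI

open NumberField WeierstrassCurve
open Pool.Agent.Lib.MP_1a91b9_ntL (Endo2 crv crv_iso crv_change endo2_iff)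
open Pool.Agent.Lib.MP_1a91b9_nuI (HasJ)

section

variable {K : Type*} [Field K]

theorem cm2_iff (W : WeierstrassCurve K) : CM2 W ↔ Endo2 W ∨ (Two W ∧ AutN W) := by
  constructor
  · rintro ⟨a, b, hb, hd, hC, h | h⟩
    · exact Or.inl ⟨a, b, hb, hd, hC, h⟩
    · exact Or.inr ⟨⟨a, b, hb, hd, hC⟩, h⟩
  · rintro (⟨a, b, hb, hd, hC, h⟩ | ⟨⟨a, b, hb, hd, hC⟩, h⟩)
    · exact ⟨a, b, hb, hd, hC, Or.inl h⟩
    · exact ⟨a, b, hb, hd, hC, Or.inr h⟩

/-- over a field without cube roots of unity -/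
theorem cm2_endo [CharZero K] (hw : ∀ w : K, w ^ 2 + w + 1 ≠ 0) (W : WeierstrassCurve K) :
    CM2 W ↔ Endo2 W := by
  rw [cm2_iff]
  constructor
  · rintro (h | h)
    · exact h
    · rcases (two_autN two_ne_zero three_ne_zero W).1 h with ⟨i, b, hi, hb, C, hC⟩ | ⟨w, d, hw', -⟩
      · exact (endo2_iff W).2 (Or.inl ⟨i, b, hi, hb, C, hC⟩)
      · exact (hw w hw').elim
  · exact Or.inl

end

noncomputable section

/-- the family is the family of all the curves -/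
def AL' (K : Type) [Field K] [NumberField K] (w : ℕ) (a b : 𝓞 K) : Prop :=
  (∀ W : WeierstrassCurve K, CM2 W ↔ ∃ D : 𝓞 K, Fr K w D ∧ ∃ C : VariableChange K,
    C • W = cW K w a b D) ∧
  (∀ D D' : 𝓞 K, Fr K w D → Fr K w D' → ((∃ C : VariableChange K,
    C • cW K w a b D = cW K w a b D') ↔ ∃ u : 𝓞 K, IsUnit u ∧ D' = u ^ w * D)) ∧
  ∃ j : ℤ, ∀ D : 𝓞 K, Fr K w D → HasJ (cW K w a b D) j ∧ (cW K w a b D).Δ ≠ 0

variable {K : Type} [Field K] [NumberField K]

theorem al_w' [IsPrincipalIdealRing (𝓞 K)] (hK : Module.finrank ℚ K = 2)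
    (hr : IsEmpty (K →+* ℝ)) {θ : 𝓞 K} (hθ : θ ^ 2 = θ - 1) : AL' K 2 (-3) 3 := by
  obtain ⟨-, h1, h2, h3, h4⟩ := al_w hK hr hθ
  refine ⟨fun W => ?_, h3, 0, fun D hD => ?_⟩
  · rw [cm2_iff, ← h2]
    exact ⟨fun h => h.resolve_left (h1 W), Or.inr⟩
  · exact_mod_cast h4 D hD

/-- from the statement for the endomorphisms of degree two -/
theorem AL.al' {w : ℕ} {a b : 𝓞 K} (h : AL K w a b) (hw : ∀ w : K, w ^ 2 + w + 1 ≠ 0)
    (hu : ∀ u : 𝓞 K, IsUnit u → u ^ w = 1) : AL' K w a b := by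
  obtain ⟨-, -, h1, h2, h3⟩ := h
  refine ⟨fun W => (cm2_endo hw W).trans (h1 W), fun D D' hD hD' => ⟨fun ⟨C, hC⟩ => ?_, ?_⟩, h3⟩
  · refine ⟨1, isUnit_one, ?_⟩
    rw [one_pow, one_mul]
    exact (h2 D D' C hD hD' hC).symm
  · rintro ⟨u, hu', rfl⟩
    refine ⟨1, ?_⟩
    rw [hu u hu', one_mul, one_smul]

theorem ncube_of (hK : Module.finrank ℚ K = 2) {x : K} {a : ℤ} (hx : x ^ 2 = a)
    (ha : ¬ IsSquare a) (h3 : ¬ IsSquare (a * (-3))) (w : K) : w ^ 2 + w + 1 ≠ 0 := by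
  intro hw
  refine excl hK (a := a) (b := -3) (y := 2 * w + 1) hx ?_ ha ns3 h3
  push_cast
  linear_combination 4 * hw

theorem al_i' [IsPrincipalIdealRing (𝓞 K)] (hK : Module.finrank ℚ K = 2)
    (hr : IsEmpty (K →+* ℝ)) {i : 𝓞 K} (hi : i ^ 2 = -1) : AL' K 4 0 (-1) := by
  have hi' : (i : K) ^ 2 = -1 := by
    have := congrArg (algebraMap (𝓞 K) K) hi
    rw [map_pow, map_neg, map_one] at this
    exact this
  refine (al_i hK hr hi).al' (ncube_of hK (a := -1) (by rw [hi']; push_cast; rfl) ns1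
    (nsq_of (m := 1) (by norm_num) (by norm_num) (by norm_num))) fun u hu => ?_
  rcases units_i hK hr hi hu with h | h | h | h <;> rw [h]
  · ring
  · ring
  · linear_combination (i ^ 2 - 1) * hi
  · linear_combination (i ^ 2 - 1) * hi

theorem al_s' [IsPrincipalIdealRing (𝓞 K)] (hK : Module.finrank ℚ K = 2)
    (hr : IsEmpty (K →+* ℝ)) {s : 𝓞 K} (hs : s ^ 2 = -2) : AL' K 2 4 2 := by
  have hs' : (s : K) ^ 2 = -2 := by
    have := congrArg (algebraMap (𝓞 K) K) hs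
    rw [map_pow, map_neg, map_ofNat] at this
    exact this
  refine (al_s hK hr hs).al' (ncube_of hK (a := -2) (by rw [hs']; push_cast; rfl) ns2
    (nsq_of (m := 2) (by norm_num) (by norm_num) (by norm_num))) fun u hu => ?_
  rcases units_s hK hr hs' hu with h | h <;> rw [h] <;> ring

theorem al_t' [IsPrincipalIdealRing (𝓞 K)] (hK : Module.finrank ℚ K = 2)
    (hr : IsEmpty (K →+* ℝ)) {θ : 𝓞 K} (hθ : θ ^ 2 = θ - 2) :
    AL' K 2 (1 + (1 - θ) ^ 4) ((1 - θ) ^ 4) := by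
  have hθ' : (θ : K) ^ 2 = (θ : K) - 2 := by
    have := congrArg (algebraMap (𝓞 K) K) hθ
    rw [map_pow, map_sub, map_ofNat] at this
    exact this
  refine (al_t hK hr hθ).al' (ncube_of hK (a := -7) (by rw [th7 hθ']; push_cast; rfl) ns7
    (nsq_of (m := 4) (by norm_num) (by norm_num) (by norm_num))) fun u hu => ?_
  rcases units_t hK hr hθ' hu with h | h <;> rw [h] <;> ring

end

end Pool.Agent.Lib.MP_1a91b9_ntI
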