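import Pool.Agent.Lib.MP_1a91b9_ntL.Endo2
import Pool.Agent.Lib.MP_1a91b9_ntI.Iq

/-!
# The elliptic curves with an endomorphism of degree two over an imaginary quadratic field
-/

set_option autoImplicit false
set_option linter.unusedSectionVars false

namespace Pool.Agent.Lib.MP_1a91b9_ntI

open NumberField WeierstrassCurve
open Pool.Agent.Lib.MP_1a91b9_ntL (crv Endo2 endo2_iff crv_iso crv_change)

/-! ### Powers -/

section

variable {N : Type*} [Field N] [NumberField N]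

theorem nz_coe {x : 𝓞 N} : (x : N) = 0 ↔ x = 0 := by
  constructor
  · intro h
    exact RingOfIntegers.ext h
  · rintro rfl
    exact map_zero (algebraMap (𝓞 N) N)

/-- every integer is a `w`-th power times an integer free of `w`-th powers -/
theorem exists_free_int [IsPrincipalIdealRing (𝓞 N)] {w : ℕ} (hw : w ≠ 0) (y : 𝓞 N) :
    y ≠ 0 → ∃ D e : 𝓞 N, e ≠ 0 ∧ D ≠ 0 ∧ y = e ^ w * D ∧ ∀ p : 𝓞 N, Prime p → ¬ p ^ w ∣ D := by
  induction y using (IsWellFounded.wf (r := (DvdNotUnit : 𝓞 N → 𝓞 N → Prop))).induction with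
  | _ y ih =>
  intro hy
  by_cases h : ∃ p : 𝓞 N, Prime p ∧ p ^ w ∣ y
  · obtain ⟨p, hp, z, hz⟩ := h
    have hz0 : z ≠ 0 := by
      rintro rfl
      rw [mul_zero] at hz
      exact hy hz
    obtain ⟨D, e, he, hD, h1, h2⟩ := ih z ⟨hz0, p ^ w, by
      rw [isUnit_pow_iff hw]
      exact hp.not_isUnit, by rw [hz, mul_comm]⟩ hz0
    refine ⟨D, p * e, mul_ne_zero hp.ne_zero he, hD, ?_, h2⟩
    rw [hz, h1]
    ring
  · push Not at h
    exact ⟨y, 1, one_ne_zero, hy, by rw [one_pow, one_mul], h⟩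

/-- every number is a `w`-th power times an integer free of `w`-th powers -/
theorem exists_free [IsPrincipalIdealRing (𝓞 N)] {w : ℕ} (hw : w ≠ 0) {x : N} (hx : x ≠ 0) :
    ∃ (D : 𝓞 N) (e : N), e ≠ 0 ∧ D ≠ 0 ∧ x = e ^ w * (D : N) ∧
      ∀ p : 𝓞 N, Prime p → ¬ p ^ w ∣ D := by
  obtain ⟨a, b, hb, rfl⟩ := IsFractionRing.div_surjective (A := 𝓞 N) x
  have hb0 : b ≠ 0 := nonZeroDivisors.ne_zero hb
  have hb1 : algebraMap (𝓞 N) N b ≠ 0 := fun h => hb0 (nz_coe.1 h)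
  have ha0 : a ≠ 0 := by
    rintro rfl
    rw [map_zero, zero_div] at hx
    exact hx rfl
  obtain ⟨m, rfl⟩ : ∃ m, w = m + 1 := ⟨w - 1, by omega⟩
  obtain ⟨D, e, he, hD, h1, h2⟩ := exists_free_int hw (a * b ^ m) (mul_ne_zero ha0 (pow_ne_zero m hb0))
  have he1 : algebraMap (𝓞 N) N e ≠ 0 := fun h => he (nz_coe.1 h)
  refine ⟨D, algebraMap (𝓞 N) N e / algebraMap (𝓞 N) N b, div_ne_zero he1 hb1, hD, ?_, h2⟩
  have h3 := congrArg (algebraMap (𝓞 N) N) h1
  rw [map_mul, map_mul, map_pow, map_pow] at h3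
  change algebraMap (𝓞 N) N a / algebraMap (𝓞 N) N b =
    (algebraMap (𝓞 N) N e / algebraMap (𝓞 N) N b) ^ (m + 1) * algebraMap (𝓞 N) N D
  rw [div_pow, div_mul_eq_mul_div, ← h3, pow_succ]
  field_simp

theorem sqf_of_free [IsPrincipalIdealRing (𝓞 N)] {D : 𝓞 N} (hD : D ≠ 0)
    (h : ∀ p : 𝓞 N, Prime p → ¬ p ^ 2 ∣ D) : Squarefree D := by
  intro x hx
  by_contra hu
  have hx0 : x ≠ 0 := by
    rintro rfl
    rw [mul_zero, zero_dvd_iff] at hx
    exact hD hx
  obtain ⟨p, hp, hpx⟩ := WfDvdMonoid.exists_irreducible_factor hu hx0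
  refine h p hp.prime ?_
  rw [pow_two]
  exact (mul_dvd_mul hpx hpx).trans hx

theorem free_of_sqf {D : 𝓞 N} (h : Squarefree D) (p : 𝓞 N) (hp : Prime p) : ¬ p ^ 2 ∣ D := by
  intro hd
  rw [pow_two] at hd
  exact hp.not_isUnit (h p hd)

/-- a `w`-th power which relates two integers free of `w`-th powers is the one of a unit -/
theorem unit_of_free [IsPrincipalIdealRing (𝓞 N)] {w : ℕ} {D D' : 𝓞 N} {u : N} (hu : u ≠ 0)
    (hD : ∀ p : 𝓞 N, Prime p → ¬ p ^ w ∣ D) (hD' : ∀ p : 𝓞 N, Prime p → ¬ p ^ w ∣ D')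
    (h : (D' : N) = u ^ w * (D : N)) : ∃ v : 𝓞 N, IsUnit v ∧ (v : N) = u := by
  obtain ⟨a, b, hab, hmk⟩ := IsFractionRing.exists_reduced_fraction (A := 𝓞 N) u
  have hb0 : (b : 𝓞 N) ≠ 0 := nonZeroDivisors.ne_zero b.2
  have hb1 : algebraMap (𝓞 N) N (b : 𝓞 N) ≠ 0 := fun h => hb0 (nz_coe.1 h)
  have hu' : u = algebraMap (𝓞 N) N a / algebraMap (𝓞 N) N (b : 𝓞 N) := by
    rw [← hmk, IsFractionRing.mk'_eq_div]
  have ha0 : a ≠ 0 := by
    rintro rfl
    rw [hu', map_zero, zero_div] at hu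
    exact hu rfl
  have h1 : (b : 𝓞 N) ^ w * D' = a ^ w * D := by
    apply RingOfIntegers.ext
    change algebraMap (𝓞 N) N ((b : 𝓞 N) ^ w * D') = algebraMap (𝓞 N) N (a ^ w * D)
    rw [map_mul, map_mul, map_pow, map_pow]
    have h2 : algebraMap (𝓞 N) N D' = u ^ w * algebraMap (𝓞 N) N D := h
    rw [h2, hu', div_pow]
    field_simp
  have hcop : ∀ p : 𝓞 N, Prime p → p ∣ a → ¬ p ∣ (b : 𝓞 N) := fun p hp h2 h3 =>
    hp.not_isUnit (hab h2 h3)
  have hau : IsUnit a := by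
    by_contra hn
    obtain ⟨p, hp, hpa⟩ := WfDvdMonoid.exists_irreducible_factor hn ha0
    have hp' := hp.prime
    have h2 : p ^ w ∣ (b : 𝓞 N) ^ w * D' := by
      rw [h1]
      exact (pow_dvd_pow_of_dvd hpa w).mul_right D
    exact hD' p hp' (hp'.pow_dvd_of_dvd_mul_left w (fun h3 => hcop p hp' hpa
      (hp'.dvd_of_dvd_pow h3)) h2)
  have hbu : IsUnit (b : 𝓞 N) := by
    by_contra hn
    obtain ⟨p, hp, hpb⟩ := WfDvdMonoid.exists_irreducible_factor hn hb0
    have hp' := hp.prime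
    have h2 : p ^ w ∣ a ^ w * D := by
      rw [← h1]
      exact (pow_dvd_pow_of_dvd hpb w).mul_right D'
    exact hD p hp' (hp'.pow_dvd_of_dvd_mul_left w (fun h3 => hcop p hp'
      (hp'.dvd_of_dvd_pow h3) hpb) h2)
  obtain ⟨c, hc⟩ := hbu.exists_right_inv
  refine ⟨a * c, hau.mul (IsUnit.of_mul_eq_one (b : 𝓞 N) (by rw [mul_comm]; exact hc)), ?_⟩
  change algebraMap (𝓞 N) N (a * c) = u
  have hc' := congrArg (algebraMap (𝓞 N) N) hc
  rw [map_mul, map_one] at hc'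
  rw [map_mul, hu', eq_div_iff hb1]
  linear_combination algebraMap (𝓞 N) N a * hc'

end

/-! ### The three families -/

section

variable {N : Type*} [Field N] [NumberField N]

theorem ns1 : ¬ IsSquare (-1 : ℤ) := by
  rintro ⟨x, hx⟩
  nlinarith [mul_self_nonneg x]

theorem ns2 : ¬ IsSquare (-2 : ℤ) := by
  rintro ⟨x, hx⟩
  nlinarith [mul_self_nonneg x]

theorem ns3 : ¬ IsSquare (-3 : ℤ) := by
  rintro ⟨x, hx⟩
  nlinarith [mul_self_nonneg x]

theorem ns7 : ¬ IsSquare (-7 : ℤ) := by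
  rintro ⟨x, hx⟩
  nlinarith [mul_self_nonneg x]

theorem nsq_of {n m : ℤ} (h1 : m ^ 2 < n) (h2 : n < (m + 1) ^ 2) (hm : 0 ≤ m) : ¬ IsSquare n := by
  rintro ⟨x, hx⟩
  obtain ⟨y, hy, hy0⟩ : ∃ y : ℤ, n = y * y ∧ 0 ≤ y := by
    rcases le_total 0 x with h | h
    · exact ⟨x, hx, h⟩
    · exact ⟨-x, by rw [hx]; ring, by linarith⟩
  rw [hy] at h1 h2
  have h3 : m < y := by nlinarith
  have h4 : y < m + 1 := by nlinarith
  omega

theorem excl1 (hK : Module.finrank ℚ N = 2) {x y : N} (hx : x ^ 2 = -2) (hy : y ^ 2 = -1) :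
    False :=
  excl hK (a := -2) (b := -1) (by rw [hx]; push_cast; rfl) (by rw [hy]; push_cast; rfl) ns2 ns1
    (nsq_of (m := 1) (by norm_num) (by norm_num) (by norm_num))

theorem excl2 (hK : Module.finrank ℚ N = 2) {x y : N} (hx : x ^ 2 = -2) (hy : y ^ 2 = -7) :
    False :=
  excl hK (a := -2) (b := -7) (by rw [hx]; push_cast; rfl) (by rw [hy]; push_cast; rfl) ns2 ns7
    (nsq_of (m := 3) (by norm_num) (by norm_num) (by norm_num))

theorem excl3 (hK : Module.finrank ℚ N = 2) {x y : N} (hx : x ^ 2 = -7) (hy : y ^ 2 = -1) :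
    False :=
  excl hK (a := -7) (b := -1) (by rw [hx]; push_cast; rfl) (by rw [hy]; push_cast; rfl) ns7 ns1
    (nsq_of (m := 2) (by norm_num) (by norm_num) (by norm_num))

theorem excl4 (hK : Module.finrank ℚ N = 2) {x y : N} (hx : x ^ 2 = -2) (hy : y ^ 2 = -3) :
    False :=
  excl hK (a := -2) (b := -3) (by rw [hx]; push_cast; rfl) (by rw [hy]; push_cast; rfl) ns2 ns3
    (nsq_of (m := 2) (by norm_num) (by norm_num) (by norm_num))

theorem excl5 (hK : Module.finrank ℚ N = 2) {x y : N} (hx : x ^ 2 = -7) (hy : y ^ 2 = -3) :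
    False :=
  excl hK (a := -7) (b := -3) (by rw [hx]; push_cast; rfl) (by rw [hy]; push_cast; rfl) ns7 ns3
    (nsq_of (m := 4) (by norm_num) (by norm_num) (by norm_num))

theorem excl6 (hK : Module.finrank ℚ N = 2) {x y : N} (hx : x ^ 2 = -1) (hy : y ^ 2 = -3) :
    False :=
  excl hK (a := -1) (b := -3) (by rw [hx]; push_cast; rfl) (by rw [hy]; push_cast; rfl) ns1 ns3
    (nsq_of (m := 1) (by norm_num) (by norm_num) (by norm_num))

theorem th7 {θ : N} (hθ : θ ^ 2 = θ - 2) : (2 * θ - 1) ^ 2 = -7 := by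
  linear_combination 4 * hθ

/-- scaling of the equation -/
theorem crv_scale {e a b : N} (he : e ≠ 0) : ∃ C : VariableChange N,
    C • crv (e ^ 2 * a) (e ^ 4 * b) = crv a b := by
  refine ⟨_, crv_change (u := e⁻¹) (r := 0) (inv_ne_zero he) ?_ ?_ ?_⟩
  · field_simp
    ring
  · field_simp
    ring
  · ring

/-- **The curves over a quadratic field which contains a square root of `-2`.** -/
theorem end_s (hK : Module.finrank ℚ N = 2) [IsPrincipalIdealRing (𝓞 N)] {s : N}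
    (hs : s ^ 2 = -2) {W : WeierstrassCurve N} (hW : Endo2 W) :
    ∃ d : 𝓞 N, Squarefree d ∧ ∃ C : VariableChange N,
      C • W = ⟨0, 4 * (d : N), 0, 2 * (d : N) ^ 2, 0⟩ := by
  rcases (endo2_iff W).1 hW with ⟨i, b, hi, -, -⟩ | ⟨s', d, -, hd, C, hC⟩ | ⟨θ, d, hθ, -, -⟩
  · exact (excl1 hK hs hi).elim
  · obtain ⟨D, e, he, hD, h1, h2⟩ := exists_free two_ne_zero hd
    refine ⟨D, sqf_of_free hD h2, ?_⟩
    obtain ⟨C', hC'⟩ := crv_scale (a := 4 * (D : N)) (b := 2 * (D : N) ^ 2) he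
    refine ⟨C' * C, ?_⟩
    rw [mul_smul, hC, h1]
    have e1 : 4 * (e ^ 2 * (D : N)) = e ^ 2 * (4 * (D : N)) := by ring
    have e2 : 2 * (e ^ 2 * (D : N)) ^ 2 = e ^ 4 * (2 * (D : N) ^ 2) := by ring
    rw [e1, e2]
    exact hC'
  · exact (excl2 hK hs (th7 hθ)).elim

/-- **The curves over a quadratic field which contains a square root of `-7`.** -/
theorem end_t (hK : Module.finrank ℚ N = 2) [IsPrincipalIdealRing (𝓞 N)] {θ : N}
    (hθ : θ ^ 2 = θ - 2) {W : WeierstrassCurve N} (hW : Endo2 W) :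
    ∃ D : 𝓞 N, Squarefree D ∧ ∃ C : VariableChange N,
      C • W = ⟨0, (D : N) * (1 + (1 - θ) ^ 4), 0, (D : N) ^ 2 * (1 - θ) ^ 4, 0⟩ := by
  rcases (endo2_iff W).1 hW with ⟨i, b, hi, -, -⟩ | ⟨s, d, hs, -, -⟩ | ⟨θ', d, hθ', hd, C, hC⟩
  · exact (excl3 hK (th7 hθ) hi).elim
  · exact (excl2 hK hs (th7 hθ)).elim
  · -- reduction to the given root
    obtain ⟨d', hd', C', hC'⟩ : ∃ d' : N, d' ≠ 0 ∧ ∃ C' : VariableChange N,
        C' • W = crv (d' * (1 + (1 - θ) ^ 4)) (d' ^ 2 * (1 - θ) ^ 4) := by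
      have h1 : (θ' - θ) * (θ' + θ - 1) = 0 := by linear_combination hθ' - hθ
      rcases mul_eq_zero.1 h1 with h2 | h2
      · have h3 : θ' = θ := sub_eq_zero.1 h2
        rw [h3] at hC
        exact ⟨d, hd, C, hC⟩
      · have h3 : θ' = 1 - θ := by linear_combination h2
        rw [h3, sub_sub_cancel] at hC
        have h4 : θ ^ 4 = 1 - (1 - θ) ^ 4 := by
          linear_combination (2 * θ ^ 2 - 2 * θ) * hθ
        have h5 := crv_change (u := (1 : N)) (r := -d) (a := d * (1 + θ ^ 4)) (b := d ^ 2 * θ ^ 4)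
          (a' := -d * (1 + (1 - θ) ^ 4)) (b' := (-d) ^ 2 * (1 - θ) ^ 4) one_ne_zero
          (by rw [h4]; ring) (by rw [h4]; ring) (by ring)
        exact ⟨-d, neg_ne_zero.2 hd, ⟨(Units.mk0 (1 : N) one_ne_zero)⁻¹, -d, 0, 0⟩ * C, by
          rw [mul_smul, hC]
          exact h5⟩
    obtain ⟨D, e, he, hD, h1, h2⟩ := exists_free two_ne_zero hd'
    refine ⟨D, sqf_of_free hD h2, ?_⟩
    obtain ⟨C'', hC''⟩ := crv_scale (a := (D : N) * (1 + (1 - θ) ^ 4))
      (b := (D : N) ^ 2 * (1 - θ) ^ 4) he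
    refine ⟨C'' * C', ?_⟩
    rw [mul_smul, hC', h1]
    have e1 : e ^ 2 * (D : N) * (1 + (1 - θ) ^ 4) = e ^ 2 * ((D : N) * (1 + (1 - θ) ^ 4)) := by ring
    have e2 : (e ^ 2 * (D : N)) ^ 2 * (1 - θ) ^ 4 = e ^ 4 * ((D : N) ^ 2 * (1 - θ) ^ 4) := by ring
    rw [e1, e2]
    exact hC''

/-- **The curves over a quadratic field which contains a square root of `-1`.** -/
theorem end_i (hK : Module.finrank ℚ N = 2) [IsPrincipalIdealRing (𝓞 N)] {i : N}
    (hi : i ^ 2 = -1) {W : WeierstrassCurve N} (hW : Endo2 W) :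
    ∃ D : 𝓞 N, D ≠ 0 ∧ (∀ p : 𝓞 N, Prime p → ¬ p ^ 4 ∣ D) ∧ ∃ C : VariableChange N,
      C • W = ⟨0, 0, 0, -(D : N), 0⟩ := by
  rcases (endo2_iff W).1 hW with ⟨i', b, -, hb, C, hC⟩ | ⟨s, d, hs, -, -⟩ | ⟨θ, d, hθ, -, -⟩
  · obtain ⟨D, e, he, hD, h1, h2⟩ := exists_free four_ne_zero (neg_ne_zero.2 hb)
    refine ⟨D, hD, h2, ?_⟩
    obtain ⟨C', hC'⟩ := crv_scale (a := 0) (b := -(D : N)) he
    refine ⟨C' * C, ?_⟩
    have e1 : b = e ^ 4 * -(D : N) := by linear_combination -h1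
    rw [mul_smul, hC, e1]
    rw [mul_zero] at hC'
    exact hC'
  · exact (excl1 hK hs hi).elim
  · exact (excl3 hK (th7 hθ) hi).elim

/-! ### The units -/

theorem units_s (hK : Module.finrank ℚ N = 2) (hr : IsEmpty (N →+* ℝ)) {s : N} (hs : s ^ 2 = -2)
    {u : 𝓞 N} (hu : IsUnit u) : u = 1 ∨ u = -1 := by
  have hc : ∀ x y : 𝓞 N, x = y → (x : N) = (y : N) := fun x y h => by rw [h]
  rcases unit_cases hK hr hu with h | h | h | h | h
  · exact Or.inl h
  · exact Or.inr h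
  · have h1 : (u : N) ^ 2 = -1 := by
      have := congrArg (algebraMap (𝓞 N) N) h
      rw [map_pow, map_neg, map_one] at this
      exact this
    exact (excl1 hK hs h1).elim
  · have h1 : (2 * (u : N) - 1) ^ 2 = -3 := by
      have := congrArg (algebraMap (𝓞 N) N) h
      rw [map_pow, map_sub, map_one] at this
      have h2 : (u : N) ^ 2 = (u : N) - 1 := this
      linear_combination 4 * h2
    exact (excl4 hK hs h1).elim
  · have h1 : (2 * (u : N) + 1) ^ 2 = -3 := by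
      have := congrArg (algebraMap (𝓞 N) N) h
      rw [map_pow, map_sub, map_neg, map_one] at this
      have h2 : (u : N) ^ 2 = -(u : N) - 1 := this
      linear_combination 4 * h2
    exact (excl4 hK hs h1).elim

theorem units_t (hK : Module.finrank ℚ N = 2) (hr : IsEmpty (N →+* ℝ)) {θ : N}
    (hθ : θ ^ 2 = θ - 2) {u : 𝓞 N} (hu : IsUnit u) : u = 1 ∨ u = -1 := by
  have hs := th7 hθ
  rcases unit_cases hK hr hu with h | h | h | h | h
  · exact Or.inl h
  · exact Or.inr h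
  · have h1 : (u : N) ^ 2 = -1 := by
      have := congrArg (algebraMap (𝓞 N) N) h
      rw [map_pow, map_neg, map_one] at this
      exact this
    exact (excl3 hK hs h1).elim
  · have h1 : (2 * (u : N) - 1) ^ 2 = -3 := by
      have := congrArg (algebraMap (𝓞 N) N) h
      rw [map_pow, map_sub, map_one] at this
      have h2 : (u : N) ^ 2 = (u : N) - 1 := this
      linear_combination 4 * h2
    exact (excl5 hK hs h1).elim
  · have h1 : (2 * (u : N) + 1) ^ 2 = -3 := by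
      have := congrArg (algebraMap (𝓞 N) N) h
      rw [map_pow, map_sub, map_neg, map_one] at this
      have h2 : (u : N) ^ 2 = -(u : N) - 1 := this
      linear_combination 4 * h2
    exact (excl5 hK hs h1).elim

theorem units_i (hK : Module.finrank ℚ N = 2) (hr : IsEmpty (N →+* ℝ)) {i : 𝓞 N}
    (hi : i ^ 2 = -1) {u : 𝓞 N} (hu : IsUnit u) : u = 1 ∨ u = -1 ∨ u = i ∨ u = -i := by
  have hs : (i : N) ^ 2 = -1 := by
    have := congrArg (algebraMap (𝓞 N) N) hi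
    rw [map_pow, map_neg, map_one] at this
    exact this
  rcases unit_cases hK hr hu with h | h | h | h | h
  · exact Or.inl h
  · exact Or.inr (Or.inl h)
  · right; right
    exact sq_eq_sq_iff_eq_or_eq_neg.1 (h.trans hi.symm)
  · have h1 : (2 * (u : N) - 1) ^ 2 = -3 := by
      have := congrArg (algebraMap (𝓞 N) N) h
      rw [map_pow, map_sub, map_one] at this
      have h2 : (u : N) ^ 2 = (u : N) - 1 := this
      linear_combination 4 * h2
    exact (excl6 hK hs h1).elim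
  · have h1 : (2 * (u : N) + 1) ^ 2 = -3 := by
      have := congrArg (algebraMap (𝓞 N) N) h
      rw [map_pow, map_sub, map_neg, map_one] at this
      have h2 : (u : N) ^ 2 = -(u : N) - 1 := this
      linear_combination 4 * h2
    exact (excl6 hK hs h1).elim

/-- all the roots of unity are `1`, `-1` -/
theorem tor_two (h : ∀ u : 𝓞 N, IsUnit u → u = 1 ∨ u = -1) : Units.torsionOrder N = 2 := by
  have hm : (-1 : (𝓞 N)ˣ) ∈ Units.torsion N := by
    rw [Units.torsion, CommGroup.mem_torsion, isOfFinOrder_iff_pow_eq_one]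
    exact ⟨2, by norm_num, by norm_num⟩
  change Nat.card (Units.torsion N) = 2
  rw [Nat.card_eq_two_iff]
  refine ⟨1, ⟨-1, hm⟩, ?_, ?_⟩
  · intro h0
    have h1 := congrArg (fun z : Units.torsion N => ((z : (𝓞 N)ˣ) : 𝓞 N)) h0
    have h2 : (1 : 𝓞 N) = -1 := by simpa using h1
    have h3 : (2 : 𝓞 N) = 0 := by linear_combination h2
    exact two_ne_zero h3
  · ext ⟨z, hz⟩
    simp only [Set.mem_insert_iff, Set.mem_singleton_iff, Set.mem_univ, iff_true]
    rcases h (z : 𝓞 N) z.isUnit with h1 | h1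
    · left
      apply Subtype.ext
      exact Units.ext h1
    · right
      apply Subtype.ext
      exact Units.ext (by rw [h1]; simp)

/-- the roots of unity are the powers of `i` -/
theorem tor_four {i : 𝓞 N} (hi : i ^ 2 = -1)
    (h : ∀ u : 𝓞 N, IsUnit u → u = 1 ∨ u = -1 ∨ u = i ∨ u = -i) : Units.torsionOrder N = 4 := by
  obtain ⟨ι, hι⟩ : ∃ ι : (𝓞 N)ˣ, (ι : 𝓞 N) = i :=
    ⟨⟨i, -i, by linear_combination -hi, by linear_combination -hi⟩, rfl⟩
  have hι2 : ι ^ 2 = -1 := by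
    apply Units.ext
    rw [Units.val_pow_eq_pow_val, hι, hi, Units.val_neg, Units.val_one]
  have hn1 : (-1 : (𝓞 N)ˣ) ≠ 1 := by
    intro h0
    have h1 := congrArg (fun z : (𝓞 N)ˣ => (z : 𝓞 N)) h0
    have h2 : (-1 : 𝓞 N) = 1 := by simpa using h1
    have h3 : (2 : 𝓞 N) = 0 := by linear_combination -h2
    exact two_ne_zero h3
  have ho : orderOf ι = 4 := by
    have h1 := orderOf_eq_prime_pow (p := 2) (n := 1) (x := ι) (by rw [pow_one, hι2]; exact hn1) (by
      have e : ι ^ 2 ^ (1 + 1) = (ι ^ 2) ^ 2 := by rw [← pow_mul]; norm_num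
      rw [e, hι2]
      norm_num)
    rw [h1]
    norm_num
  have hmem : ∀ z : (𝓞 N)ˣ, z ∈ Units.torsion N ↔ z ∈ Subgroup.zpowers ι := by
    intro z
    constructor
    · intro _
      rcases h (z : 𝓞 N) z.isUnit with h1 | h1 | h1 | h1
      · have e : z = 1 := Units.ext h1
        rw [e]
        exact one_mem _
      · have e : z = ι ^ 2 := Units.ext (by
          rw [h1, hι2, Units.val_neg, Units.val_one])
        rw [e]
        exact pow_mem (Subgroup.mem_zpowers ι) 2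
      · have e : z = ι := Units.ext (by rw [h1, hι])
        rw [e]
        exact Subgroup.mem_zpowers ι
      · have e : z = ι ^ 2 * ι := Units.ext (by
          rw [h1, hι2, Units.val_mul, Units.val_neg, Units.val_one, hι]
          ring)
        rw [e]
        exact mul_mem (pow_mem (Subgroup.mem_zpowers ι) 2) (Subgroup.mem_zpowers ι)
    · intro hz
      have hι4 : ι ∈ Units.torsion N := by
        rw [Units.torsion, CommGroup.mem_torsion, isOfFinOrder_iff_pow_eq_one]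
        refine ⟨4, by norm_num, ?_⟩
        rw [← ho]
        exact pow_orderOf_eq_one ι
      exact (Subgroup.zpowers_le.2 hι4) hz
  have he : Units.torsion N = Subgroup.zpowers ι := Subgroup.ext hmem
  change Nat.card (Units.torsion N) = 4
  rw [he, Nat.card_zpowers, ho]

/-! ### Uniqueness -/

theorem c46 {W W' : WeierstrassCurve N} {C : VariableChange N} (h : C • W = W') :
    ∃ v : N, v ≠ 0 ∧ W'.c₄ = v ^ 4 * W.c₄ ∧ W'.c₆ = v ^ 6 * W.c₆ :=
  ⟨((C.u⁻¹ : Nˣ) : N), Units.ne_zero _, by rw [← h, variableChange_c₄],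
    by rw [← h, variableChange_c₆]⟩

/-- two twists are related by a square -/
theorem sq_of {c c' v d d' : N} (hc : c ≠ 0) (hc' : c' ≠ 0) (hv : v ≠ 0) (hd : d ≠ 0)
    (h4 : c * d' ^ 2 = v ^ 4 * (c * d ^ 2)) (h6 : c' * d' ^ 3 = v ^ 6 * (c' * d ^ 3)) :
    d' = v ^ 2 * d := by
  have h1 : d' ^ 2 = v ^ 4 * d ^ 2 := mul_left_cancel₀ hc (by linear_combination h4)
  have h2 : d' ^ 3 = v ^ 6 * d ^ 3 := mul_left_cancel₀ hc' (by linear_combination h6)
  have h3 : v ^ 4 * d ^ 2 ≠ 0 := mul_ne_zero (pow_ne_zero 4 hv) (pow_ne_zero 2 hd)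
  refine mul_left_cancel₀ h3 ?_
  linear_combination h2 - d' * h1

theorem uniq_s (hK : Module.finrank ℚ N = 2) (hr : IsEmpty (N →+* ℝ)) [IsPrincipalIdealRing (𝓞 N)]
    {s : N} (hs : s ^ 2 = -2) {d d' : 𝓞 N} (hd : Squarefree d) (hd' : Squarefree d')
    {C : VariableChange N} (h : C • (⟨0, 4 * (d : N), 0, 2 * (d : N) ^ 2, 0⟩ : WeierstrassCurve N) =
      ⟨0, 4 * (d' : N), 0, 2 * (d' : N) ^ 2, 0⟩) : d = d' := by
  obtain ⟨v, hv, h4, h6⟩ := c46 h
  simp only [WeierstrassCurve.c₄, WeierstrassCurve.c₆, WeierstrassCurve.b₂, WeierstrassCurve.b₄,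
    WeierstrassCurve.b₆] at h4 h6
  have h1 : (d' : N) = v ^ 2 * (d : N) :=
    sq_of (c := 160) (c' := -1792) (by norm_num) (by norm_num) hv (fun h => hd.ne_zero (nz_coe.1 h))
      (by linear_combination h4) (by linear_combination h6)
  obtain ⟨u, hu, hu'⟩ := unit_of_free hv (free_of_sqf hd) (free_of_sqf hd') h1
  have hu2 : u ^ 2 = 1 := by
    rcases units_s hK hr hs hu with h | h <;> rw [h] <;> ring
  apply RingOfIntegers.ext
  have hc := congrArg (algebraMap (𝓞 N) N) hu2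
  rw [map_pow, map_one] at hc
  rw [h1, ← hu']
  have e : (algebraMap (𝓞 N) N u) ^ 2 = 1 := hc
  change (d : N) = (algebraMap (𝓞 N) N u) ^ 2 * (d : N)
  rw [e, one_mul]

theorem uniq_t (hK : Module.finrank ℚ N = 2) (hr : IsEmpty (N →+* ℝ)) [IsPrincipalIdealRing (𝓞 N)]
    {θ : N} (hθ : θ ^ 2 = θ - 2) {d d' : 𝓞 N} (hd : Squarefree d) (hd' : Squarefree d')
    {C : VariableChange N} (h : C • (⟨0, (d : N) * (1 + (1 - θ) ^ 4), 0, (d : N) ^ 2 * (1 - θ) ^ 4,
      0⟩ : WeierstrassCurve N) = ⟨0, (d' : N) * (1 + (1 - θ) ^ 4), 0, (d' : N) ^ 2 * (1 - θ) ^ 4, 0⟩) :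
    d = d' := by
  have hθ1 : (1 - θ) ^ 4 = 3 * θ - 1 := by
    linear_combination (θ ^ 2 - 3 * θ + 1) * hθ
  rw [hθ1] at h
  obtain ⟨v, hv, h4, h6⟩ := c46 h
  simp only [WeierstrassCurve.c₄, WeierstrassCurve.c₆, WeierstrassCurve.b₂, WeierstrassCurve.b₄,
    WeierstrassCurve.b₆] at h4 h6
  have hne : (1 - 2 * θ) ≠ 0 := by
    intro h0
    have h1 : (7 : N) = 0 := by linear_combination (2 * θ - 1) * h0 + 4 * hθ
    exact absurd h1 (by norm_num)
  have h1 : (d' : N) = v ^ 2 * (d : N) :=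
    sq_of (c := -240) (c' := -1728 * (1 - 2 * θ)) (by norm_num) (mul_ne_zero (by norm_num) hne) hv
      (fun h => hd.ne_zero (nz_coe.1 h))
      (by linear_combination h4 + (144 * (v ^ 4 * (d : N) ^ 2 - (d' : N) ^ 2)) * hθ)
      (by linear_combination h6 + ((-1728 * θ + 864) * (v ^ 6 * (d : N) ^ 3 - (d' : N) ^ 3)) * hθ)
  obtain ⟨u, hu, hu'⟩ := unit_of_free hv (free_of_sqf hd) (free_of_sqf hd') h1
  have hu2 : u ^ 2 = 1 := by
    rcases units_t hK hr hθ hu with h | h <;> rw [h] <;> ring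
  apply RingOfIntegers.ext
  have hc := congrArg (algebraMap (𝓞 N) N) hu2
  rw [map_pow, map_one] at hc
  rw [h1, ← hu']
  have e : (algebraMap (𝓞 N) N u) ^ 2 = 1 := hc
  change (d : N) = (algebraMap (𝓞 N) N u) ^ 2 * (d : N)
  rw [e, one_mul]

theorem uniq_i (hK : Module.finrank ℚ N = 2) (hr : IsEmpty (N →+* ℝ)) [IsPrincipalIdealRing (𝓞 N)]
    {i : 𝓞 N} (hi : i ^ 2 = -1) {d d' : 𝓞 N} (hd : ∀ p : 𝓞 N, Prime p → ¬ p ^ 4 ∣ d)
    (hd' : ∀ p : 𝓞 N, Prime p → ¬ p ^ 4 ∣ d') {C : VariableChange N}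
    (h : C • (⟨0, 0, 0, -(d : N), 0⟩ : WeierstrassCurve N) = ⟨0, 0, 0, -(d' : N), 0⟩) : d = d' := by
  obtain ⟨v, hv, h4, -⟩ := c46 h
  simp only [WeierstrassCurve.c₄, WeierstrassCurve.b₂, WeierstrassCurve.b₄] at h4
  have h48 : (48 : N) ≠ 0 := by norm_num
  have h1 : (d' : N) = v ^ 4 * (d : N) := mul_left_cancel₀ h48 (by linear_combination h4)
  obtain ⟨u, hu, hu'⟩ := unit_of_free hv hd hd' h1
  have hu4 : u ^ 4 = 1 := by
    rcases units_i hK hr hi hu with h | h | h | h <;> rw [h]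
    · ring
    · ring
    · linear_combination (i ^ 2 - 1) * hi
    · linear_combination (i ^ 2 - 1) * hi
  apply RingOfIntegers.ext
  have hc := congrArg (algebraMap (𝓞 N) N) hu4
  rw [map_pow, map_one] at hc
  rw [h1, ← hu']
  have e : (algebraMap (𝓞 N) N u) ^ 4 = 1 := hc
  change (d : N) = (algebraMap (𝓞 N) N u) ^ 4 * (d : N)
  rw [e, one_mul]

end

end Pool.Agent.Lib.MP_1a91b9_ntI
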