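import Pool.Agent.Lib.MP_1a91b9_ntI.Defs
import Pool.Agent.Lib.MP_1a91b9_ntI.EndI
import Pool.Agent.Lib.MP_1a91b9_nuI.Defs

/-!
# The families of curves

`AL K w a b`: the curves `cW K w a b D`, with `D` free of `w`-th powers, are, each exactly once, the
elliptic curves over `K` with an endomorphism of degree two. `al_i`, `al_s`, `al_t`: the three fields.
-/

set_option autoImplicit false
set_option linter.unusedSectionVars false

namespace Pool.Agent.Lib.MP_1a91b9_ntI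

open NumberField WeierstrassCurve
open Pool.Agent.Lib.MP_1a91b9_ntL (Endo2 crv endo2_iff)
open Pool.Agent.Lib.MP_1a91b9_nuI (HasJ)

noncomputable section

variable {K : Type} [Field K] [NumberField K]

/-- The family is the family of all curves. -/
def AL (K : Type) [Field K] [NumberField K] (w : ℕ) (a b : 𝓞 K) : Prop :=
  w = Units.torsionOrder K ∧ (w = 2 ∨ w = 4) ∧
  (∀ W : WeierstrassCurve K, Endo2 W ↔ ∃ D : 𝓞 K, Fr K w D ∧ ∃ C : VariableChange K,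
    C • W = cW K w a b D) ∧
  (∀ (D D' : 𝓞 K) (C : VariableChange K), Fr K w D → Fr K w D' →
    C • cW K w a b D = cW K w a b D' → D = D') ∧
  ∃ j : ℤ, ∀ D : 𝓞 K, Fr K w D → HasJ (cW K w a b D) j ∧ (cW K w a b D).Δ ≠ 0

/-- there is a prime of the ring of integers -/
theorem exists_prime [IsPrincipalIdealRing (𝓞 K)] (hK : Module.finrank ℚ K = 2) :
    ∃ p : 𝓞 K, Prime p := by
  have h2 : ¬ IsUnit (2 : 𝓞 K) := by
    intro h
    have h1 := h.map (Algebra.norm ℤ)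
    have h3 := norm_int hK 2
    push_cast at h3
    rw [h3] at h1
    have h4 := Int.isUnit_iff.1 h1
    norm_num at h4
  obtain ⟨p, hp, -⟩ := WfDvdMonoid.exists_irreducible_factor h2 two_ne_zero
  exact ⟨p, hp.prime⟩

theorem Fr_ne_zero [IsPrincipalIdealRing (𝓞 K)] (hK : Module.finrank ℚ K = 2) {w : ℕ} {D : 𝓞 K}
    (h : Fr K w D) : D ≠ 0 := by
  rintro rfl
  obtain ⟨p, hp⟩ := exists_prime hK
  exact h p hp (dvd_zero _)

theorem Fr_two [IsPrincipalIdealRing (𝓞 K)] (hK : Module.finrank ℚ K = 2) {D : 𝓞 K} :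
    Fr K 2 D ↔ Squarefree D :=
  ⟨fun h => sqf_of_free (Fr_ne_zero hK h) h, fun h p hp => free_of_sqf h p hp⟩

theorem Fr_four [IsPrincipalIdealRing (𝓞 K)] (hK : Module.finrank ℚ K = 2) {D : 𝓞 K} :
    Fr K 4 D ↔ ∀ z : 𝓞 K, z ^ 4 ∣ D → IsUnit z := by
  constructor
  · intro h z hz
    by_contra hu
    have hz0 : z ≠ 0 := by
      rintro rfl
      rw [zero_pow four_ne_zero, zero_dvd_iff] at hz
      exact Fr_ne_zero hK h hz
    obtain ⟨p, hp, hpz⟩ := WfDvdMonoid.exists_irreducible_factor hu hz0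
    exact h p hp.prime ((pow_dvd_pow_of_dvd hpz 4).trans hz)
  · intro h p hp hd
    exact hp.not_isUnit (h p hd)

theorem cW_four (a b D : 𝓞 K) : cW K 4 a b D = ⟨0, (a : K) * (D : K), 0, (b : K) * (D : K), 0⟩ := by
  unfold cW
  ext
  · rfl
  · change algebraMap (𝓞 K) K (a * D) = _
    rw [map_mul]
  · rfl
  · change algebraMap (𝓞 K) K (b * D ^ (4 / 4)) = _
    rw [map_mul, map_pow]
    norm_num
  · rfl

theorem cW_two (a b D : 𝓞 K) :
    cW K 2 a b D = ⟨0, (a : K) * (D : K), 0, (b : K) * (D : K) ^ 2, 0⟩ := by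
  unfold cW
  ext
  · rfl
  · change algebraMap (𝓞 K) K (a * D) = _
    rw [map_mul]
  · rfl
  · change algebraMap (𝓞 K) K (b * D ^ (4 / 2)) = _
    rw [map_mul, map_pow]
  · rfl

theorem cW_i (D : 𝓞 K) : cW K 4 0 (-1) D = ⟨0, 0, 0, -(D : K), 0⟩ := by
  rw [cW_four]
  have e0 : ((0 : 𝓞 K) : K) = 0 := map_zero (algebraMap (𝓞 K) K)
  have e1 : ((-1 : 𝓞 K) : K) = -1 := by
    change algebraMap (𝓞 K) K (-1) = -1
    rw [map_neg, map_one]
  rw [e0, e1]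
  ext <;> simp

theorem cW_s (D : 𝓞 K) : cW K 2 4 2 D = ⟨0, 4 * (D : K), 0, 2 * (D : K) ^ 2, 0⟩ := by
  rw [cW_two]
  have e0 : ((4 : 𝓞 K) : K) = 4 := map_ofNat (algebraMap (𝓞 K) K) 4
  have e1 : ((2 : 𝓞 K) : K) = 2 := map_ofNat (algebraMap (𝓞 K) K) 2
  rw [e0, e1]

theorem cW_t (θ D : 𝓞 K) : cW K 2 (1 + (1 - θ) ^ 4) ((1 - θ) ^ 4) D =
    ⟨0, (D : K) * (1 + (1 - (θ : K)) ^ 4), 0, (D : K) ^ 2 * (1 - (θ : K)) ^ 4, 0⟩ := by
  rw [cW_two]
  have e0 : ((1 + (1 - θ) ^ 4 : 𝓞 K) : K) = 1 + (1 - (θ : K)) ^ 4 := by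
    change algebraMap (𝓞 K) K (1 + (1 - θ) ^ 4) = _
    rw [map_add, map_pow, map_sub, map_one]
  have e1 : (((1 - θ) ^ 4 : 𝓞 K) : K) = (1 - (θ : K)) ^ 4 := by
    change algebraMap (𝓞 K) K ((1 - θ) ^ 4) = _
    rw [map_pow, map_sub, map_one]
  rw [e0, e1, mul_comm (1 + (1 - (θ : K)) ^ 4), mul_comm ((1 - (θ : K)) ^ 4)]

/-- **The family over the field of a square root of `-1`.** -/
theorem al_i [IsPrincipalIdealRing (𝓞 K)] (hK : Module.finrank ℚ K = 2)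
    (hr : IsEmpty (K →+* ℝ)) {i : 𝓞 K} (hi : i ^ 2 = -1) : AL K 4 0 (-1) := by
  have hi' : (i : K) ^ 2 = -1 := by
    have := congrArg (algebraMap (𝓞 K) K) hi
    rw [map_pow, map_neg, map_one] at this
    exact this
  refine ⟨(tor_four hi fun u hu => units_i hK hr hi hu).symm, Or.inr rfl, fun W => ⟨fun h => ?_, ?_⟩,
    fun D D' C hD hD' h => ?_, 1728, fun D hD => ⟨?_, ?_⟩⟩
  · obtain ⟨D, -, h1, C, hC⟩ := end_i hK hi' h
    exact ⟨D, h1, C, by rw [hC, cW_i]⟩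
  · rintro ⟨D, hD, C, hC⟩
    rw [endo2_iff]
    left
    refine ⟨i, -(D : K), hi', neg_ne_zero.2 fun h => Fr_ne_zero hK hD (nz_coe.1 h), C, ?_⟩
    rw [hC, cW_i]
    rfl
  · rw [cW_i, cW_i] at h
    exact uniq_i hK hr hi hD hD' h
  · rw [cW_i]
    simp only [HasJ, WeierstrassCurve.c₄, WeierstrassCurve.Δ, WeierstrassCurve.b₂,
      WeierstrassCurve.b₄, WeierstrassCurve.b₆, WeierstrassCurve.b₈]
    push_cast
    ring
  · rw [cW_i]
    have hD0 : (D : K) ≠ 0 := fun h => Fr_ne_zero hK hD (nz_coe.1 h)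
    have e : (⟨0, 0, 0, -(D : K), 0⟩ : WeierstrassCurve K).Δ = 64 * (D : K) ^ 3 := by
      simp only [WeierstrassCurve.Δ, WeierstrassCurve.b₂,
        WeierstrassCurve.b₄, WeierstrassCurve.b₆, WeierstrassCurve.b₈]
      ring
    rw [e]
    exact mul_ne_zero (by norm_num) (pow_ne_zero 3 hD0)

/-- **The family over the field of a square root of `-2`.** -/
theorem al_s [IsPrincipalIdealRing (𝓞 K)] (hK : Module.finrank ℚ K = 2)
    (hr : IsEmpty (K →+* ℝ)) {s : 𝓞 K} (hs : s ^ 2 = -2) : AL K 2 4 2 := by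
  have hs' : (s : K) ^ 2 = -2 := by
    have := congrArg (algebraMap (𝓞 K) K) hs
    rw [map_pow, map_neg, map_ofNat] at this
    exact this
  refine ⟨(tor_two fun u hu => units_s hK hr hs' hu).symm, Or.inl rfl, fun W => ⟨fun h => ?_, ?_⟩,
    fun D D' C hD hD' h => ?_, 8000, fun D hD => ⟨?_, ?_⟩⟩
  · obtain ⟨D, h1, C, hC⟩ := end_s hK hs' h
    exact ⟨D, (Fr_two hK).2 h1, C, by rw [hC, cW_s]⟩
  · rintro ⟨D, hD, C, hC⟩
    rw [endo2_iff]
    right; left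
    refine ⟨s, D, hs', fun h => Fr_ne_zero hK hD (nz_coe.1 h), C, ?_⟩
    rw [hC, cW_s]
    rfl
  · rw [cW_s, cW_s] at h
    exact uniq_s hK hr hs' ((Fr_two hK).1 hD) ((Fr_two hK).1 hD') h
  · rw [cW_s]
    simp only [HasJ, WeierstrassCurve.c₄, WeierstrassCurve.Δ, WeierstrassCurve.b₂,
      WeierstrassCurve.b₄, WeierstrassCurve.b₆, WeierstrassCurve.b₈]
    push_cast
    ring
  · rw [cW_s]
    have hD0 : (D : K) ≠ 0 := fun h => Fr_ne_zero hK hD (nz_coe.1 h)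
    have e : (⟨0, 4 * (D : K), 0, 2 * (D : K) ^ 2, 0⟩ : WeierstrassCurve K).Δ =
        512 * (D : K) ^ 6 := by
      simp only [WeierstrassCurve.Δ, WeierstrassCurve.b₂,
        WeierstrassCurve.b₄, WeierstrassCurve.b₆, WeierstrassCurve.b₈]
      ring
    rw [e]
    exact mul_ne_zero (by norm_num) (pow_ne_zero 6 hD0)

/-- **The family over the field of a square root of `-7`.** -/
theorem al_t [IsPrincipalIdealRing (𝓞 K)] (hK : Module.finrank ℚ K = 2)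
    (hr : IsEmpty (K →+* ℝ)) {θ : 𝓞 K} (hθ : θ ^ 2 = θ - 2) :
    AL K 2 (1 + (1 - θ) ^ 4) ((1 - θ) ^ 4) := by
  have hθ' : (θ : K) ^ 2 = (θ : K) - 2 := by
    have := congrArg (algebraMap (𝓞 K) K) hθ
    rw [map_pow, map_sub, map_ofNat] at this
    exact this
  refine ⟨(tor_two fun u hu => units_t hK hr hθ' hu).symm, Or.inl rfl, fun W => ⟨fun h => ?_, ?_⟩,
    fun D D' C hD hD' h => ?_, -3375, fun D hD => ⟨?_, ?_⟩⟩
  · obtain ⟨D, h1, C, hC⟩ := end_t hK hθ' h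
    exact ⟨D, (Fr_two hK).2 h1, C, by rw [hC, cW_t]⟩
  · rintro ⟨D, hD, C, hC⟩
    rw [endo2_iff]
    right; right
    refine ⟨θ, D, hθ', fun h => Fr_ne_zero hK hD (nz_coe.1 h), C, ?_⟩
    rw [hC, cW_t]
    rfl
  · rw [cW_t, cW_t] at h
    exact uniq_t hK hr hθ' ((Fr_two hK).1 hD) ((Fr_two hK).1 hD') h
  · rw [cW_t]
    have hθ1 : (1 - (θ : K)) ^ 4 = 3 * (θ : K) - 1 := by
      linear_combination ((θ : K) ^ 2 - 3 * (θ : K) + 1) * hθ'
    rw [hθ1]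
    simp only [HasJ, WeierstrassCurve.c₄, WeierstrassCurve.Δ, WeierstrassCurve.b₂,
      WeierstrassCurve.b₄, WeierstrassCurve.b₆, WeierstrassCurve.b₈]
    obtain ⟨t, ht⟩ : ∃ t, t = (θ : K) := ⟨_, rfl⟩
    obtain ⟨d, hd⟩ : ∃ d, d = (D : K) := ⟨_, rfl⟩
    rw [← ht] at hθ'
    rw [← ht, ← hd]
    have h3 : t ^ 3 = -t - 2 := by linear_combination (t + 1) * hθ'
    have h4 : t ^ 4 = -3 * t + 2 := by linear_combination (t ^ 2 + t - 1) * hθ'
    have h5 : t ^ 5 = -t + 6 := by linear_combination (t ^ 3 + t ^ 2 - t - 3) * hθ'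
    have h6 : t ^ 6 = 5 * t + 2 := by linear_combination (t ^ 4 + t ^ 3 - t ^ 2 - 3 * t - 1) * hθ'
    push_cast
    ring_nf
    rw [h6, h5, h4, h3, hθ']
    ring
  · rw [cW_t]
    have hD0 : (D : K) ≠ 0 := fun h => Fr_ne_zero hK hD (nz_coe.1 h)
    have hθ1 : (1 - (θ : K)) ^ 4 = 3 * (θ : K) - 1 := by
      linear_combination ((θ : K) ^ 2 - 3 * (θ : K) + 1) * hθ'
    rw [hθ1]
    have e : (⟨0, (D : K) * (1 + (3 * (θ : K) - 1)), 0, (D : K) ^ 2 * (3 * (θ : K) - 1), 0⟩ :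
        WeierstrassCurve K).Δ = 16 * (D : K) ^ 6 * ((3 * (θ : K) - 1) * (2 - 3 * (θ : K))) ^ 2 := by
      simp only [WeierstrassCurve.Δ, WeierstrassCurve.b₂,
        WeierstrassCurve.b₄, WeierstrassCurve.b₆, WeierstrassCurve.b₈]
      ring
    have h16 : (3 * (θ : K) - 1) * (2 - 3 * (θ : K)) = 16 := by
      linear_combination -9 * hθ'
    rw [e, h16]
    exact mul_ne_zero (mul_ne_zero (by norm_num) (pow_ne_zero 6 hD0)) (by norm_num)

end

end Pool.Agent.Lib.MP_1a91b9_ntI
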