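import Pool.Agent.Lib.MP_1a91b9_ntI.Cls

/-!
# The elliptic curves over the field of the cube roots of unity with a rational point of order two

`Two W`: `W` is an elliptic curve with a rational point of order two. `AutN W`: `W` has an automorphism
over `K` other than `1`, `-1`. `al_w`: over the field of a root of `θ² = θ - 1` the curves with both
properties are `y² = x³ - 3 D x² + 3 D² x` (that is `y² = x³ + D³`), `D` squarefree, and `D` is unique up
to the squares of the units. `two_autN`: the general case.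
-/

set_option autoImplicit false
set_option linter.unusedSectionVars false

namespace Pool.Agent.Lib.MP_1a91b9_ntI

open NumberField WeierstrassCurve
open Pool.Agent.Lib.MP_1a91b9_ntL (Endo2 crv crv_iso crv_change endo2_iff)
open Pool.Agent.Lib.MP_1a91b9_nuI (HasJ)

section

variable {K : Type*} [Field K]

/-- `W` is an elliptic curve with a rational point of order two. -/
def Two (W : WeierstrassCurve K) : Prop :=
  ∃ a b : K, b ≠ 0 ∧ a ^ 2 - 4 * b ≠ 0 ∧ ∃ C : VariableChange K, C • W = crv a b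

/-- `W` has an automorphism over `K` other than `1`, `-1`. -/
def AutN (W : WeierstrassCurve K) : Prop :=
  ∃ C : VariableChange K, C • W = W ∧ (C.u : K) ^ 2 ≠ 1

/-- the automorphism of `y² = x³ + b x` -/
theorem autN_crv_i {i b : K} (h2 : (2 : K) ≠ 0) (hi : i ^ 2 = -1) : AutN (crv 0 b) := by
  have h1 : i * -i = 1 := by linear_combination -hi
  have h1' : -i * i = 1 := by linear_combination -hi
  refine ⟨⟨⟨i, -i, h1, h1'⟩, 0, 0, 0⟩, ?_, ?_⟩
  · have hui : ((((⟨⟨i, -i, h1, h1'⟩, 0, 0, 0⟩ : VariableChange K).u)⁻¹ : Kˣ) : K) = -i := rfl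
    ext
    · rw [variableChange_a₁, hui]
      simp only [crv]
      ring
    · rw [variableChange_a₂, hui]
      simp only [crv]
      ring
    · rw [variableChange_a₃, hui]
      simp only [crv]
      ring
    · rw [variableChange_a₄, hui]
      simp only [crv]
      linear_combination b * (i ^ 2 - 1) * hi
    · rw [variableChange_a₆, hui]
      simp only [crv]
      ring
  · intro h
    have h3 : i ^ 2 = 1 := h
    rw [hi] at h3
    apply h2
    linear_combination -h3

/-- the automorphism of order three of `y² = x³ - 3 d x² + 3 d² x` -/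
theorem autN_crv_w {w d : K} (h3 : (3 : K) ≠ 0) (hw : w ^ 2 + w + 1 = 0) :
    AutN (crv (-3 * d) (3 * d ^ 2)) := by
  have hw3 : w * w ^ 2 = 1 := by linear_combination (w - 1) * hw
  have hw3' : w ^ 2 * w = 1 := by linear_combination (w - 1) * hw
  refine ⟨⟨⟨w ^ 2, w, hw3', hw3⟩, d * (1 - w), 0, 0⟩, ?_, fun h => ?_⟩
  · have hui : ((((⟨⟨w ^ 2, w, hw3', hw3⟩, d * (1 - w), 0, 0⟩ : VariableChange K).u)⁻¹ : Kˣ) : K) =
        w := rfl
    have w3 : w ^ 3 = 1 := by linear_combination (w - 1) * hw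
    ext
    · rw [variableChange_a₁, hui]
      simp only [crv]
      ring
    · rw [variableChange_a₂, hui]
      simp only [crv]
      linear_combination -3 * d * w3
    · rw [variableChange_a₃, hui]
      simp only [crv]
      ring
    · rw [variableChange_a₄, hui]
      simp only [crv]
      linear_combination 3 * d ^ 2 * (w ^ 3 + 1) * w3
    · rw [variableChange_a₆, hui]
      simp only [crv]
      linear_combination w ^ 6 * d ^ 3 * (1 - w) * hw
  · have h4 : (w ^ 2) ^ 2 = 1 := h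
    have h5 : w = 1 := by linear_combination h4 - (w ^ 2 - w) * hw
    rw [h5] at hw
    apply h3
    linear_combination hw

theorem autN_smul {W : WeierstrassCurve K} (C : VariableChange K) (h : AutN (C • W)) : AutN W := by
  obtain ⟨C', h1, h2⟩ := h
  refine ⟨C⁻¹ * C' * C, ?_, ?_⟩
  · rw [mul_smul, mul_smul, h1, inv_smul_smul]
  · intro h
    apply h2
    have e : (C⁻¹ * C' * C).u = C.u⁻¹ * C'.u * C.u := rfl
    rw [e] at h
    have e1 : C.u⁻¹ * C'.u * C.u = C'.u := by
      rw [mul_comm C.u⁻¹, mul_assoc, inv_mul_cancel, mul_one]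
    rw [e1] at h
    exact h

theorem autN_u {W : WeierstrassCurve K} (h : AutN W) : ∃ v : K, v ≠ 0 ∧ v ^ 2 ≠ 1 ∧
    v ^ 4 * W.c₄ = W.c₄ ∧ v ^ 6 * W.c₆ = W.c₆ := by
  obtain ⟨C, hC, hu⟩ := h
  have h1 := variableChange_c₄ W C
  have h2 := variableChange_c₆ W C
  rw [hC] at h1 h2
  have h3 : (C.u : K) * ((C.u⁻¹ : Kˣ) : K) = 1 := Units.mul_inv C.u
  refine ⟨((C.u⁻¹ : Kˣ) : K), Units.ne_zero _, fun h => hu ?_, h1.symm, h2.symm⟩
  calc (C.u : K) ^ 2 = (C.u : K) ^ 2 * ((C.u⁻¹ : Kˣ) : K) ^ 2 := by rw [h, mul_one]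
    _ = ((C.u : K) * ((C.u⁻¹ : Kˣ) : K)) ^ 2 := by rw [mul_pow]
    _ = 1 := by rw [h3, one_pow]

theorem four_ne (h2 : (2 : K) ≠ 0) : (4 : K) ≠ 0 := by
  have : (4 : K) = 2 ^ 2 := by norm_num
  rw [this]
  exact pow_ne_zero 2 h2

/-- **The curves with a point of order two and an automorphism other than `1`, `-1`.** -/
theorem two_autN (h2 : (2 : K) ≠ 0) (h3 : (3 : K) ≠ 0) (W : WeierstrassCurve K) :
    Two W ∧ AutN W ↔
      (∃ i b : K, i ^ 2 = -1 ∧ b ≠ 0 ∧ ∃ C : VariableChange K, C • W = crv 0 b) ∨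
      (∃ w d : K, w ^ 2 + w + 1 = 0 ∧ d ≠ 0 ∧ ∃ C : VariableChange K,
        C • W = crv (-3 * d) (3 * d ^ 2)) := by
  have h4 := four_ne h2
  constructor
  · rintro ⟨⟨a, b, hb, hd, C, hC⟩, hA⟩
    have hA' : AutN (crv a b) := by
      rw [← hC]
      apply autN_smul C⁻¹
      rw [inv_smul_smul]
      exact hA
    obtain ⟨v, hv, hv2, hc4, hc6⟩ := autN_u hA'
    have e4 : (crv a b).c₄ = 16 * (a ^ 2 - 3 * b) := by
      simp only [crv, WeierstrassCurve.c₄, WeierstrassCurve.b₂, WeierstrassCurve.b₄]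
      ring
    have e6 : (crv a b).c₆ = 32 * a * (9 * b - 2 * a ^ 2) := by
      simp only [crv, WeierstrassCurve.c₆, WeierstrassCurve.b₂, WeierstrassCurve.b₄,
        WeierstrassCurve.b₆]
      ring
    rw [e4] at hc4
    rw [e6] at hc6
    have h16 : (16 : K) ≠ 0 := by
      have : (16 : K) = 4 ^ 2 := by norm_num
      rw [this]
      exact pow_ne_zero 2 h4
    have h32 : (32 : K) ≠ 0 := by
      have : (32 : K) = 2 ^ 5 := by norm_num
      rw [this]
      exact pow_ne_zero 5 h2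
    by_cases h0 : a ^ 2 - 3 * b = 0
    · right
      have hb' : b = a ^ 2 / 3 := by
        field_simp
        linear_combination -h0
      have ha : a ≠ 0 := by
        rintro rfl
        apply hb
        rw [hb']
        ring
      have h6 : 9 * b - 2 * a ^ 2 ≠ 0 := by
        intro h
        have h7 : a ^ 2 = 0 := by linear_combination h + 3 * h0
        exact ha (pow_eq_zero_iff two_ne_zero |>.1 h7)
      have hv6 : v ^ 6 = 1 := by
        have hne : 32 * a * (9 * b - 2 * a ^ 2) ≠ 0 := mul_ne_zero (mul_ne_zero h32 ha) h6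
        exact mul_right_cancel₀ hne (by rw [hc6, one_mul])
      refine ⟨v ^ 2, -a / 3, ?_, ?_, C, ?_⟩
      · have h7 : (v ^ 2 - 1) * ((v ^ 2) ^ 2 + v ^ 2 + 1) = 0 := by linear_combination hv6
        exact (mul_eq_zero.1 h7).resolve_left (sub_ne_zero.2 hv2)
      · exact div_ne_zero (neg_ne_zero.2 ha) h3
      · rw [hC, hb']
        have e1 : a = -3 * (-a / 3) := by field_simp
        have e2 : a ^ 2 / 3 = 3 * (-a / 3) ^ 2 := by field_simp
        rw [← e1, ← e2]
    · left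
      have hv4 : v ^ 4 = 1 := by
        exact mul_right_cancel₀ (mul_ne_zero h16 h0) (by rw [hc4, one_mul])
      have hv2' : v ^ 2 = -1 := by
        have h7 : (v ^ 2 - 1) * (v ^ 2 + 1) = 0 := by linear_combination hv4
        have h8 := (mul_eq_zero.1 h7).resolve_left (sub_ne_zero.2 hv2)
        linear_combination h8
      have hv6 : v ^ 6 = -1 := by
        have : v ^ 6 = (v ^ 2) ^ 3 := by ring
        rw [this, hv2']
        ring
      have h7 : a * (9 * b - 2 * a ^ 2) = 0 := by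
        rw [hv6] at hc6
        have h8 : (2 * 32) * (a * (9 * b - 2 * a ^ 2)) = 0 := by linear_combination -hc6
        exact (mul_eq_zero.1 h8).resolve_left (mul_ne_zero h2 h32)
      rcases mul_eq_zero.1 h7 with h8 | h8
      · refine ⟨v, b, hv2', hb, C, ?_⟩
        rw [hC, h8]
      · have ha : a ≠ 0 := by
          rintro rfl
          have h9 : (3 * 3) * b = 0 := by linear_combination h8
          rcases mul_eq_zero.1 h9 with h10 | h10
          · exact (mul_ne_zero h3 h3) h10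
          · exact hb h10
        have hb' : b = 2 * a ^ 2 / 9 := by
          have h9 : (9 : K) ≠ 0 := by
            have : (9 : K) = 3 * 3 := by norm_num
            rw [this]
            exact mul_ne_zero h3 h3
          field_simp
          linear_combination h8
        have h9 : (9 : K) ≠ 0 := by
          have : (9 : K) = 3 * 3 := by norm_num
          rw [this]
          exact mul_ne_zero h3 h3
        have h5 := crv_change (u := (1 : K)) (r := -a / 3) (a := a) (b := b) (a' := 0)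
          (b' := -(a ^ 2 / 9)) one_ne_zero (by field_simp; ring)
          (by rw [hb']; field_simp; ring) (by rw [hb']; field_simp; ring)
        refine ⟨v, -(a ^ 2 / 9), hv2', neg_ne_zero.2 (div_ne_zero (pow_ne_zero 2 ha) h9),
          (⟨(Units.mk0 (1 : K) one_ne_zero)⁻¹, -a / 3, 0, 0⟩ : VariableChange K) * C, ?_⟩
        rw [mul_smul, hC]
        exact h5
  · rintro (⟨i, b, hi, hb, C, hC⟩ | ⟨w, d, hw, hd, C, hC⟩)
    · refine ⟨⟨0, b, hb, ?_, C, hC⟩, autN_smul C ?_⟩
      · have e : (0 : K) ^ 2 - 4 * b = -(4 * b) := by ring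
        rw [e]
        exact neg_ne_zero.2 (mul_ne_zero h4 hb)
      · rw [hC]
        exact autN_crv_i h2 hi
    · refine ⟨⟨-3 * d, 3 * d ^ 2, mul_ne_zero h3 (pow_ne_zero 2 hd), ?_, C, hC⟩, autN_smul C ?_⟩
      · have e : (-3 * d) ^ 2 - 4 * (3 * d ^ 2) = -(3 * d ^ 2) := by ring
        rw [e]
        exact neg_ne_zero.2 (mul_ne_zero h3 (pow_ne_zero 2 hd))
      · rw [hC]
        exact autN_crv_w h3 hw

/-- **The curves with a point of order two.** -/
theorem two_iff_point [DecidableEq K] (h2 : (2 : K) ≠ 0) (W : WeierstrassCurve K) :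
    Two W ↔ W.Δ ≠ 0 ∧ ∃ P : W.toAffine.Point, P ≠ 0 ∧ 2 • P = 0 := by
  have h4 := four_ne h2
  have h16 : (16 : K) ≠ 0 := by
    have : (16 : K) = 4 ^ 2 := by norm_num
    rw [this]
    exact pow_ne_zero 2 h4
  have hdl : ∀ a b : K, (crv a b).Δ = 16 * (b ^ 2 * (a ^ 2 - 4 * b)) := by
    intro a b
    simp only [crv, WeierstrassCurve.Δ, WeierstrassCurve.b₂, WeierstrassCurve.b₄,
      WeierstrassCurve.b₆, WeierstrassCurve.b₈]
    ring
  constructor
  · rintro ⟨a, b, hb, hd, C, hC⟩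
    have e0 := variableChange_Δ W C
    rw [hC, hdl] at e0
    have hΔ : W.Δ ≠ 0 := by
      intro h
      rw [h, mul_zero] at e0
      exact (mul_ne_zero h16 (mul_ne_zero (pow_ne_zero 2 hb) hd)) e0
    refine ⟨hΔ, ?_⟩
    have e3 := congrArg WeierstrassCurve.a₃ hC
    have e6 := congrArg WeierstrassCurve.a₆ hC
    rw [variableChange_a₃] at e3
    rw [variableChange_a₆] at e6
    have hu : ((C.u⁻¹ : Kˣ) : K) ≠ 0 := Units.ne_zero _
    have e3' : W.a₃ + C.r * W.a₁ + 2 * C.t = 0 :=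
      (mul_eq_zero.1 (e3.trans (by rfl))).resolve_left (pow_ne_zero 3 hu)
    have e6' : W.a₆ + C.r * W.a₄ + C.r ^ 2 * W.a₂ + C.r ^ 3 - C.t * W.a₃ - C.t ^ 2 -
        C.r * C.t * W.a₁ = 0 :=
      (mul_eq_zero.1 (e6.trans (by rfl))).resolve_left (pow_ne_zero 6 hu)
    have heq : W.toAffine.Equation C.r C.t := by
      rw [Affine.equation_iff]
      linear_combination -e6'
    have hns : W.toAffine.Nonsingular C.r C.t := by
      exact (Affine.equation_iff_nonsingular_of_Δ_ne_zero hΔ).1 heq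
    refine ⟨Affine.Point.some _ _ hns, fun h => Affine.Point.some_ne_zero _ h, ?_⟩
    rw [two_nsmul, add_eq_zero_iff_eq_neg, Affine.Point.neg_some]
    rw [Affine.Point.some.injEq]
    refine ⟨rfl, ?_⟩
    rw [Affine.negY]
    linear_combination e3'
  · rintro ⟨hΔ, P, hP, hP2⟩
    rcases P with _ | ⟨x, y, hns⟩
    · exact (hP rfl).elim
    · rw [two_nsmul, add_eq_zero_iff_eq_neg, Affine.Point.neg_some, Affine.Point.some.injEq] at hP2
      obtain ⟨-, hy⟩ := hP2
      rw [Affine.negY] at hy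
      have heq := (Affine.equation_iff _ _).1 hns.1
      obtain ⟨C, hC⟩ : ∃ C : VariableChange K, C = ⟨1, x, -W.a₁ / 2, y⟩ := ⟨_, rfl⟩
      have hui : ((C.u⁻¹ : Kˣ) : K) = 1 := by rw [hC, inv_one, Units.val_one]
      have hcr : C • W = crv (C • W).a₂ (C • W).a₄ := by
        have e1 : (C • W).a₁ = 0 := by
          rw [variableChange_a₁, hui, hC]
          field_simp
          ring
        have e3 : (C • W).a₃ = 0 := by
          rw [variableChange_a₃, hui, hC]
          change 1 ^ 3 * (W.a₃ + x * W.a₁ + 2 * y) = 0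
          linear_combination hy
        have e6 : (C • W).a₆ = 0 := by
          rw [variableChange_a₆, hui, hC]
          change 1 ^ 6 * (W.a₆ + x * W.a₄ + x ^ 2 * W.a₂ + x ^ 3 - y * W.a₃ - y ^ 2 -
            x * y * W.a₁) = 0
          linear_combination -heq
        ext
        · exact e1
        · rfl
        · exact e3
        · rfl
        · exact e6
      have e0 := variableChange_Δ W C
      rw [hcr, hdl, hui] at e0
      have hne : (C • W).a₄ ^ 2 * ((C • W).a₂ ^ 2 - 4 * (C • W).a₄) ≠ 0 := by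
        intro h
        rw [h, mul_zero, one_pow, one_mul] at e0
        exact hΔ e0.symm
      exact ⟨_, _, fun h => hne (by rw [h]; ring), fun h => hne (by rw [h]; ring), C, hcr⟩

end

noncomputable section

variable {K : Type} [Field K] [NumberField K]

/-- a curve with a point of order two and an automorphism other than `1`, `-1`, over a field with a square
root of `-1`, has an endomorphism of degree two -/
theorem endo2_of_two (W : WeierstrassCurve K) (h : Two W ∧ AutN W) (hw : ∀ w : K, w ^ 2 + w + 1 ≠ 0) :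
    Endo2 W := by
  rcases (two_autN two_ne_zero three_ne_zero W).1 h with ⟨i, b, hi, hb, C, hC⟩ | ⟨w, d, hw', -⟩
  · exact (endo2_iff W).2 (Or.inl ⟨i, b, hi, hb, C, hC⟩)
  · exact (hw w hw').elim

theorem th3 {θ : K} (hθ : θ ^ 2 = θ - 1) : (2 * θ - 1) ^ 2 = -3 := by
  linear_combination 4 * hθ

theorem units_w (hK : Module.finrank ℚ K = 2) (hr : IsEmpty (K →+* ℝ)) {θ : 𝓞 K}
    (hθ : θ ^ 2 = θ - 1) {u : 𝓞 K} (hu : IsUnit u) :
    u = 1 ∨ u = -1 ∨ u = θ ∨ u = -θ ∨ u = 1 - θ ∨ u = θ - 1 := by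
  have hs : (2 * (θ : K) - 1) ^ 2 = -3 := by
    have := congrArg (algebraMap (𝓞 K) K) hθ
    rw [map_pow, map_sub, map_one] at this
    exact th3 this
  rcases unit_cases hK hr hu with h | h | h | h | h
  · exact Or.inl h
  · exact Or.inr (Or.inl h)
  · have h1 : (u : K) ^ 2 = -1 := by
      have := congrArg (algebraMap (𝓞 K) K) h
      rw [map_pow, map_neg, map_one] at this
      exact this
    exact (excl6 hK h1 hs).elim
  · have h1 : (u - θ) * (u - (1 - θ)) = 0 := by linear_combination h + hθ * 0 - hθ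
    rcases mul_eq_zero.1 h1 with h2 | h2
    · exact Or.inr (Or.inr (Or.inl (sub_eq_zero.1 h2)))
    · exact Or.inr (Or.inr (Or.inr (Or.inr (Or.inl (sub_eq_zero.1 h2)))))
  · have h1 : (u + θ) * (u - (θ - 1)) = 0 := by linear_combination h - hθ
    rcases mul_eq_zero.1 h1 with h2 | h2
    · exact Or.inr (Or.inr (Or.inr (Or.inl (eq_neg_of_add_eq_zero_left h2))))
    · exact Or.inr (Or.inr (Or.inr (Or.inr (Or.inr (sub_eq_zero.1 h2)))))

/-- the roots of unity are the powers of `θ` -/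
theorem tor_six {θ : 𝓞 K} (hθ : θ ^ 2 = θ - 1)
    (h : ∀ u : 𝓞 K, IsUnit u → u = 1 ∨ u = -1 ∨ u = θ ∨ u = -θ ∨ u = 1 - θ ∨ u = θ - 1) :
    Units.torsionOrder K = 6 := by
  obtain ⟨ι, hι⟩ : ∃ ι : (𝓞 K)ˣ, (ι : 𝓞 K) = θ :=
    ⟨⟨θ, 1 - θ, by linear_combination -hθ, by linear_combination -hθ⟩, rfl⟩
  have h2 : ((ι ^ 2 : (𝓞 K)ˣ) : 𝓞 K) = θ - 1 := by
    rw [Units.val_pow_eq_pow_val, hι, hθ]
  have h3 : ((ι ^ 3 : (𝓞 K)ˣ) : 𝓞 K) = -1 := by
    rw [Units.val_pow_eq_pow_val, hι]
    linear_combination (θ + 1) * hθ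
  have h4 : ((ι ^ 4 : (𝓞 K)ˣ) : 𝓞 K) = -θ := by
    rw [Units.val_pow_eq_pow_val, hι]
    linear_combination (θ ^ 2 + θ) * hθ
  have h5 : ((ι ^ 5 : (𝓞 K)ˣ) : 𝓞 K) = 1 - θ := by
    rw [Units.val_pow_eq_pow_val, hι]
    linear_combination (θ ^ 3 + θ ^ 2 - 1) * hθ
  have h6 : ι ^ 6 = 1 := by
    apply Units.ext
    rw [Units.val_pow_eq_pow_val, hι, Units.val_one]
    linear_combination (θ ^ 4 + θ ^ 3 - θ - 1) * hθ
  have ho : orderOf ι = 6 := by
    refine orderOf_eq_of_pow_and_pow_div_prime (by norm_num) h6 ?_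
    intro p hp hp6
    have h7 : p = 2 ∨ p = 3 := by
      have h8 : p ∣ 2 * 3 := hp6
      rcases (hp.dvd_mul).1 h8 with h9 | h9
      · exact Or.inl ((Nat.prime_dvd_prime_iff_eq hp Nat.prime_two).1 h9)
      · exact Or.inr ((Nat.prime_dvd_prime_iff_eq hp Nat.prime_three).1 h9)
    rcases h7 with rfl | rfl
    · intro h8
      have h9 : ((ι ^ 3 : (𝓞 K)ˣ) : 𝓞 K) = 1 := by rw [h8, Units.val_one]
      rw [h3] at h9
      have h10 : (2 : 𝓞 K) = 0 := by linear_combination -h9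
      exact two_ne_zero h10
    · intro h8
      have h9 : ((ι ^ 2 : (𝓞 K)ˣ) : 𝓞 K) = 1 := by rw [h8, Units.val_one]
      rw [h2] at h9
      have h10 : θ = 2 := by linear_combination h9
      rw [h10] at hθ
      have h11 : (3 : 𝓞 K) = 0 := by linear_combination hθ
      exact (by norm_num : (3 : 𝓞 K) ≠ 0) h11
  have hmem : ∀ z : (𝓞 K)ˣ, z ∈ Units.torsion K ↔ z ∈ Subgroup.zpowers ι := by
    intro z
    constructor
    · intro _
      rcases h (z : 𝓞 K) z.isUnit with h1 | h1 | h1 | h1 | h1 | h1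
      · have e : z = 1 := Units.ext h1
        rw [e]
        exact one_mem _
      · have e : z = ι ^ 3 := Units.ext (h1.trans h3.symm)
        rw [e]
        exact pow_mem (Subgroup.mem_zpowers ι) 3
      · have e : z = ι := Units.ext (by rw [h1, hι])
        rw [e]
        exact Subgroup.mem_zpowers ι
      · have e : z = ι ^ 4 := Units.ext (h1.trans h4.symm)
        rw [e]
        exact pow_mem (Subgroup.mem_zpowers ι) 4
      · have e : z = ι ^ 5 := Units.ext (h1.trans h5.symm)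
        rw [e]
        exact pow_mem (Subgroup.mem_zpowers ι) 5
      · have e : z = ι ^ 2 := Units.ext (h1.trans h2.symm)
        rw [e]
        exact pow_mem (Subgroup.mem_zpowers ι) 2
    · intro hz
      have hι4 : ι ∈ Units.torsion K := by
        rw [Units.torsion, CommGroup.mem_torsion, isOfFinOrder_iff_pow_eq_one]
        exact ⟨6, by norm_num, h6⟩
      exact (Subgroup.zpowers_le.2 hι4) hz
  have he : Units.torsion K = Subgroup.zpowers ι := Subgroup.ext hmem
  change Nat.card (Units.torsion K) = 6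
  rw [he, Nat.card_zpowers, ho]

theorem cW_w (D : 𝓞 K) : cW K 2 (-3) 3 D = crv (-3 * (D : K)) (3 * (D : K) ^ 2) := by
  rw [cW_two]
  have e0 : ((-3 : 𝓞 K) : K) = -3 := by
    change algebraMap (𝓞 K) K (-3) = -3
    rw [map_neg, map_ofNat]
  have e1 : ((3 : 𝓞 K) : K) = 3 := map_ofNat (algebraMap (𝓞 K) K) 3
  rw [e0, e1]
  rfl

theorem sq_coe {D D' u : 𝓞 K} (h : (D' : K) = (u : K) ^ 2 * (D : K)) : D' = u ^ 2 * D := by
  apply RingOfIntegers.ext
  change (D' : K) = algebraMap (𝓞 K) K (u ^ 2 * D)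
  rw [map_mul, map_pow]
  exact h

/-- isomorphic curves of the family are those of `D` and `u² D` -/
theorem uniq_w [IsPrincipalIdealRing (𝓞 K)] {D D' : 𝓞 K} (hD : Squarefree D) (hD' : Squarefree D')
    {C : VariableChange K} (h : C • cW K 2 (-3) 3 D = cW K 2 (-3) 3 D') :
    ∃ u : 𝓞 K, IsUnit u ∧ D' = u ^ 2 * D := by
  rw [cW_w, cW_w] at h
  obtain ⟨v, hv, -, h6⟩ := c46 h
  simp only [crv, WeierstrassCurve.c₆, WeierstrassCurve.b₂, WeierstrassCurve.b₄,
    WeierstrassCurve.b₆] at h6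
  have hD0 : (D : K) ≠ 0 := fun h => hD.ne_zero (nz_coe.1 h)
  have h1 : (D' : K) ^ 3 = (v ^ 2 * (D : K)) ^ 3 := by
    have h864 : (-864 : K) ≠ 0 := by norm_num
    exact mul_left_cancel₀ h864 (by linear_combination h6)
  have h0 : v ^ 2 * (D : K) ≠ 0 := mul_ne_zero (pow_ne_zero 2 hv) hD0
  obtain ⟨x, hx⟩ : ∃ x : K, x = (D' : K) / (v ^ 2 * (D : K)) := ⟨_, rfl⟩
  have hxD : (D' : K) = x * (v ^ 2 * (D : K)) := by
    rw [hx]
    field_simp
  have hx3 : x ^ 3 = 1 := by
    rw [hx, div_pow, h1, div_self (pow_ne_zero 3 h0)]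
  have h2 : (D' : K) = (x ^ 2 * v) ^ 2 * (D : K) := by
    rw [hxD]
    linear_combination (-x * v ^ 2 * (D : K)) * hx3
  have hx0 : x ≠ 0 := by
    rintro rfl
    norm_num at hx3
  obtain ⟨u, hu, hu'⟩ := unit_of_free (mul_ne_zero (pow_ne_zero 2 hx0) hv) (free_of_sqf hD)
    (free_of_sqf hD') h2
  refine ⟨u, hu, sq_coe ?_⟩
  rw [hu']
  exact h2

/-- the curves of `D` and `u² D` are isomorphic -/
theorem iso_unit_w {D u : 𝓞 K} (hu : IsUnit u) :
    ∃ C : VariableChange K, C • cW K 2 (-3) 3 D = cW K 2 (-3) 3 (u ^ 2 * D) := by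
  have hu0 : (u : K) ≠ 0 := fun h => hu.ne_zero (nz_coe.1 h)
  obtain ⟨C, hC⟩ := crv_scale (a := -3 * (D : K)) (b := 3 * (D : K) ^ 2) hu0
  refine ⟨C⁻¹, ?_⟩
  rw [cW_w, cW_w]
  have e : ((u ^ 2 * D : 𝓞 K) : K) = (u : K) ^ 2 * (D : K) := by
    change algebraMap (𝓞 K) K (u ^ 2 * D) = _
    rw [map_mul, map_pow]
  have e1 : crv (-3 * ((u ^ 2 * D : 𝓞 K) : K)) (3 * ((u ^ 2 * D : 𝓞 K) : K) ^ 2) =
      crv ((u : K) ^ 2 * (-3 * (D : K))) ((u : K) ^ 4 * (3 * (D : K) ^ 2)) := by
    rw [e]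
    unfold crv
    ext
    · rfl
    · change -3 * ((u : K) ^ 2 * (D : K)) = (u : K) ^ 2 * (-3 * (D : K))
      ring
    · rfl
    · change 3 * ((u : K) ^ 2 * (D : K)) ^ 2 = (u : K) ^ 4 * (3 * (D : K) ^ 2)
      ring
    · rfl
  rw [e1, ← hC, inv_smul_smul]

/-- **The family over the field of the cube roots of unity.** -/
theorem al_w [IsPrincipalIdealRing (𝓞 K)] (hK : Module.finrank ℚ K = 2)
    (hr : IsEmpty (K →+* ℝ)) {θ : 𝓞 K} (hθ : θ ^ 2 = θ - 1) :
    Units.torsionOrder K = 6 ∧ (∀ W : WeierstrassCurve K, ¬ Endo2 W) ∧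
    (∀ W : WeierstrassCurve K, Two W ∧ AutN W ↔ ∃ D : 𝓞 K, Fr K 2 D ∧ ∃ C : VariableChange K,
      C • W = cW K 2 (-3) 3 D) ∧
    (∀ D D' : 𝓞 K, Fr K 2 D → Fr K 2 D' → ((∃ C : VariableChange K,
      C • cW K 2 (-3) 3 D = cW K 2 (-3) 3 D') ↔ ∃ u : 𝓞 K, IsUnit u ∧ D' = u ^ 2 * D)) ∧
    ∀ D : 𝓞 K, Fr K 2 D → HasJ (cW K 2 (-3) 3 D) 0 ∧ (cW K 2 (-3) 3 D).Δ ≠ 0 := by
  have hθ' : (θ : K) ^ 2 = (θ : K) - 1 := by
    have := congrArg (algebraMap (𝓞 K) K) hθ
    rw [map_pow, map_sub, map_one] at this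
    exact this
  have hs := th3 hθ'
  have hend : ∀ W : WeierstrassCurve K, ¬ Endo2 W := by
    intro W hW
    rcases (endo2_iff W).1 hW with ⟨i, b, hi, -⟩ | ⟨s, d, hs', -⟩ | ⟨t, d, ht, -⟩
    · exact excl6 hK hi hs
    · exact excl4 hK hs' hs
    · exact excl5 hK (th7 ht) hs
  refine ⟨tor_six hθ fun u hu => units_w hK hr hθ hu, hend, fun W => ⟨fun h => ?_, ?_⟩,
    fun D D' hD hD' => ⟨fun ⟨C, hC⟩ => ?_, ?_⟩, fun D hD => ⟨?_, ?_⟩⟩
  · rcases (two_autN two_ne_zero three_ne_zero W).1 h with ⟨i, b, hi, -⟩ | ⟨w, d, hw, hd, C, hC⟩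
    · exact (excl6 hK hi hs).elim
    · obtain ⟨D, e, he, hD, h1, h2⟩ := exists_free two_ne_zero hd
      obtain ⟨C', hC'⟩ := crv_scale (a := -3 * (D : K)) (b := 3 * (D : K) ^ 2) he
      refine ⟨D, h2, C' * C, ?_⟩
      rw [mul_smul, hC, h1, cW_w, ← hC']
      congr 1
      unfold crv
      ext
      · rfl
      · change -3 * (e ^ 2 * (D : K)) = e ^ 2 * (-3 * (D : K))
        ring
      · rfl
      · change 3 * (e ^ 2 * (D : K)) ^ 2 = e ^ 4 * (3 * (D : K) ^ 2)
        ring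
      · rfl
  · rintro ⟨D, hD, C, hC⟩
    refine (two_autN two_ne_zero three_ne_zero W).2 (Or.inr ⟨(θ : K) - 1, D, ?_,
      fun h => Fr_ne_zero hK hD (nz_coe.1 h), C, by rw [hC, cW_w]⟩)
    linear_combination hθ'
  · exact uniq_w ((Fr_two hK).1 hD) ((Fr_two hK).1 hD') hC
  · rintro ⟨u, hu, rfl⟩
    exact iso_unit_w hu
  · rw [cW_w]
    simp only [crv, HasJ, WeierstrassCurve.c₄, WeierstrassCurve.Δ, WeierstrassCurve.b₂,
      WeierstrassCurve.b₄, WeierstrassCurve.b₆, WeierstrassCurve.b₈]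
    push_cast
    ring
  · rw [cW_w]
    have hD0 : (D : K) ≠ 0 := fun h => Fr_ne_zero hK hD (nz_coe.1 h)
    have e : (crv (-3 * (D : K)) (3 * (D : K) ^ 2)).Δ = -432 * (D : K) ^ 6 := by
      simp only [crv, WeierstrassCurve.Δ, WeierstrassCurve.b₂,
        WeierstrassCurve.b₄, WeierstrassCurve.b₆, WeierstrassCurve.b₈]
      ring
    rw [e]
    exact mul_ne_zero (by norm_num) (pow_ne_zero 6 hD0)

/-- `y² = x³ - 3 D x² + 3 D² x` is `y² = x³ + D³` -/
theorem shift_w (D : 𝓞 K) : ∃ C : VariableChange K,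
    C • (⟨0, 0, 0, 0, (D : K) ^ 3⟩ : WeierstrassCurve K) = cW K 2 (-3) 3 D := by
  refine ⟨⟨1, -(D : K), 0, 0⟩, ?_⟩
  rw [cW_w]
  have hui : ((((⟨1, -(D : K), 0, 0⟩ : VariableChange K).u)⁻¹ : Kˣ) : K) = 1 := by
    rw [inv_one, Units.val_one]
  unfold crv
  ext
  · rw [variableChange_a₁, hui]
    ring
  · rw [variableChange_a₂, hui]
    ring
  · rw [variableChange_a₃, hui]
    ring
  · rw [variableChange_a₄, hui]
    ring
  · rw [variableChange_a₆, hui]
    ring

end

end Pool.Agent.Lib.MP_1a91b9_ntI
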