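import Mathlib

/-!
# The elliptic curves with a given `j`-invariant, different from `0` and `1728`, over a number field of
class number one: the twists of one of them by the squarefree integers
-/

set_option autoImplicit false

namespace Pool.Agent.Lib.MP_1a91b9_ntI

open NumberField WeierstrassCurve

/-! ### The squarefree part -/

section sqf

theorem exists_sqf {R : Type*} [CommRing R] [IsDomain R] [UniqueFactorizationMonoid R] (a : R)
    (ha : a ≠ 0) : ∃ d s : R, a = d * s ^ 2 ∧ Squarefree d := by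
  induction a using WfDvdMonoid.induction_on_irreducible with
  | zero => exact absurd rfl ha
  | unit u hu => exact ⟨u, 1, by ring, hu.squarefree⟩
  | mul a p ha0 hp ih =>
    obtain ⟨d, s, h, hd⟩ := ih ha0
    by_cases hpd : p ∣ d
    · obtain ⟨e, he⟩ := hpd
      refine ⟨e, p * s, by rw [h, he]; ring, hd.squarefree_of_dvd ⟨p, by rw [he]; ring⟩⟩
    · exact ⟨p * d, s, by rw [h]; ring,
        squarefree_mul_iff.2 ⟨hp.isRelPrime_iff_not_dvd.2 hpd, hp.squarefree, hd⟩⟩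

/-- every nonzero element of a number field of class number one is a squarefree integer times a
square -/
theorem exists_sqf_mul {N : Type*} [Field N] [NumberField N] [IsPrincipalIdealRing (𝓞 N)] (x : N)
    (hx : x ≠ 0) : ∃ (d : 𝓞 N) (s : N), x = (d : N) * s ^ 2 ∧ s ≠ 0 ∧ Squarefree d := by
  obtain ⟨a, b, hb, hab⟩ := IsFractionRing.div_surjective (A := 𝓞 N) x
  have hb0 : b ≠ 0 := nonZeroDivisors.ne_zero hb
  have hbK : algebraMap (𝓞 N) N b ≠ 0 := by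
    rwa [Ne, FaithfulSMul.algebraMap_eq_zero_iff]
  have ha0 : a ≠ 0 := by
    rintro rfl
    apply hx
    rw [← hab, map_zero, zero_div]
  obtain ⟨d, s, h, hd⟩ := exists_sqf (a * b) (mul_ne_zero ha0 hb0)
  have h1 : x = algebraMap (𝓞 N) N d * (algebraMap (𝓞 N) N s / algebraMap (𝓞 N) N b) ^ 2 := by
    have h2 : algebraMap (𝓞 N) N a * algebraMap (𝓞 N) N b =
        algebraMap (𝓞 N) N d * algebraMap (𝓞 N) N s ^ 2 := by
      rw [← map_mul, h, map_mul, map_pow]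
    rw [← hab, div_pow, ← mul_div_assoc, ← h2]
    field_simp
  refine ⟨d, algebraMap (𝓞 N) N s / algebraMap (𝓞 N) N b, h1, ?_, hd⟩
  intro h2
  rw [h2] at h1
  apply hx
  rw [h1]
  ring

end sqf

/-! ### Curves with the same invariants -/

section fld

variable {F : Type*} [Field F] [CharZero F]

/-- two curves with the same `c₄` and `c₆` are isomorphic -/
theorem exists_change_of_c {W W' : WeierstrassCurve F} (h4 : W.c₄ = W'.c₄) (h6 : W.c₆ = W'.c₆) :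
    ∃ C : VariableChange F, C • W = W' := by
  have key : ∀ V : WeierstrassCurve F, ∃ C : VariableChange F,
      C • V = ⟨0, 0, 0, -V.c₄ / 48, -V.c₆ / 864⟩ := by
    intro V
    refine ⟨⟨1, -V.b₂ / 12, -V.a₁ / 2, -V.a₃ / 2 + V.a₁ * V.b₂ / 24⟩, ?_⟩
    ext
    · rw [variableChange_a₁]
      simp only [inv_one, Units.val_one]
      field_simp
      ring
    · rw [variableChange_a₂]
      simp only [inv_one, Units.val_one, b₂]
      field_simp
      ring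
    · rw [variableChange_a₃]
      simp only [inv_one, Units.val_one, b₂]
      field_simp
      ring
    · rw [variableChange_a₄]
      simp only [inv_one, Units.val_one, b₂, c₄, b₄]
      field_simp
      ring
    · rw [variableChange_a₆]
      simp only [inv_one, Units.val_one, b₂, c₆, b₄, b₆]
      field_simp
      ring
  obtain ⟨C, hC⟩ := key W
  obtain ⟨C', hC'⟩ := key W'
  refine ⟨C'⁻¹ * C, ?_⟩
  rw [mul_smul, hC, h4, h6, ← hC', inv_smul_smul]

omit [CharZero F] in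
/-- from `c₄³ c₆'² = c₄'³ c₆²` -/
theorem exists_twist {W W' : WeierstrassCurve F} (h4 : W.c₄ ≠ 0) (h6 : W.c₆ ≠ 0) (h4' : W'.c₄ ≠ 0)
    (h6' : W'.c₆ ≠ 0) (h : W.c₄ ^ 3 * W'.c₆ ^ 2 = W'.c₄ ^ 3 * W.c₆ ^ 2) :
    ∃ δ : F, δ ≠ 0 ∧ W.c₄ = δ ^ 2 * W'.c₄ ∧ W.c₆ = δ ^ 3 * W'.c₆ := by
  obtain ⟨δ, hδ⟩ : ∃ δ : F, δ = (W.c₆ * W'.c₄) / (W'.c₆ * W.c₄) := ⟨_, rfl⟩
  have h2 : W.c₄ = δ ^ 2 * W'.c₄ := by
    rw [hδ, div_pow, div_mul_eq_mul_div, eq_div_iff (by positivity)]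
    linear_combination h
  refine ⟨δ, ?_, h2, ?_⟩
  · rw [hδ]
    exact div_ne_zero (mul_ne_zero h6 h4') (mul_ne_zero h6' h4)
  · have e : δ ^ 3 * W'.c₆ = δ ^ 2 * W'.c₄ * (δ * W'.c₆ / W'.c₄) := by
      field_simp
    rw [e, ← h2, hδ]
    field_simp

omit [CharZero F] in
/-- the invariants of `y² = x³ + a d x² + b d² x` -/
theorem tw_c4 (a b d : F) : (⟨0, a * d, 0, b * d ^ 2, 0⟩ : WeierstrassCurve F).c₄ =
    d ^ 2 * (⟨0, a, 0, b, 0⟩ : WeierstrassCurve F).c₄ := by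
  simp only [c₄, b₂, b₄]
  ring

omit [CharZero F] in
theorem tw_c6 (a b d : F) : (⟨0, a * d, 0, b * d ^ 2, 0⟩ : WeierstrassCurve F).c₆ =
    d ^ 3 * (⟨0, a, 0, b, 0⟩ : WeierstrassCurve F).c₆ := by
  simp only [c₆, b₂, b₄, b₆]
  ring

omit [CharZero F] in
theorem tw_Δ (a b d : F) : (⟨0, a * d, 0, b * d ^ 2, 0⟩ : WeierstrassCurve F).Δ =
    d ^ 6 * (⟨0, a, 0, b, 0⟩ : WeierstrassCurve F).Δ := by
  simp only [Δ, b₂, b₄, b₆, b₈]
  ring

omit [CharZero F] in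
/-- `c₄³ = j Δ` -/
theorem c4_of_j (W : WeierstrassCurve F) [W.IsElliptic] : W.c₄ ^ 3 = W.j * W.Δ := by
  rw [j, mul_right_comm, ← W.coe_Δ', Units.inv_mul, one_mul]

end fld

/-! ### The classification -/

section cls

variable {N : Type*} [Field N] [NumberField N] [IsPrincipalIdealRing (𝓞 N)]

/-- **The elliptic curves over `N` with the `j`-invariant `j₀`, different from `0` and `1728`**, are the
curves `y² = x³ + a d x² + b d² x`, `d` a squarefree integer, if one of them is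
`y² = x³ + a x² + b x`. -/
theorem cls_j {j₀ a b : N} (h0 : j₀ ≠ 0) (h1 : j₀ ≠ 1728)
    (hE : (⟨0, a, 0, b, 0⟩ : WeierstrassCurve N).Δ ≠ 0)
    (hj : (⟨0, a, 0, b, 0⟩ : WeierstrassCurve N).c₄ ^ 3 =
      j₀ * (⟨0, a, 0, b, 0⟩ : WeierstrassCurve N).Δ)
    (W : WeierstrassCurve N) [W.IsElliptic] (hW : W.j = j₀) :
    ∃ d : 𝓞 N, Squarefree d ∧ ∃ C : VariableChange N,
      C • W = ⟨0, a * (d : N), 0, b * (d : N) ^ 2, 0⟩ := by
  obtain ⟨E, hEd⟩ : ∃ E : WeierstrassCurve N, E = ⟨0, a, 0, b, 0⟩ := ⟨_, rfl⟩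
  rw [← hEd] at hE hj
  have hWj := c4_of_j W
  rw [hW] at hWj
  have hWΔ : W.Δ ≠ 0 := by
    rw [← W.coe_Δ']
    exact W.Δ'.ne_zero
  have hne4 : ∀ V : WeierstrassCurve N, V.Δ ≠ 0 → V.c₄ ^ 3 = j₀ * V.Δ → V.c₄ ≠ 0 := by
    intro V hV h h4
    rw [h4] at h
    have : j₀ * V.Δ = 0 := by rw [← h]; ring
    exact (mul_ne_zero h0 hV) this
  have hne6 : ∀ V : WeierstrassCurve N, V.Δ ≠ 0 → V.c₄ ^ 3 = j₀ * V.Δ → V.c₆ ≠ 0 := by
    intro V hV h h6
    have hr := V.c_relation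
    rw [h6, h] at hr
    have : (j₀ - 1728) * V.Δ = 0 := by linear_combination -hr
    exact (mul_ne_zero (sub_ne_zero.2 h1) hV) this
  obtain ⟨δ, hδ0, hδ4, hδ6⟩ := exists_twist (hne4 W hWΔ hWj) (hne6 W hWΔ hWj) (hne4 E hE hj)
    (hne6 E hE hj) (by
      have hrW := W.c_relation
      have hrE := E.c_relation
      linear_combination (1728 * W.Δ) * hj - (1728 * E.Δ) * hWj + W.c₄ ^ 3 * hrE -
        E.c₄ ^ 3 * hrW)
  obtain ⟨d, s, hds, hs0, hd⟩ := exists_sqf_mul δ hδ0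
  refine ⟨d, hd, ?_⟩
  obtain ⟨C, hC⟩ : ∃ C : VariableChange N,
      C • ((⟨Units.mk0 s hs0, 0, 0, 0⟩ : VariableChange N) • W) =
        ⟨0, a * (d : N), 0, b * (d : N) ^ 2, 0⟩ := by
    refine exists_change_of_c ?_ ?_
    · rw [variableChange_c₄, tw_c4, hδ4, hds, ← hEd, Units.val_inv_eq_inv_val, Units.val_mk0]
      field_simp
    · rw [variableChange_c₆, tw_c6, hδ6, hds, ← hEd, Units.val_inv_eq_inv_val, Units.val_mk0]
      field_simp
  refine ⟨C * ⟨Units.mk0 s hs0, 0, 0, 0⟩, ?_⟩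
  rw [mul_smul, hC]

omit [NumberField N] [IsPrincipalIdealRing (𝓞 N)] in
/-- the converse: the `j`-invariant of `y² = x³ + a d x² + b d² x` -/
theorem j_tw {j₀ a b d : N}
    (hj : (⟨0, a, 0, b, 0⟩ : WeierstrassCurve N).c₄ ^ 3 =
      j₀ * (⟨0, a, 0, b, 0⟩ : WeierstrassCurve N).Δ)
    {W : WeierstrassCurve N} [W.IsElliptic] (hW : W = ⟨0, a * d, 0, b * d ^ 2, 0⟩) : W.j = j₀ := by
  have h1 : W.c₄ ^ 3 = j₀ * W.Δ := by
    rw [hW, tw_c4, tw_Δ, mul_pow, hj]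
    ring
  have h2 := c4_of_j W
  rw [h1] at h2
  have hWΔ : W.Δ ≠ 0 := by
    rw [← W.coe_Δ']
    exact W.Δ'.ne_zero
  exact (mul_right_cancel₀ hWΔ h2).symm

end cls

end Pool.Agent.Lib.MP_1a91b9_ntI
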