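import Pool.Agent.Lib.MP_1a91b9_ntI.TrBsd
import Pool.Agent.Lib.MP_1a91b9_ntI.CM2
import Pool.Agent.Lib.MP_1a91b9_ntI.KEq3

/-!
# The four fields: from the statements over the four fields to the final form
-/

set_option autoImplicit false
set_option linter.unusedSectionVars false

namespace Pool.Agent.Lib.MP_1a91b9_ntI

open NumberField WeierstrassCurve
open Pool.Agent.Lib.MP_1a91b9_ntS (BSDMod)
open Pool.Agent.Lib.MP_1a91b9_nuI (HasJ)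
open Pool.Agent.Lib.MP_1a91b9_ntW (K8)
open Pool.Agent.Lib.MP_1a91b9_ntV (K7 t7)

noncomputable section

variable {K : Type} [Field K] [NumberField K]

/-- The final form over a field, for a family. -/
def Fin4 (K : Type) [Field K] [NumberField K] (w : ℕ) (a b : 𝓞 K) (c : ℝ) : Prop :=
  ∃ q : 𝓞 K → ℚ,
    (∀ W : WeierstrassCurve K, CM2 W ↔
      ∃ D : 𝓞 K, Fr K w D ∧ ∃ C : VariableChange K, C • W = cW K w a b D) ∧
    (∀ D D' : 𝓞 K, Fr K w D → Fr K w D' →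
      ((∃ C : VariableChange K, C • cW K w a b D = cW K w a b D') ↔
        ∃ u : 𝓞 K, IsUnit u ∧ D' = u ^ w * D)) ∧
    (∀ (D : 𝓞 K) (W : WeierstrassCurve K) (C : VariableChange K), Fr K w D →
      C • W = cW K w a b D → BSDMod 2 W (q D)) ∧
    ∀ (n : ℕ) (m u : 𝓞 K), m ∣ 2 ^ n → (∀ p : 𝓞 K, Prime p → ¬ (p ^ w ∣ m ∧ p ^ w ∣ u)) →
      Filter.Tendsto (fun X : ℝ =>
        (Nat.card {D : 𝓞 K // Fr K w D ∧ m ∣ D - u ∧ |Algebra.norm ℤ D| ≤ X ∧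
          ¬ 2 ∣ (q D).num} : ℝ) /
        (Nat.card {D : 𝓞 K // Fr K w D ∧ m ∣ D - u ∧ |Algebra.norm ℤ D| ≤ X} : ℝ))
        Filter.atTop (nhds c)

theorem core {w : ℕ} {a b : 𝓞 K} {c : ℝ} (hA : AL' K w a b) (hT : TP K w a b c) :
    Fin4 K w a b c := by
  obtain ⟨h1, h2, j, hj⟩ := hA
  obtain ⟨q, h3, h4⟩ := hT
  refine ⟨q, h1, h2, fun D W C hD hC => ?_, h4⟩
  obtain ⟨h5, h6⟩ := hj D hD
  have e1 : W = C⁻¹ • cW K w a b D := by rw [← hC, inv_smul_smul]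
  rw [e1]
  exact (bsd_vc 2 _ h6 C⁻¹ (fun s => ls_vc _ _ j h5 s) _).2 (h3 D hD)

theorem four_i {c : ℝ} (h2 : Module.finrank ℚ K = 2) {i : 𝓞 K} (hi : i ^ 2 = -1)
    (hT : TP (CyclotomicField 4 ℚ) 4 0 (-1) c) : Fin4 K 4 0 (-1) c := by
  have hp := pir_i h2 hi
  have hr := emp_i hi
  have hp4 := pirK4
  obtain ⟨i', hi'⟩ := exists_i4
  obtain ⟨e⟩ := iso_i h2 hi
  have h := TP.equiv e (al_i' finK4 empK4 hi').2.2 hT
  rw [map_zero, map_neg, map_one] at h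
  exact core (al_i' h2 hr hi) h

theorem four_s {c : ℝ} (h2 : Module.finrank ℚ K = 2) {s : 𝓞 K} (hs : s ^ 2 = -2)
    (hT : TP K8 2 4 2 c) : Fin4 K 2 4 2 c := by
  have hp := pir_s h2 hs
  have hr := emp_s hs
  have hp8 := pirK8
  obtain ⟨e, -⟩ := iso_s h2 hs
  have h := TP.equiv e (al_s' finK8 empK8 Pool.Agent.Lib.MP_1a91b9_ntW.lam_sq).2.2 hT
  rw [map_ofNat, map_ofNat] at h
  exact core (al_s' h2 hr hs) h

theorem four_t {c : ℝ} (h2 : Module.finrank ℚ K = 2) {θ : 𝓞 K} (hθ : θ ^ 2 = θ - 2)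
    (hT : TP K7 2 (1 + (1 - t7) ^ 4) ((1 - t7) ^ 4) c) :
    Fin4 K 2 (1 + (1 - θ) ^ 4) ((1 - θ) ^ 4) c := by
  have hp := pir_t h2 hθ
  have hr := emp_t hθ
  have hp7 := pirK7
  obtain ⟨e, he⟩ := iso_t h2 hθ
  have he' : RingOfIntegers.mapRingEquiv e t7 = θ := RingOfIntegers.ext he
  have h := TP.equiv e (al_t' finK7 empK7 Pool.Agent.Lib.MP_1a91b9_ntV.t7_sq).2.2 hT
  rw [map_add, map_pow, map_sub, map_one, he'] at h
  exact core (al_t' h2 hr hθ) h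

theorem four_w {c : ℝ} (h2 : Module.finrank ℚ K = 2) {θ : 𝓞 K} (hθ : θ ^ 2 = θ - 1)
    (hT : TP Pool.Agent.Lib.MP_1a91b9_ntT.K 2 (-3) 3 c) : Fin4 K 2 (-3) 3 c := by
  have hp := pir_w h2 hθ
  have hr := emp_w hθ
  have hp3 := pirK3
  obtain ⟨e, -⟩ := iso_w3 h2 hθ
  have h := TP.equiv e (al_w' finK3 empK3 w3_sq).2.2 hT
  rw [map_neg, map_ofNat] at h
  exact core (al_w' h2 hr hθ) h

end

end Pool.Agent.Lib.MP_1a91b9_ntI
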