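import Pool.Agent.Lib.MP_1a91b9_ntI.CM2
import Pool.Agent.Lib.MP_1a91b9_ntI.KEq3

/-!
# The imaginary quadratic fields over which there is a curve with complex multiplication and a rational
point of order two
-/

set_option autoImplicit false
set_option linter.unusedSectionVars false

namespace Pool.Agent.Lib.MP_1a91b9_ntI

open NumberField WeierstrassCurve Polynomial
open Pool.Agent.Lib.MP_1a91b9_ntL (Endo2 crv crv_iso crv_change endo2_iff)

section

variable {K : Type*} [Field K] [NumberField K]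

theorem int_of {y : K} {t n : ℤ} (h : y ^ 2 = (t : K) * y - (n : K)) : IsIntegral ℤ y := by
  refine ⟨X ^ 2 - C t * X + C n, by monicity!, ?_⟩
  rw [eval₂_add, eval₂_sub, eval₂_pow, eval₂_mul, eval₂_X, eval₂_C, eval₂_C, eq_intCast, eq_intCast]
  linear_combination h

/-- a root in the field is an integer -/
theorem lift_of {y : K} {t n : ℤ} (h : y ^ 2 = (t : K) * y - (n : K)) :
    ∃ x : 𝓞 K, x ^ 2 = (t : 𝓞 K) * x - (n : 𝓞 K) := by
  refine ⟨⟨y, int_of h⟩, ?_⟩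
  apply RingOfIntegers.ext
  have e1 : algebraMap (𝓞 K) K ⟨y, int_of h⟩ = y := rfl
  change algebraMap (𝓞 K) K (⟨y, int_of h⟩ ^ 2) =
    algebraMap (𝓞 K) K ((t : 𝓞 K) * ⟨y, int_of h⟩ - (n : 𝓞 K))
  rw [map_pow, map_sub, map_mul, map_intCast, map_intCast, e1]
  exact h

/-- the field contains an integer of norm at most two which is not rational -/
theorem cm2_elt {W : WeierstrassCurve K} (h : CM2 W) :
    ∃ x : 𝓞 K, x ^ 2 = -1 ∨ x ^ 2 = -2 ∨ x ^ 2 = x - 2 ∨ x ^ 2 = x - 1 := by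
  have k1 : ∀ y : K, y ^ 2 = -1 →
      ∃ x : 𝓞 K, x ^ 2 = -1 ∨ x ^ 2 = -2 ∨ x ^ 2 = x - 2 ∨ x ^ 2 = x - 1 := by
    intro y hy
    obtain ⟨x, hx⟩ := lift_of (y := y) (t := 0) (n := 1) (by push_cast; linear_combination hy)
    exact ⟨x, Or.inl (by rw [hx]; push_cast; ring)⟩
  have k2 : ∀ y : K, y ^ 2 = -2 →
      ∃ x : 𝓞 K, x ^ 2 = -1 ∨ x ^ 2 = -2 ∨ x ^ 2 = x - 2 ∨ x ^ 2 = x - 1 := by
    intro y hy
    obtain ⟨x, hx⟩ := lift_of (y := y) (t := 0) (n := 2) (by push_cast; linear_combination hy)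
    exact ⟨x, Or.inr (Or.inl (by rw [hx]; push_cast; ring))⟩
  have k3 : ∀ y : K, y ^ 2 = y - 2 →
      ∃ x : 𝓞 K, x ^ 2 = -1 ∨ x ^ 2 = -2 ∨ x ^ 2 = x - 2 ∨ x ^ 2 = x - 1 := by
    intro y hy
    obtain ⟨x, hx⟩ := lift_of (y := y) (t := 1) (n := 2) (by push_cast; linear_combination hy)
    exact ⟨x, Or.inr (Or.inr (Or.inl (by rw [hx]; push_cast; ring)))⟩
  have k4 : ∀ y : K, y ^ 2 + y + 1 = 0 →
      ∃ x : 𝓞 K, x ^ 2 = -1 ∨ x ^ 2 = -2 ∨ x ^ 2 = x - 2 ∨ x ^ 2 = x - 1 := by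
    intro y hy
    obtain ⟨x, hx⟩ := lift_of (y := -y) (t := 1) (n := 1) (by push_cast; linear_combination hy)
    exact ⟨x, Or.inr (Or.inr (Or.inr (by rw [hx]; push_cast; ring)))⟩
  rcases (cm2_iff W).1 h with h1 | h1
  · rcases (endo2_iff W).1 h1 with ⟨i, b, hi, -⟩ | ⟨s, d, hs, -⟩ | ⟨θ, d, hθ, -⟩
    · exact k1 i hi
    · exact k2 s hs
    · exact k3 θ hθ
  · rcases (two_autN two_ne_zero three_ne_zero W).1 h1 with ⟨i, b, hi, -⟩ | ⟨w, d, hw, -⟩
    · exact k1 i hi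
    · exact k4 w hw

end

section

variable {K : Type} [Field K] [NumberField K]

theorem Fr_one {w : ℕ} (hw : w ≠ 0) : Fr K w 1 := by
  intro p hp h
  apply hp.not_isUnit
  have h1 := isUnit_of_dvd_one h
  exact (isUnit_pow_iff hw).1 h1

theorem exists_of_al {w : ℕ} (hw : w ≠ 0) {a b : 𝓞 K} (h : AL' K w a b) :
    ∃ W : WeierstrassCurve K, CM2 W := by
  refine ⟨cW K w a b 1, ?_⟩
  rw [h.1]
  exact ⟨1, Fr_one hw, 1, one_smul _ _⟩

/-- **The four fields.** A quadratic field has discriminant in `[-8, 0)` if and only if there is a curve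
over it with a rational point of order two and complex multiplication by the ring of integers. -/
theorem ex_iff (hK : Module.finrank ℚ K = 2) :
    (∃ W : WeierstrassCurve K, CM2 W) ↔ discr K < 0 ∧ -8 ≤ discr K := by
  constructor
  · rintro ⟨W, hW⟩
    obtain ⟨x, hx⟩ := cm2_elt hW
    exact discr_range hK hx
  · rintro ⟨h0, h8⟩
    obtain ⟨hr, hp, x, hx⟩ := four_fields hK h0 h8
    rcases hx with h1 | h1 | h1 | h1
    · exact exists_of_al (by norm_num) (al_i' hK hr h1)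
    · exact exists_of_al (by norm_num) (al_s' hK hr h1)
    · exact exists_of_al (by norm_num) (al_t' hK hr h1)
    · exact exists_of_al (by norm_num) (al_w' hK hr h1)

end

end Pool.Agent.Lib.MP_1a91b9_ntI
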