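import Pool.Agent.Lib.MP_1a91b9_ntI.TrBsd
import Pool.Agent.Lib.MP_1a91b9_ntI.CM2
import Pool.Agent.Lib.MP_1a91b9_ntI.KEq3
import Pool.Agent.Lib.MP_1a91b9_ntS.G.MainG

/-!
# The main statement over `ℚ(√-3)`
-/

set_option autoImplicit false
set_option linter.unusedSectionVars false

namespace Pool.Agent.Lib.MP_1a91b9_ntI

open NumberField WeierstrassCurve
open Pool.Agent.Lib.MP_1a91b9_ntS (BSDMod)
open Pool.Agent.Lib.MP_1a91b9_nuI (HasJ)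
open Pool.Agent.Lib.MP_1a91b9_ntS.G (main_q2G)

noncomputable section

/-- **The main statement over `ℚ(√-3)`.** -/
theorem tp3 : TP Pool.Agent.Lib.MP_1a91b9_ntT.K 2 (-3) 3
    (∏' i : ℕ, (1 + 1 / (2 : ℝ) ^ (2 * i + 1))⁻¹) := by
  have hp3 := pirK3
  have hF : ∀ D : 𝓞 Pool.Agent.Lib.MP_1a91b9_ntT.K, Fr Pool.Agent.Lib.MP_1a91b9_ntT.K 2 D ↔
      Squarefree D := fun D => Fr_two finK3
  obtain ⟨q, h1, h2⟩ := main_q2G
  refine ⟨q, fun D hD => ?_, fun n m u hm hu => ?_⟩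
  · obtain ⟨C, hC⟩ := shift_w D
    have h3 := h1 D ((hF D).1 hD) _ rfl
    have hD0 : (D : Pool.Agent.Lib.MP_1a91b9_ntT.K) ≠ 0 :=
      fun h => Fr_ne_zero finK3 hD (nz_coe.1 h)
    have hj : HasJ (⟨0, 0, 0, 0, (D : Pool.Agent.Lib.MP_1a91b9_ntT.K) ^ 3⟩ :
        WeierstrassCurve Pool.Agent.Lib.MP_1a91b9_ntT.K) 0 := by
      simp [HasJ, WeierstrassCurve.c₄, WeierstrassCurve.b₂, WeierstrassCurve.b₄]
    have hΔ : (⟨0, 0, 0, 0, (D : Pool.Agent.Lib.MP_1a91b9_ntT.K) ^ 3⟩ :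
        WeierstrassCurve Pool.Agent.Lib.MP_1a91b9_ntT.K).Δ ≠ 0 := by
      have e : (⟨0, 0, 0, 0, (D : Pool.Agent.Lib.MP_1a91b9_ntT.K) ^ 3⟩ :
          WeierstrassCurve Pool.Agent.Lib.MP_1a91b9_ntT.K).Δ =
            -432 * (D : Pool.Agent.Lib.MP_1a91b9_ntT.K) ^ 6 := by
        simp only [WeierstrassCurve.Δ, WeierstrassCurve.b₂, WeierstrassCurve.b₄,
          WeierstrassCurve.b₆, WeierstrassCurve.b₈]
        ring
      rw [e]
      exact mul_ne_zero (by norm_num) (pow_ne_zero 6 hD0)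
    rw [← hC]
    exact (bsd_vc 2 _ hΔ C (fun s => ls_vc _ _ 0 hj s) _).2 h3
  · have h3 : ¬ (4 ∣ m ∧ 4 ∣ u) := by
      rintro ⟨ha, hb⟩
      have e : (2 : 𝓞 Pool.Agent.Lib.MP_1a91b9_ntT.K) ^ 2 = 4 := by norm_num
      exact hu 2 (prime_w finK3 w3_sq) ⟨by rw [e]; exact ha, by rw [e]; exact hb⟩
    have key := h2 n m u hm h3
    simp only [hF]
    exact key

end

end Pool.Agent.Lib.MP_1a91b9_ntI
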