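import Pool.Agent.Lib.MP_1a91b9_ntI.KEq
import Pool.Agent.Lib.MP_1a91b9_ntI.Cls
import Pool.Agent.Lib.MP_1a91b9_ntQ.B.FinBTF

/-!
# The main statement over `ℚ(i)`
-/

set_option autoImplicit false
set_option linter.unusedSectionVars false

namespace Pool.Agent.Lib.MP_1a91b9_ntI

open NumberField
open Pool.Agent.Lib.MP_1a91b9_ntS (BSDMod)
open Pool.Agent.Lib.MP_1a91b9_ntQ (main_BTF)

noncomputable section

theorem finrank4 : Module.finrank ℚ (CyclotomicField 4 ℚ) = 2 := finK4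

/-- there is a prime whose fourth power divides four -/
theorem exists_four [IsPrincipalIdealRing (𝓞 (CyclotomicField 4 ℚ))] {i : 𝓞 (CyclotomicField 4 ℚ)}
    (hi : i ^ 2 = -1) : ∃ p : 𝓞 (CyclotomicField 4 ℚ), Prime p ∧ p ^ 4 ∣ 4 := by
  have h4 : (1 + i) ^ 4 = -4 := by
    linear_combination (i ^ 2 + 4 * i + 5) * hi
  have h2 : (1 + i) ^ 2 = 2 * i := by
    linear_combination hi
  have hnu : ¬ IsUnit (1 + i) := by
    intro h
    have h5 : IsUnit (2 * i) := by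
      rw [← h2]
      exact h.pow 2
    have h6 := (isUnit_of_mul_isUnit_left h5).map (Algebra.norm ℤ)
    have h3 := norm_int finrank4 2
    push_cast at h3
    rw [h3] at h6
    have h7 := Int.isUnit_iff.1 h6
    norm_num at h7
  have h0 : (1 + i) ≠ 0 := by
    intro h
    rw [h] at h4
    norm_num at h4
  obtain ⟨p, hp, hpd⟩ := WfDvdMonoid.exists_irreducible_factor hnu h0
  refine ⟨p, hp.prime, ?_⟩
  have h5 : p ^ 4 ∣ (1 + i) ^ 4 := pow_dvd_pow_of_dvd hpd 4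
  rw [h4, dvd_neg] at h5
  exact h5

/-- **The main statement over `ℚ(i)`.** -/
theorem tp4 [IsPrincipalIdealRing (𝓞 (CyclotomicField 4 ℚ))] {i : 𝓞 (CyclotomicField 4 ℚ)}
    (hi : i ^ 2 = -1) :
    TP (CyclotomicField 4 ℚ) 4 0 (-1) (∏' i : ℕ, (1 + 1 / (2 : ℝ) ^ (i + 1))⁻¹) := by
  have hF : ∀ D : 𝓞 (CyclotomicField 4 ℚ), Fr (CyclotomicField 4 ℚ) 4 D ↔
      ∀ z : 𝓞 (CyclotomicField 4 ℚ), z ^ 4 ∣ D → IsUnit z := fun D => Fr_four finrank4
  obtain ⟨p, hp, hp4⟩ := exists_four hi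
  obtain ⟨q, h1, h2⟩ := main_BTF
  refine ⟨q, fun D hD => h1 D ((hF D).1 hD) _ (cW_i D), fun n m u hm hu => ?_⟩
  have h3 : ¬ (4 ∣ m ∧ 4 ∣ u) := by
    rintro ⟨ha, hb⟩
    exact hu p hp ⟨hp4.trans ha, hp4.trans hb⟩
  have key := h2 n m u hm h3
  simp only [hF]
  exact key

end

end Pool.Agent.Lib.MP_1a91b9_ntI
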