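import Pool.Agent.Lib.MP_1a91b9_ntI.Cls
import Pool.Agent.Lib.MP_1a91b9_ntW.Q.MainW

/-!
# The main statement over `ℚ(√-2)`
-/

set_option autoImplicit false
set_option linter.unusedSectionVars false

namespace Pool.Agent.Lib.MP_1a91b9_ntI

open NumberField
open Pool.Agent.Lib.MP_1a91b9_ntS (BSDMod)
open Pool.Agent.Lib.MP_1a91b9_ntW (K8 lam lam_sq lam_prime main_W)

noncomputable section

theorem finrank8 : Module.finrank ℚ K8 = 2 := Pool.Agent.Lib.MP_1a91b9_ntW.T.finrank_K8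

/-- **The main statement over `ℚ(√-2)`.** -/
theorem tp8 : TP K8 2 4 2 (∏' i : ℕ, (1 + 1 / (2 : ℝ) ^ (i + 1))⁻¹) := by
  have hF : ∀ D : 𝓞 K8, Fr K8 2 D ↔ Squarefree D := fun D => Fr_two finrank8
  obtain ⟨q, h1, h2⟩ := main_W
  refine ⟨q, fun D hD => h1 D ((hF D).1 hD) _ (cW_s D), fun n m u hm hu => ?_⟩
  have h3 : ¬ (2 ∣ m ∧ 2 ∣ u) := by
    rintro ⟨ha, hb⟩
    have h4 : lam ^ 2 ∣ 2 := by
      rw [lam_sq]
      exact (neg_dvd).2 (dvd_refl _)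
    exact hu lam lam_prime ⟨h4.trans ha, h4.trans hb⟩
  have key := h2 n m u hm h3
  simp only [hF]
  exact key

end

end Pool.Agent.Lib.MP_1a91b9_ntI
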