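import Pool.Agent.Lib.MP_1a91b9_ntI.Main4
import Pool.Agent.Lib.MP_1a91b9_ntI.Tp3
import Pool.Agent.Lib.MP_1a91b9_ntI.Tp4
import Pool.Agent.Lib.MP_1a91b9_ntI.Tp8
import Pool.Agent.Lib.MP_1a91b9_ntV.Q.MainV

/-!
# The four fields: the final form
-/

set_option autoImplicit false
set_option linter.unusedSectionVars false

namespace Pool.Agent.Lib.MP_1a91b9_ntI

open NumberField WeierstrassCurve
open Pool.Agent.Lib.MP_1a91b9_ntS (BSDMod)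
open Pool.Agent.Lib.MP_1a91b9_ntV (tp7)

noncomputable section

theorem tp4a : TP (CyclotomicField 4 ℚ) 4 0 (-1) (∏' i : ℕ, (1 + 1 / (2 : ℝ) ^ (i + 1))⁻¹) := by
  have hp := pirK4
  obtain ⟨i, hi⟩ := exists_i4
  exact tp4 hi

/-- **The final form.** -/
theorem main_all (K : Type) [Field K] [NumberField K] (h2 : Module.finrank ℚ K = 2) :
    ((∃ W : WeierstrassCurve K, CM2 W) ↔ discr K < 0 ∧ -8 ≤ discr K) ∧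
    (discr K < 0 → -8 ≤ discr K → ∃ (s a b : 𝓞 K) (w : ℕ) (c : ℝ) (q : 𝓞 K → ℚ),
      (s ^ 2 = -1 ∧ w = 4 ∧ a = 0 ∧ b = -1 ∨ s ^ 2 = -2 ∧ w = 2 ∧ a = 4 ∧ b = 2 ∨
        s ^ 2 = s - 2 ∧ w = 2 ∧ a = 1 + (1 - s) ^ 4 ∧ b = (1 - s) ^ 4 ∨
        s ^ 2 = s - 1 ∧ w = 2 ∧ a = -3 ∧ b = 3) ∧
      (Prime (2 : 𝓞 K) → c = ∏' i : ℕ, (1 + 1 / (2 : ℝ) ^ (2 * i + 1))⁻¹) ∧
      (¬ Prime (2 : 𝓞 K) → Squarefree (2 : 𝓞 K) → c = ∏' i : ℕ, (1 - 1 / (2 : ℝ) ^ (i + 1))) ∧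
      (¬ Squarefree (2 : 𝓞 K) → c = ∏' i : ℕ, (1 + 1 / (2 : ℝ) ^ (i + 1))⁻¹) ∧
      (∀ W : WeierstrassCurve K, CM2 W ↔
        ∃ D : 𝓞 K, Fr K w D ∧ ∃ C : VariableChange K, C • W = cW K w a b D) ∧
      (∀ D D' : 𝓞 K, Fr K w D → Fr K w D' →
        ((∃ C : VariableChange K, C • cW K w a b D = cW K w a b D') ↔
          ∃ u : 𝓞 K, IsUnit u ∧ D' = u ^ w * D)) ∧
      (∀ (D : 𝓞 K) (W : WeierstrassCurve K) (C : VariableChange K), Fr K w D →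
        C • W = cW K w a b D → BSDMod 2 W (q D)) ∧
      ∀ (n : ℕ) (m u : 𝓞 K), m ∣ 2 ^ n → (∀ p : 𝓞 K, Prime p → ¬ (p ^ w ∣ m ∧ p ^ w ∣ u)) →
        Filter.Tendsto (fun X : ℝ =>
          (Nat.card {D : 𝓞 K // Fr K w D ∧ m ∣ D - u ∧ |Algebra.norm ℤ D| ≤ X ∧
            ¬ 2 ∣ (q D).num} : ℝ) /
          (Nat.card {D : 𝓞 K // Fr K w D ∧ m ∣ D - u ∧ |Algebra.norm ℤ D| ≤ X} : ℝ))
          Filter.atTop (nhds c)) :=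
  main4_of tp4a tp8 tp7 tp3 K h2

end

end Pool.Agent.Lib.MP_1a91b9_ntI
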