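import Pool.Agent.Lib.MP_1a91b9_ntI.IsoQ
import Pool.Agent.Lib.MP_1a91b9_ntW.R.Arith8
import Pool.Agent.Lib.MP_1a91b9_ntV.L.Cd7
import Pool.Agent.Lib.MP_1a91b9_ntQ.Base

/-!
# The three imaginary quadratic fields in which `2` is the norm of an element
-/

set_option autoImplicit false
set_option linter.unusedSectionVars false

namespace Pool.Agent.Lib.MP_1a91b9_ntI

open NumberField
open Pool.Agent.Lib.MP_1a91b9_ntW (K8)
open Pool.Agent.Lib.MP_1a91b9_ntV (K7 t7 t7_sq gen7)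
open Pool.Agent.Lib.MP_1a91b9_ntQ (K4 iO iO_sq)

section

variable {K : Type*} [Field K] [NumberField K]

theorem isEmpty_of {θ : 𝓞 K} {a b : ℤ} (hθ : θ ^ 2 = (a : 𝓞 K) * θ - (b : 𝓞 K))
    (hd : a ^ 2 < 4 * b) : IsEmpty (K →+* ℝ) := by
  constructor
  intro φ
  have h1 : ((θ : K)) ^ 2 = (a : K) * θ - (b : K) := by
    have h := congrArg (algebraMap (𝓞 K) K) hθ
    rw [map_pow, map_sub, map_mul, map_intCast, map_intCast] at h
    exact h
  have h2 := congrArg φ h1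
  rw [map_pow, map_sub, map_mul, map_intCast, map_intCast] at h2
  have h3 : ((a : ℝ)) ^ 2 < 4 * b := by exact_mod_cast hd
  nlinarith [sq_nonneg (2 * φ (θ : K) - a)]

theorem finrank_of {θ : 𝓞 K} {a b : ℤ} (hθ : θ ^ 2 = (a : 𝓞 K) * θ - (b : 𝓞 K))
    (hd : a ^ 2 < 4 * b) (hg : ∀ x : 𝓞 K, ∃ m n : ℤ, x = (m : 𝓞 K) + (n : 𝓞 K) * θ) :
    Module.finrank ℚ K = 2 := by
  have hli : LinearIndependent ℤ ![(1 : 𝓞 K), θ] := by
    rw [LinearIndependent.pair_iff]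
    intro m n h
    rw [zsmul_eq_mul, zsmul_eq_mul, mul_one] at h
    have h1 : ((m ^ 2 + a * m * n + b * n ^ 2 : ℤ) : 𝓞 K) = 0 := by
      push_cast
      linear_combination ((m : 𝓞 K) + a * n - n * θ) * h + (n : 𝓞 K) ^ 2 * hθ
    have h2 : m ^ 2 + a * m * n + b * n ^ 2 = 0 := by exact_mod_cast h1
    have h3 : (2 * m + a * n) ^ 2 + (4 * b - a ^ 2) * n ^ 2 = 0 := by linear_combination 4 * h2
    have h4 : n = 0 := by
      by_contra hn
      have h5 : 0 < n ^ 2 := by positivity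
      have h6 : 0 < (4 * b - a ^ 2) * n ^ 2 := mul_pos (by linarith) h5
      nlinarith [sq_nonneg (2 * m + a * n)]
    subst h4
    have h5 : m ^ 2 = 0 := by linear_combination h2
    exact ⟨pow_eq_zero_iff (two_ne_zero) |>.1 h5, rfl⟩
  have hsp : ⊤ ≤ Submodule.span ℤ (Set.range ![(1 : 𝓞 K), θ]) := by
    intro x _
    obtain ⟨m, n, rfl⟩ := hg x
    have e0 : (1 : 𝓞 K) ∈ Submodule.span ℤ (Set.range ![(1 : 𝓞 K), θ]) :=
      Submodule.subset_span ⟨0, rfl⟩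
    have e1 : θ ∈ Submodule.span ℤ (Set.range ![(1 : 𝓞 K), θ]) :=
      Submodule.subset_span ⟨1, rfl⟩
    have h := Submodule.add_mem _ (Submodule.smul_mem _ m e0) (Submodule.smul_mem _ n e1)
    rw [zsmul_eq_mul, zsmul_eq_mul, mul_one] at h
    exact h
  rw [← RingOfIntegers.rank K, Module.finrank_eq_card_basis (Module.Basis.mk hli hsp)]
  rfl

end

/-! ### The field `ℚ(√-2)` -/

theorem lam_quad : (Pool.Agent.Lib.MP_1a91b9_ntW.lam) ^ 2 =
    ((0 : ℤ) : 𝓞 K8) * Pool.Agent.Lib.MP_1a91b9_ntW.lam - ((2 : ℤ) : 𝓞 K8) := by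
  rw [Pool.Agent.Lib.MP_1a91b9_ntW.lam_sq]
  push_cast
  ring

theorem finK8 : Module.finrank ℚ K8 = 2 :=
  finrank_of lam_quad (by norm_num) Pool.Agent.Lib.MP_1a91b9_ntW.gen8

theorem empK8 : IsEmpty (K8 →+* ℝ) := isEmpty_of lam_quad (by norm_num)

theorem pirK8 : IsPrincipalIdealRing (𝓞 K8) := inferInstance

/-! ### The field `ℚ(√-7)` -/

theorem t7_quad : t7 ^ 2 = ((1 : ℤ) : 𝓞 K7) * t7 - ((2 : ℤ) : 𝓞 K7) := by
  rw [t7_sq]
  push_cast
  ring

theorem finK7 : Module.finrank ℚ K7 = 2 := finrank_of t7_quad (by norm_num) gen7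

theorem empK7 : IsEmpty (K7 →+* ℝ) := isEmpty_of t7_quad (by norm_num)

theorem pirK7 : IsPrincipalIdealRing (𝓞 K7) := inferInstance

/-! ### The field `ℚ(i)` -/

theorem finK4' : Module.finrank ℚ K4 = 2 := by
  rw [IsCyclotomicExtension.finrank (n := 4) (K := ℚ) K4
    (Polynomial.cyclotomic.irreducible_rat (by norm_num))]
  decide

theorem finK4 : Module.finrank ℚ (CyclotomicField 4 ℚ) = 2 := by
  have h : ∀ i : Algebra ℚ (CyclotomicField 4 ℚ),
      @Module.finrank ℚ (CyclotomicField 4 ℚ) _ _ i.toModule = 2 := by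
    intro i
    have e : i = (DivisionRing.toRatAlgebra : Algebra ℚ K4) := Subsingleton.elim _ _
    rw [e]
    exact finK4'
  exact h _

theorem pirK4 : IsPrincipalIdealRing (𝓞 (CyclotomicField 4 ℚ)) :=
  Pool.Agent.Lib.MP_1a91b9_ntQ.pidK4

/-- the imaginary unit -/
theorem exists_i4 : ∃ i : 𝓞 (CyclotomicField 4 ℚ), i ^ 2 = -1 :=
  ⟨iO, iO_sq⟩

theorem empK4' : IsEmpty (K4 →+* ℝ) := by
  refine isEmpty_of (θ := iO) (a := 0) (b := 1) ?_ (by norm_num)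
  rw [iO_sq]
  push_cast
  ring

theorem empK4 : IsEmpty (CyclotomicField 4 ℚ →+* ℝ) := empK4'

/-! ### The isomorphisms -/

section

variable {K : Type*} [Field K] [NumberField K]

theorem coe_sq {x : 𝓞 K} {a : ℤ} (h : x ^ 2 = a) : ((x : K)) ^ 2 = a := by
  have h1 := congrArg (algebraMap (𝓞 K) K) h
  rw [map_pow, map_intCast] at h1
  exact h1

theorem coe_th {x : 𝓞 K} (h : x ^ 2 = x - 2) : ((x : K)) ^ 2 = (x : K) - 2 := by
  have h2 := congrArg (algebraMap (𝓞 K) K) h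
  rw [map_pow, map_sub, map_ofNat] at h2
  exact h2

theorem iso_i' (hK : Module.finrank ℚ K = 2) {i : 𝓞 K} (hi : i ^ 2 = -1) :
    ∃ e : K4 ≃+* K, e (iO : K4) = (i : K) := by
  exact iso_sq finK4' hK (a := -1)
    (coe_sq (by rw [iO_sq]; push_cast; rfl)) (coe_sq (by rw [hi]; push_cast; rfl)) ns1

theorem iso_i (hK : Module.finrank ℚ K = 2) {i : 𝓞 K} (hi : i ^ 2 = -1) :
    Nonempty (CyclotomicField 4 ℚ ≃+* K) := by
  obtain ⟨e, -⟩ := iso_i' hK hi
  exact ⟨e⟩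

theorem iso_s (hK : Module.finrank ℚ K = 2) {s : 𝓞 K} (hs : s ^ 2 = -2) :
    ∃ e : K8 ≃+* K, e (Pool.Agent.Lib.MP_1a91b9_ntW.lam : K8) = (s : K) := by
  exact iso_sq finK8 hK (a := -2)
    (coe_sq (by rw [Pool.Agent.Lib.MP_1a91b9_ntW.lam_sq]; push_cast; rfl))
    (coe_sq (by rw [hs]; push_cast; rfl)) ns2

theorem iso_t (hK : Module.finrank ℚ K = 2) {θ : 𝓞 K} (hθ : θ ^ 2 = θ - 2) :
    ∃ e : K7 ≃+* K, e (t7 : K7) = (θ : K) := by
  exact iso_th finK7 hK (coe_th t7_sq) (coe_th hθ)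

/-! ### The number `2` -/

theorem not_unit_two (hK : Module.finrank ℚ K = 2) : ¬ IsUnit (2 : 𝓞 K) := by
  intro h
  have h1 := h.map (Algebra.norm ℤ)
  have h2 := norm_int hK 2
  push_cast at h2
  rw [h2] at h1
  rcases Int.isUnit_iff.1 h1 with h3 | h3 <;> norm_num at h3

theorem nsf_i (hK : Module.finrank ℚ K = 2) {i : 𝓞 K} (hi : i ^ 2 = -1) :
    ¬ Squarefree (2 : 𝓞 K) := by
  intro h
  have h1 : (2 : 𝓞 K) = (1 + i) * (1 + i) * (-i) := by linear_combination (2 + i) * hi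
  have h2 := h (1 + i) ⟨-i, h1⟩
  apply not_unit_two hK
  rw [h1]
  exact (h2.mul h2).mul (IsUnit.of_mul_eq_one i (by linear_combination -hi))

theorem nsf_s (hK : Module.finrank ℚ K = 2) {s : 𝓞 K} (hs : s ^ 2 = -2) :
    ¬ Squarefree (2 : 𝓞 K) := by
  intro h
  have h1 : (2 : 𝓞 K) = s * s * (-1) := by linear_combination hs
  have h2 := h s ⟨-1, h1⟩
  apply not_unit_two hK
  rw [h1]
  exact (h2.mul h2).mul isUnit_one.neg

theorem sf_t (hK : Module.finrank ℚ K = 2) (hr : IsEmpty (K →+* ℝ)) {θ : 𝓞 K}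
    (hθ : θ ^ 2 = θ - 2) : Squarefree (2 : 𝓞 K) := by
  have hθK : ((θ : K)) ^ 2 = (θ : K) - 2 := coe_th hθ
  intro x hx
  obtain ⟨c, hc⟩ := hx
  have h1 := congrArg (Algebra.norm ℤ) hc
  have h2 := norm_int hK 2
  push_cast at h2
  rw [h2, map_mul, map_mul] at h1
  obtain ⟨t, ht⟩ := quad hK x
  obtain ⟨t', ht'⟩ := quad hK c
  obtain ⟨n, hn⟩ : ∃ n, n = Algebra.norm ℤ x := ⟨_, rfl⟩
  obtain ⟨k, hk⟩ : ∃ k, k = Algebra.norm ℤ c := ⟨_, rfl⟩
  rw [← hn] at h1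
  rw [← hk] at h1
  have h3 : n ∣ 4 := ⟨n * k, by linear_combination h1⟩
  have h4 : n ≤ 4 := Int.le_of_dvd (by norm_num) h3
  have h5 : -4 ≤ n := by
    have h := Int.le_of_dvd (by norm_num) ((neg_dvd).2 h3)
    omega
  have h6 : n = 1 ∨ n = -1 ∨ ((n = 2 ∨ n = -2) ∧ k = 1) := by
    interval_cases n <;> omega
  rcases h6 with h7 | h7 | ⟨-, h7⟩
  · exact unit_of_norm ht (Or.inl (hn.symm.trans h7))
  · exact unit_of_norm ht (Or.inr (hn.symm.trans h7))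
  · exfalso
    have hu := unit_of_norm ht' (Or.inl (hk.symm.trans h7))
    rcases units_t hK hr hθK hu with h8 | h8
    · rw [h8] at hc
      have h9 : ((x : K)) ^ 2 = (2 : ℤ) := coe_sq (by push_cast; linear_combination -hc)
      have h10 := neg_of_sq hK hr h9 (by
        rintro ⟨r, hr⟩
        have : r ≤ 1 := by nlinarith
        have : -1 ≤ r := by nlinarith
        interval_cases r <;> omega)
      omega
    · rw [h8] at hc
      have h9 : ((x : K)) ^ 2 = (-2 : ℤ) := coe_sq (by push_cast; linear_combination hc)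
      exact excl2 hK (x := (x : K)) (y := 2 * (θ : K) - 1) (by rw [h9]; push_cast; rfl) (th7 hθK)

end

end Pool.Agent.Lib.MP_1a91b9_ntI
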