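import Pool.Agent.Lib.MP_1a91b9_ntI.Core4
import Pool.Agent.Lib.MP_1a91b9_ntI.Ex2

/-!
# The four fields: the final form
-/

set_option autoImplicit false
set_option linter.unusedSectionVars false

namespace Pool.Agent.Lib.MP_1a91b9_ntI

open NumberField WeierstrassCurve
open Pool.Agent.Lib.MP_1a91b9_ntS (BSDMod)
open Pool.Agent.Lib.MP_1a91b9_ntW (K8)
open Pool.Agent.Lib.MP_1a91b9_ntV (K7 t7)

noncomputable section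

/-- **The final form, from the four statements.** -/
theorem main4_of {c₁ c₂ c₄ : ℝ} (T4 : TP (CyclotomicField 4 ℚ) 4 0 (-1) c₂) (T8 : TP K8 2 4 2 c₂)
    (T7 : TP K7 2 (1 + (1 - t7) ^ 4) ((1 - t7) ^ 4) c₁)
    (T3 : TP Pool.Agent.Lib.MP_1a91b9_ntT.K 2 (-3) 3 c₄)
    (K : Type) [Field K] [NumberField K] (h2 : Module.finrank ℚ K = 2) :
    ((∃ W : WeierstrassCurve K, CM2 W) ↔ discr K < 0 ∧ -8 ≤ discr K) ∧
    (discr K < 0 → -8 ≤ discr K → ∃ (s a b : 𝓞 K) (w : ℕ) (c : ℝ) (q : 𝓞 K → ℚ),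
      (s ^ 2 = -1 ∧ w = 4 ∧ a = 0 ∧ b = -1 ∨ s ^ 2 = -2 ∧ w = 2 ∧ a = 4 ∧ b = 2 ∨
        s ^ 2 = s - 2 ∧ w = 2 ∧ a = 1 + (1 - s) ^ 4 ∧ b = (1 - s) ^ 4 ∨
        s ^ 2 = s - 1 ∧ w = 2 ∧ a = -3 ∧ b = 3) ∧
      (Prime (2 : 𝓞 K) → c = c₄) ∧
      (¬ Prime (2 : 𝓞 K) → Squarefree (2 : 𝓞 K) → c = c₁) ∧
      (¬ Squarefree (2 : 𝓞 K) → c = c₂) ∧
      (∀ W : WeierstrassCurve K, CM2 W ↔
        ∃ D : 𝓞 K, Fr K w D ∧ ∃ C : VariableChange K, C • W = cW K w a b D) ∧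
      (∀ D D' : 𝓞 K, Fr K w D → Fr K w D' →
        ((∃ C : VariableChange K, C • cW K w a b D = cW K w a b D') ↔
          ∃ u : 𝓞 K, IsUnit u ∧ D' = u ^ w * D)) ∧
      (∀ (D : 𝓞 K) (W : WeierstrassCurve K) (C : VariableChange K), Fr K w D →
        C • W = cW K w a b D → BSDMod 2 W (q D)) ∧
      ∀ (n : ℕ) (m u : 𝓞 K), m ∣ 2 ^ n → (∀ p : 𝓞 K, Prime p → ¬ (p ^ w ∣ m ∧ p ^ w ∣ u)) →
        Filter.Tendsto (fun X : ℝ =>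
          (Nat.card {D : 𝓞 K // Fr K w D ∧ m ∣ D - u ∧ |Algebra.norm ℤ D| ≤ X ∧
            ¬ 2 ∣ (q D).num} : ℝ) /
          (Nat.card {D : 𝓞 K // Fr K w D ∧ m ∣ D - u ∧ |Algebra.norm ℤ D| ≤ X} : ℝ))
          Filter.atTop (nhds c)) := by
  refine ⟨ex_iff h2, fun h0 h8 => ?_⟩
  obtain ⟨hr, -, x, hx | hx | hx | hx⟩ := four_fields h2 h0 h8
  · obtain ⟨q, h⟩ := four_i h2 hx T4
    exact ⟨x, 0, -1, 4, c₂, q, Or.inl ⟨hx, rfl, rfl, rfl⟩, fun h1 => (np_i h2 hx h1).elim,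
      fun _ h1 => (nsf_i h2 hx h1).elim, fun _ => rfl, h⟩
  · obtain ⟨q, h⟩ := four_s h2 hx T8
    exact ⟨x, 4, 2, 2, c₂, q, Or.inr (Or.inl ⟨hx, rfl, rfl, rfl⟩),
      fun h1 => (np_s h2 hx h1).elim, fun _ h1 => (nsf_s h2 hx h1).elim, fun _ => rfl, h⟩
  · obtain ⟨q, h⟩ := four_t h2 hx T7
    exact ⟨x, _, _, 2, c₁, q, Or.inr (Or.inr (Or.inl ⟨hx, rfl, rfl, rfl⟩)),
      fun h1 => (np_t h2 hx h1).elim, fun _ _ => rfl, fun h1 => (h1 (sf_t h2 hr hx)).elim, h⟩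
  · obtain ⟨q, h⟩ := four_w h2 hx T3
    exact ⟨x, -3, 3, 2, c₄, q, Or.inr (Or.inr (Or.inr ⟨hx, rfl, rfl, rfl⟩)), fun _ => rfl,
      fun h1 => (h1 (prime_w h2 hx)).elim,
      fun h1 => (h1 (prime_w h2 hx).irreducible.squarefree).elim, h⟩

end

end Pool.Agent.Lib.MP_1a91b9_ntI
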