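import Pool.Agent.Lib.MP_1a91b9_nuI.Pe.PerV
import Pool.Agent.Lib.MP_1a91b9_ntT.S9.Defs
import Pool.Agent.Lib.MP_1a91b9_ntQ.Base

/-!
# The period of a Weierstrass curve over a number field does not depend on the equation
-/

set_option autoImplicit false
set_option linter.unusedSectionVars false

namespace Pool.Agent.Lib.MP_1a91b9_ntI

open NumberField IsDedekindDomain WeierstrassCurve
open Pool.Agent.Lib.MP_1a91b9_ntT.S9 (period normFactor minChange)
open Pool.Agent.Lib.MP_1a91b9_ntT.Per (perAt)

variable {N : Type*} [Field N] [NumberField N]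

theorem nf_eq (W : WeierstrassCurve N) (v : HeightOneSpectrum (𝓞 N)) :
    normFactor W v = Pool.Agent.Lib.MP_1a91b9_nuT.S9.normFactor W v := rfl

theorem perAt_eq (W : WeierstrassCurve N) (v : InfinitePlace N) :
    perAt W v = Pool.Agent.Lib.MP_1a91b9_nuT.Per.perAt W v := rfl

theorem period_eq (W : WeierstrassCurve N) :
    period W = Pool.Agent.Lib.MP_1a91b9_nuT.S9.period W := rfl

/-- **The period is invariant.** -/
theorem period_vc (W : WeierstrassCurve N) (hD : W.Δ ≠ 0) (C : VariableChange N) :
    period (C • W) = period W := by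
  rw [period_eq, period_eq]
  exact Pool.Agent.Lib.MP_1a91b9_nuI.period_vc W hD C

end Pool.Agent.Lib.MP_1a91b9_ntI
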