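import Pool.Agent.Lib.MP_1a91b9_nuI.Ho.Isg
import Pool.Agent.Lib.MP_1a91b9_ntT3.S9.Defs

/-!
# The points and the Tate-Shafarevich group do not depend on the equation
-/

set_option autoImplicit false
set_option linter.unusedSectionVars false

namespace Pool.Agent.Lib.MP_1a91b9_ntI

open NumberField IsDedekindDomain WeierstrassCurve
open Pool.Agent.Lib.MP_1a91b9_ntT.S9 (Gal Pts coc cob trivOver shaCoc Sha)
open Pool.Agent.Lib.MP_1a91b9_ntT3.S9 (ShaP)
open Pool.Agent.Lib.MP_1a91b9_nuI (Isg)
open scoped Classical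

universe u

/-- **The group of points is invariant.** -/
theorem pts_vc {k : Type*} [Field k] (W : WeierstrassCurve k) (C : VariableChange k) :
    Nonempty ((C • W).toAffine.Point ≃+ W.toAffine.Point) := by
  obtain ⟨e, -⟩ := Pool.Agent.Lib.MP_1a91b9_nt.exists_point_equiv W C
  exact ⟨e⟩

section

variable {k : Type u} [Field k] {W W' : WeierstrassCurve k} (a : Isg W' W 1)

/-- the bijection on the points over an algebraically closed extension -/
noncomputable def isoPt (L : Type u) [Field L] [Algebra k L] [IsAlgClosed L] :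
    Pts W' L ≃+ Pts W L :=
  AddEquiv.ofBijective (a.f L) ⟨(injective_iff_map_eq_zero (a.f L)).2 fun P hP => by
    have h := a.ker L P hP
    rwa [one_nsmul] at h, a.surj L⟩

theorem isoPt_map (L L' : Type u) [Field L] [Algebra k L] [IsAlgClosed L] [Field L'] [Algebra k L']
    [IsAlgClosed L'] (i : L →ₐ[k] L') (P : Pts W' L) :
    isoPt a L' (Affine.Point.map i P) = Affine.Point.map i (isoPt a L P) :=
  a.nat L L' i P

theorem isoPt_symm_map (L L' : Type u) [Field L] [Algebra k L] [IsAlgClosed L] [Field L']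
    [Algebra k L'] [IsAlgClosed L'] (i : L →ₐ[k] L') (P : Pts W L) :
    (isoPt a L').symm (Affine.Point.map i P) = Affine.Point.map i ((isoPt a L).symm P) := by
  rw [AddEquiv.symm_apply_eq, isoPt_map, AddEquiv.apply_symm_apply]

theorem coc_iso (c : Gal k → Pts W' (AlgebraicClosure k)) :
    (fun σ => isoPt a (AlgebraicClosure k) (c σ)) ∈ coc W ↔ c ∈ coc W' := by
  constructor
  · rintro ⟨h1, h2⟩
    refine ⟨?_, fun σ τ => ?_⟩
    · have h3 := h1.comp (isoPt a (AlgebraicClosure k)).symm
      have e : (isoPt a (AlgebraicClosure k)).symm ∘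
          (fun σ => isoPt a (AlgebraicClosure k) (c σ)) = c := by
        funext σ
        exact AddEquiv.symm_apply_apply _ _
      rwa [e] at h3
    · apply (isoPt a (AlgebraicClosure k)).injective
      rw [map_add, isoPt_map]
      exact h2 σ τ
  · rintro ⟨h1, h2⟩
    refine ⟨h1.comp _, fun σ τ => ?_⟩
    show isoPt a _ (c (σ * τ)) = isoPt a _ (c σ) +
      Affine.Point.map (σ : AlgebraicClosure k →ₐ[k] _) (isoPt a _ (c τ))
    rw [h2, map_add, isoPt_map]

theorem cob_iso (c : Gal k → Pts W' (AlgebraicClosure k)) :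
    (fun σ => isoPt a (AlgebraicClosure k) (c σ)) ∈ cob W ↔ c ∈ cob W' := by
  constructor
  · rintro ⟨Q, hQ⟩
    refine ⟨(isoPt a _).symm Q, fun σ => ?_⟩
    apply (isoPt a (AlgebraicClosure k)).injective
    rw [map_sub, isoPt_map, AddEquiv.apply_symm_apply]
    exact hQ σ
  · rintro ⟨P, hP⟩
    refine ⟨isoPt a _ P, fun σ => ?_⟩
    show isoPt a _ (c σ) = _
    rw [hP, map_sub, isoPt_map]

theorem triv_iso (L : Type u) [Field L] [Algebra k L] (c : Gal k → Pts W' (AlgebraicClosure k)) :
    (fun σ => isoPt a (AlgebraicClosure k) (c σ)) ∈ trivOver W L ↔ c ∈ trivOver W' L := by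
  constructor
  · intro h i
    obtain ⟨Q, hQ⟩ := h i
    refine ⟨(isoPt a _).symm Q, fun σ τ hστ => ?_⟩
    apply (isoPt a (AlgebraicClosure L)).injective
    rw [isoPt_map, map_sub, isoPt_map, AddEquiv.apply_symm_apply]
    exact hQ σ τ hστ
  · intro h i
    obtain ⟨P, hP⟩ := h i
    refine ⟨isoPt a _ P, fun σ τ hστ => ?_⟩
    show Affine.Point.map i (isoPt a _ (c τ)) = _
    rw [← isoPt_map, hP σ τ hστ, map_sub, isoPt_map]

end

section

variable {N : Type u} [Field N] [NumberField N] {W W' : WeierstrassCurve N} (a : Isg W' W 1)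

theorem sha_iso (c : Gal N → Pts W' (AlgebraicClosure N)) :
    (fun σ => isoPt a (AlgebraicClosure N) (c σ)) ∈ shaCoc W ↔ c ∈ shaCoc W' := by
  unfold shaCoc
  simp only [AddSubgroup.mem_inf, AddSubgroup.mem_iInf, coc_iso, triv_iso]

/-- the bijection on the locally trivial cocycles -/
noncomputable def cocE : shaCoc W' ≃+ shaCoc W where
  toFun c := ⟨fun σ => isoPt a (AlgebraicClosure N) (c.1 σ), (sha_iso a c.1).2 c.2⟩
  invFun c := ⟨fun σ => (isoPt a (AlgebraicClosure N)).symm (c.1 σ), (sha_iso a _).1 (by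
    have e : (fun σ => isoPt a (AlgebraicClosure N)
        ((isoPt a (AlgebraicClosure N)).symm (c.1 σ))) = c.1 := by
      funext σ
      exact AddEquiv.apply_symm_apply _ _
    rw [e]
    exact c.2)⟩
  left_inv c := by
    apply Subtype.ext
    funext σ
    exact AddEquiv.symm_apply_apply _ _
  right_inv c := by
    apply Subtype.ext
    funext σ
    exact AddEquiv.apply_symm_apply _ _
  map_add' c d := by
    apply Subtype.ext
    funext σ
    exact map_add _ _ _

/-- the isomorphism of the Tate-Shafarevich groups -/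
noncomputable def shaE : Sha W' ≃+ Sha W :=
  QuotientAddGroup.congr _ _ (cocE a) (by
    ext c
    rw [AddSubgroup.mem_map]
    constructor
    · rintro ⟨d, hd, rfl⟩
      rw [AddSubgroup.mem_addSubgroupOf] at hd ⊢
      exact (cob_iso a d.1).2 hd
    · intro hc
      rw [AddSubgroup.mem_addSubgroupOf] at hc
      refine ⟨(cocE a).symm c, ?_, AddEquiv.apply_symm_apply _ _⟩
      rw [AddSubgroup.mem_addSubgroupOf]
      have h1 : (fun σ => isoPt a (AlgebraicClosure N) (((cocE a).symm c).1 σ)) = c.1 :=
        congrArg Subtype.val ((cocE a).apply_symm_apply c)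
      refine (cob_iso a _).1 ?_
      rw [h1]
      exact hc)

end

/-- an isomorphism carries the primary parts to each other -/
theorem card_prim_equiv {A B : Type*} [AddCommGroup A] [AddCommGroup B] (e : A ≃+ B) (p : ℕ)
    [Fact p.Prime] : Nat.card (AddCommGroup.primaryComponent A p) =
      Nat.card (AddCommGroup.primaryComponent B p) := by
  refine Nat.card_congr (e.toEquiv.subtypeEquiv fun x => ?_)
  show (∃ n : ℕ, p ^ n • x = 0) ↔ ∃ n : ℕ, p ^ n • (e x) = 0
  refine exists_congr fun n => ?_
  rw [← map_nsmul, map_eq_zero_iff e e.injective]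

/-- **The primary parts of the Tate-Shafarevich group are invariant.** -/
theorem shaP_vc {N : Type u} [Field N] [NumberField N] (p : ℕ) [Fact p.Prime]
    (W : WeierstrassCurve N) (C : VariableChange N) :
    Nat.card (ShaP p (C • W)) = Nat.card (ShaP p W) :=
  card_prim_equiv (shaE (Isg.ofChange C rfl)) p

/-- the primary parts of the group of points -/
theorem prim_vc {k : Type*} [Field k] (p : ℕ) [Fact p.Prime] (W : WeierstrassCurve k)
    (C : VariableChange k) :
    Nat.card (AddCommGroup.primaryComponent (C • W).toAffine.Point p) =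
      Nat.card (AddCommGroup.primaryComponent W.toAffine.Point p) := by
  obtain ⟨e⟩ := pts_vc W C
  exact card_prim_equiv e p

theorem fin_vc {k : Type*} [Field k] (W : WeierstrassCurve k) (C : VariableChange k) :
    Finite (C • W).toAffine.Point ↔ Finite W.toAffine.Point := by
  obtain ⟨e⟩ := pts_vc W C
  exact e.toEquiv.finite_iff

end Pool.Agent.Lib.MP_1a91b9_ntI
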