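import Pool.Agent.Lib.MP_1a91b9_ntW.T.TamC

/-!
# Tamagawa numbers do not change under a change of variables over the number field
-/

set_option autoImplicit false

namespace Pool.Agent.Lib.MP_1a91b9_ntI

open NumberField IsDedekindDomain WithZero WeierstrassCurve
open Pool.Agent.Lib.MP_1a91b9_ntT.S9 (tam nonsing minModel minChange minModel_isMinimal normFactor)
open Pool.Agent.Lib.MP_1a91b9_ntT.CT (min_int min_le)
open Pool.Agent.Lib.MP_1a91b9_ntH.C (nsSet nsG tam_def)
open Pool.Agent.Lib.MP_1a91b9_ntH.C.TamT (Itg index_smul Itg_bc)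
open Pool.Agent.Lib.MP_1a91b9_ntV.C (coef_gen)
open scoped Classical

variable {N : Type*} [Field N] [NumberField N] {v : HeightOneSpectrum (𝓞 N)}

/-- the scaling factor of a change between two minimal equations is a unit -/
theorem unit_of_min {M : WeierstrassCurve (v.adicCompletion N)}
    (hM : IsMinimal (v.adicCompletionIntegers N) M) (hΔ : M.Δ ≠ 0)
    {D : VariableChange (v.adicCompletion N)}
    (hD : IsMinimal (v.adicCompletionIntegers N) (D • M)) :
    Valued.v (D.u : v.adicCompletion N) = (1 : ℤᵐ⁰) := by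
  obtain ⟨I, hI⟩ := min_int _ hM
  obtain ⟨J, hJ⟩ := min_int _ hD
  have h1 := min_le M I hI D hD
  have h2 : Valued.v (D • M).Δ ≤ (Valued.v M.Δ : ℤᵐ⁰) := by
    have h3 := min_le (D • M) J hJ D⁻¹ (by rw [← mul_smul, inv_mul_cancel, one_smul]; exact hM)
    rwa [← mul_smul, inv_mul_cancel, one_smul] at h3
  have h4 := le_antisymm h1 h2
  rw [variableChange_Δ, Units.val_inv_eq_inv_val, map_mul, map_pow, map_inv₀] at h4
  have hD0 : (Valued.v M.Δ : ℤᵐ⁰) ≠ 0 := (Valuation.ne_zero_iff _).2 hΔ
  have h5 : ((Valued.v (D.u : v.adicCompletion N) : ℤᵐ⁰))⁻¹ ^ 12 = 1 :=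
    mul_right_cancel₀ hD0 (by rw [one_mul]; exact h4.symm)
  have h6 := (pow_eq_one_iff_of_nonneg (zero_le) (by norm_num : 12 ≠ 0)).1 h5
  exact inv_eq_one.1 h6

/-- two minimal equations have the same index -/
theorem index_of_min {M : WeierstrassCurve (v.adicCompletion N)}
    (hM : IsMinimal (v.adicCompletionIntegers N) M) (hΔ : M.Δ ≠ 0)
    {D : VariableChange (v.adicCompletion N)}
    (hD : IsMinimal (v.adicCompletionIntegers N) (D • M)) :
    (nsG (Valued.v : Valuation (v.adicCompletion N) ℤᵐ⁰) (D • M)).index =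
      (nsG (Valued.v : Valuation (v.adicCompletion N) ℤᵐ⁰) M).index := by
  have hu := unit_of_min hM hΔ hD
  have h1 := Itg_bc (min_int _ hM)
  have h2 := Itg_bc (min_int _ hD)
  obtain ⟨hr, hs, -⟩ := coef_gen h1 h2 hu
  exact index_smul h2 hu hr hs

theorem minModel_disc (W : WeierstrassCurve N) (hΔ : W.Δ ≠ 0) : (minModel W v).Δ ≠ 0 := by
  rw [minModel, variableChange_Δ]
  refine mul_ne_zero (pow_ne_zero _ (Units.ne_zero _)) ?_
  rw [WeierstrassCurve.baseChange, WeierstrassCurve.map_Δ]
  exact fun h => hΔ ((map_eq_zero_iff _ (algebraMap N (v.adicCompletion N)).injective).1 h)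

/-- the minimal model of the changed equation is a change of the minimal model -/
theorem minModel_smul (W : WeierstrassCurve N) (C : VariableChange N) :
    minModel (C • W) v = (minChange (C • W) v * C.map (algebraMap N (v.adicCompletion N)) *
      (minChange W v)⁻¹) • minModel W v := by
  rw [minModel, minModel, mul_smul, inv_smul_smul, mul_smul, WeierstrassCurve.baseChange,
    WeierstrassCurve.baseChange, WeierstrassCurve.map_variableChange]

/-- **The Tamagawa number** does not change under a change of variables. -/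
theorem tam_vc (W : WeierstrassCurve N) (hD : W.Δ ≠ 0) (C : VariableChange N)
    (v : HeightOneSpectrum (𝓞 N)) : tam (C • W) v = tam W v := by
  rw [tam_def, tam_def]
  have hm := minModel_isMinimal (C • W) v
  rw [minModel_smul W C] at hm ⊢
  exact index_of_min (minModel_isMinimal W v) (minModel_disc W hD) hm

/-- The scaling factors of the changes to the minimal model. -/
theorem minChange_vc (W : WeierstrassCurve N) (hD : W.Δ ≠ 0) (C : VariableChange N)
    (v : HeightOneSpectrum (𝓞 N)) :
    (Valued.v ((minChange (C • W) v).u : v.adicCompletion N) : ℤᵐ⁰) *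
      Valued.v (algebraMap N (v.adicCompletion N) C.u) =
      Valued.v ((minChange W v).u : v.adicCompletion N) := by
  have hm := minModel_isMinimal (C • W) v
  rw [minModel_smul W C] at hm
  have h1 := unit_of_min (minModel_isMinimal W v) (minModel_disc W hD) hm
  have h0 : (Valued.v ((minChange W v).u : v.adicCompletion N) : ℤᵐ⁰) ≠ 0 :=
    (Valuation.ne_zero_iff _).2 (Units.ne_zero _)
  rw [MP_1a91b9_ntW.T.u_mul_inv, map_mul, map_inv₀, mul_inv_eq_one₀ h0] at h1
  rw [← h1, VariableChange.mul_def]
  simp [VariableChange.map]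

end Pool.Agent.Lib.MP_1a91b9_ntI
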