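import Pool.Agent.Lib.MP_1a91b9_ntI.TrPl

/-!
# Transport along an isomorphism of number fields: the points and the Tate-Shafarevich group
-/

set_option autoImplicit false
set_option linter.unusedSectionVars false

namespace Pool.Agent.Lib.MP_1a91b9_ntI

open NumberField IsDedekindDomain WeierstrassCurve Topology
open Pool.Agent.Lib.MP_1a91b9_ntT.S9 (Gal Pts coc cob trivOver shaCoc Sha)
open Pool.Agent.Lib.MP_1a91b9_ntT3.S9 (ShaP)
open scoped Classical

noncomputable section

section Pt

variable {L L' : Type*} [Field L] [Field L']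

/-- The map `f` of the points is given by `φ` on the coordinates. -/
def Cov (φ : L → L') {M : WeierstrassCurve L} {M' : WeierstrassCurve L'}
    (f : M.toAffine.Point → M'.toAffine.Point) : Prop :=
  f 0 = 0 ∧ ∀ (x y : L) (h : M.toAffine.Nonsingular x y), ∃ h',
    f (Affine.Point.some x y h) = Affine.Point.some (φ x) (φ y) h'

/-- The points of a curve and of its image under an isomorphism of fields. -/
theorem exists_cov (φ : L ≃+* L') {M : WeierstrassCurve L} {M' : WeierstrassCurve L'}
    (hM : M' = M.map (φ : L →+* L')) : ∃ f : M.toAffine.Point ≃+ M'.toAffine.Point, Cov φ f := by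
  subst hM
  let : Algebra L L' := (φ : L →+* L').toAlgebra
  let g : M.toAffine.Point →+ (M.map (φ : L →+* L')).toAffine.Point :=
    Affine.Point.map (W' := M) (Algebra.ofId L L')
  have hinj : Function.Injective g := Affine.Point.map_injective (W' := M) (Algebra.ofId L L')
  have hsur : Function.Surjective g := by
    rintro (_ | ⟨x, y, h⟩)
    · exact ⟨0, rfl⟩
    · have hx : φ (φ.symm x) = x := φ.apply_symm_apply x
      have hy : φ (φ.symm y) = y := φ.apply_symm_apply y
      have hn := Affine.map_nonsingular (W := M.toAffine) (f := (φ : L →+* L')) φ.injective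
        (φ.symm x) (φ.symm y)
      have h0 : M.toAffine.Nonsingular (φ.symm x) (φ.symm y) := by
        refine hn.1 ?_
        simpa [hx, hy] using h
      refine ⟨Affine.Point.some _ _ h0, ?_⟩
      have : g (Affine.Point.some _ _ h0) = Affine.Point.some (φ (φ.symm x)) (φ (φ.symm y))
        (hn.2 h0) := rfl
      rw [this, Affine.Point.some.injEq]
      exact ⟨hx, hy⟩
  exact ⟨AddEquiv.ofBijective g ⟨hinj, hsur⟩, map_zero g, fun x y h => ⟨_, rfl⟩⟩

theorem Cov.symm {φ : L ≃+* L'} {M : WeierstrassCurve L} {M' : WeierstrassCurve L'}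
    {f : M.toAffine.Point ≃+ M'.toAffine.Point} (hf : Cov φ f) : Cov φ.symm f.symm := by
  refine ⟨map_zero f.symm, fun x y h => ?_⟩
  rcases hP : f.symm (Affine.Point.some x y h) with _ | ⟨x', y', h'⟩
  · exfalso
    have h1 := congrArg f hP
    rw [f.apply_symm_apply] at h1
    have h2 : f (Affine.Point.zero : M.toAffine.Point) = Affine.Point.zero := hf.1
    rw [h2] at h1
    exact absurd h1 (by simp)
  · have h1 := congrArg f hP
    rw [f.apply_symm_apply] at h1
    obtain ⟨h3, h4⟩ := hf.2 x' y' h'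
    rw [h4, Affine.Point.some.injEq] at h1
    obtain ⟨rfl, rfl⟩ := h1
    have h5 : φ.symm (φ x') = x' := φ.symm_apply_apply x'
    have h6 : φ.symm (φ y') = y' := φ.symm_apply_apply y'
    refine ⟨by rw [h5, h6]; exact h', ?_⟩
    rw [Affine.Point.some.injEq]
    exact ⟨h5.symm, h6.symm⟩

end Pt

section Comm

variable {k k' : Type*} [Field k] [Field k'] {W : WeierstrassCurve k} {W' : WeierstrassCurve k'}
  {A B A' B' : Type*} [Field A] [Field B] [Field A'] [Field B'] [Algebra k A] [Algebra k B]
  [Algebra k' A'] [Algebra k' B']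

/-- The maps given by isomorphisms of fields commute with the maps of the points. -/
theorem cov_comm {a : A → A'} {b : B → B'} {f : Pts W A → Pts W' A'} {g : Pts W B → Pts W' B'}
    (hf : Cov a f) (hg : Cov b g) (i : A →ₐ[k] B) (i' : A' →ₐ[k'] B')
    (h : ∀ x, i' (a x) = b (i x)) (P : Pts W A) :
    g (Affine.Point.map i P) = Affine.Point.map i' (f P) := by
  rcases P with _ | ⟨x, y, hP⟩
  · have h1 : f (Affine.Point.zero : Pts W A) = 0 := hf.1
    have h2 : Affine.Point.map i (Affine.Point.zero : Pts W A) = 0 := map_zero (Affine.Point.map i)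
    rw [h1, h2, map_zero]
    exact hg.1
  · obtain ⟨h1, h2⟩ := hf.2 x y hP
    rw [h2, Affine.Point.map_some, Affine.Point.map_some]
    obtain ⟨h3, h4⟩ := hg.2 (i x) (i y) ((W.toAffine.baseChange_nonsingular i.injective x y).mpr hP)
    rw [h4, Affine.Point.some.injEq]
    exact ⟨(h x).symm, (h y).symm⟩

/-- The points over corresponding extension fields. -/
theorem exists_pts (e : k ≃+* k') (hW : W' = W.map (e : k →+* k')) (φ : A ≃+* A')
    (hφ : ∀ x, φ (algebraMap k A x) = algebraMap k' A' (e x)) :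
    ∃ f : Pts W A ≃+ Pts W' A', Cov φ f := by
  refine exists_cov φ ?_
  subst hW
  show (W.map (e : k →+* k')).map (algebraMap k' A') = (W.map (algebraMap k A)).map (φ : A →+* A')
  rw [WeierstrassCurve.map_map, WeierstrassCurve.map_map]
  refine congrArg (W.map ·) (RingHom.ext fun x => ?_)
  exact (hφ x).symm

end Comm

/-- Corresponding curves over isomorphic fields, and an isomorphism of the algebraic closures. -/
structure Dat {k k' : Type*} [Field k] [Field k'] (W : WeierstrassCurve k)
    (W' : WeierstrassCurve k') where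
  /-- the isomorphism of the fields -/
  e : k ≃+* k'
  hW : W' = W.map (e : k →+* k')
  /-- the isomorphism of the algebraic closures -/
  E : AlgebraicClosure k ≃+* AlgebraicClosure k'
  hE : ∀ x, E (algebraMap k (AlgebraicClosure k) x) = algebraMap k' (AlgebraicClosure k') (e x)
  /-- the isomorphism of the groups of points -/
  f : Pts W (AlgebraicClosure k) ≃+ Pts W' (AlgebraicClosure k')
  hf : Cov E f

namespace Dat

variable {k k' : Type*} [Field k] [Field k'] {W : WeierstrassCurve k} {W' : WeierstrassCurve k'}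

theorem exists_dat (e : k ≃+* k') (hW : W' = W.map (e : k →+* k')) :
    ∃ D : Dat W W', D.e = e := by
  obtain ⟨f, hf⟩ := exists_pts (W := W) (W' := W') e hW
    (IsAlgClosure.equivOfEquiv (AlgebraicClosure k) (AlgebraicClosure k') e)
    (IsAlgClosure.equivOfEquiv_algebraMap (AlgebraicClosure k) (AlgebraicClosure k') e)
  exact ⟨⟨e, hW, _, IsAlgClosure.equivOfEquiv_algebraMap _ _ e, f, hf⟩, rfl⟩

variable (D : Dat W W')

/-- The inverse data. -/
def symm : Dat W' W where
  e := D.e.symm
  hW := by
    have h : ((D.e.symm : k' ≃+* k) : k' →+* k).comp (D.e : k →+* k') = RingHom.id k :=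
      RingHom.ext fun x => D.e.symm_apply_apply x
    have h2 : W'.map ((D.e.symm : k' ≃+* k) : k' →+* k) =
        (W.map (D.e : k →+* k')).map ((D.e.symm : k' ≃+* k) : k' →+* k) :=
      congrArg (fun V => WeierstrassCurve.map V ((D.e.symm : k' ≃+* k) : k' →+* k)) D.hW
    refine (h2.trans ?_).symm
    rw [WeierstrassCurve.map_map, h, WeierstrassCurve.map_id]
  E := D.E.symm
  hE x := by
    rw [RingEquiv.symm_apply_eq, D.hE, RingEquiv.apply_symm_apply]
  f := D.f.symm
  hf := D.hf.symm

/-- The conjugate of an automorphism. -/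
def gal (σ : Gal k') : Gal k :=
  AlgEquiv.ofRingEquiv (f := (D.E.trans (σ : AlgebraicClosure k' ≃+* AlgebraicClosure k')).trans
    D.E.symm) (fun x => by
      rw [RingEquiv.trans_apply, RingEquiv.trans_apply, D.hE]
      show D.E.symm (σ (algebraMap k' (AlgebraicClosure k') (D.e x))) = _
      rw [AlgEquiv.commutes, ← D.hE, RingEquiv.symm_apply_apply])

theorem gal_apply (σ : Gal k') (x : AlgebraicClosure k) : D.gal σ x = D.E.symm (σ (D.E x)) := rfl

theorem gal_mul (σ τ : Gal k') : D.gal (σ * τ) = D.gal σ * D.gal τ := by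
  ext x
  rw [AlgEquiv.mul_apply, gal_apply, gal_apply, gal_apply, RingEquiv.apply_symm_apply]
  rfl

theorem gal_symm (σ : Gal k) : D.gal (D.symm.gal σ) = σ := by
  ext x
  rw [gal_apply, gal_apply]
  show D.E.symm (D.E (σ (D.E.symm (D.E x)))) = σ x
  rw [RingEquiv.symm_apply_apply, RingEquiv.symm_apply_apply]

/-- Conjugation as a homomorphism. -/
def galH : Gal k' →* Gal k where
  toFun := D.gal
  map_one' := by
    ext x
    rw [gal_apply]
    exact D.E.symm_apply_apply x
  map_mul' := D.gal_mul

theorem continuous_gal : Continuous D.gal := by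
  refine continuous_of_continuousAt_one D.galH ?_
  rw [ContinuousAt, map_one, Filter.tendsto_def]
  intro U hU
  rw [krullTopology_mem_nhds_one_iff] at hU ⊢
  obtain ⟨F, hF, hFU⟩ := hU
  refine ⟨IntermediateField.adjoin k' (Set.range fun i => D.E (Module.finBasis k F i)), ?_, ?_⟩
  · exact IntermediateField.finiteDimensional_adjoin fun x _ =>
      (Algebra.IsAlgebraic.isAlgebraic x).isIntegral
  · intro τ hτ
    refine hFU ?_
    show D.gal τ ∈ F.fixingSubgroup
    rw [SetLike.mem_coe, IntermediateField.mem_fixingSubgroup_iff] at hτ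
    rw [IntermediateField.mem_fixingSubgroup_iff]
    intro x hx
    have h1 := (Module.finBasis k F).sum_repr ⟨x, hx⟩
    have h2 : x = ∑ i, (Module.finBasis k F).repr ⟨x, hx⟩ i •
        ((Module.finBasis k F i : F) : AlgebraicClosure k) := by
      have h3 : ((∑ i, (Module.finBasis k F).repr ⟨x, hx⟩ i • (Module.finBasis k F i : F) : F) :
          AlgebraicClosure k) = x := congrArg (Subtype.val : F → AlgebraicClosure k) h1
      refine h3.symm.trans ?_
      rw [IntermediateField.coe_sum]
      rfl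
    rw [h2, map_sum]
    refine Finset.sum_congr rfl fun i _ => ?_
    rw [map_smul, gal_apply, hτ _ (IntermediateField.subset_adjoin _ _ ⟨i, rfl⟩),
      RingEquiv.symm_apply_apply]

/-- The transport of cochains. -/
def T (c : Gal k → Pts W (AlgebraicClosure k)) : Gal k' → Pts W' (AlgebraicClosure k') :=
  fun σ => D.f (c (D.gal σ))

theorem map_f (σ : Gal k') (P : Pts W (AlgebraicClosure k)) :
    D.f (Affine.Point.map (D.gal σ : AlgebraicClosure k →ₐ[k] _) P) =
      Affine.Point.map (σ : AlgebraicClosure k' →ₐ[k'] _) (D.f P) := by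
  refine cov_comm D.hf D.hf _ _ (fun x => ?_) P
  show σ (D.E x) = D.E (D.gal σ x)
  rw [gal_apply, RingEquiv.apply_symm_apply]

theorem T_coc {c : Gal k → Pts W (AlgebraicClosure k)} (hc : c ∈ coc W) : D.T c ∈ coc W' := by
  refine ⟨(hc.1.comp_continuous D.continuous_gal).comp D.f, fun σ τ => ?_⟩
  show D.f (c (D.gal (σ * τ))) = D.f (c (D.gal σ)) + _
  rw [gal_mul, hc.2, map_add, D.map_f]
  rfl

theorem T_cob {c : Gal k → Pts W (AlgebraicClosure k)} (hc : c ∈ cob W) : D.T c ∈ cob W' := by
  obtain ⟨P, hP⟩ := hc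
  refine ⟨D.f P, fun σ => ?_⟩
  show D.f (c (D.gal σ)) = _
  rw [hP, map_sub, D.map_f]

theorem T_triv {L L' : Type*} [Field L] [Algebra k L] [Field L'] [Algebra k' L'] (φ : L ≃+* L')
    (hφ : ∀ x, φ (algebraMap k L x) = algebraMap k' L' (D.e x))
    {c : Gal k → Pts W (AlgebraicClosure k)} (hc : c ∈ trivOver W L) : D.T c ∈ trivOver W' L' := by
  intro i'
  obtain ⟨F, hF⟩ : ∃ F : AlgebraicClosure L ≃+* AlgebraicClosure L',
      ∀ x, F (algebraMap L (AlgebraicClosure L) x) = algebraMap L' (AlgebraicClosure L') (φ x) :=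
    ⟨_, IsAlgClosure.equivOfEquiv_algebraMap _ _ φ⟩
  have hF' : ∀ x, F (algebraMap k (AlgebraicClosure L) x) =
      algebraMap k' (AlgebraicClosure L') (D.e x) := by
    intro x
    rw [IsScalarTower.algebraMap_apply k L (AlgebraicClosure L), hF, hφ,
      ← IsScalarTower.algebraMap_apply k' L' (AlgebraicClosure L')]
  obtain ⟨g, hg⟩ := exists_pts (W := W) (W' := W') D.e D.hW F hF'
  obtain ⟨i, hi⟩ : ∃ i : AlgebraicClosure k →ₐ[k] AlgebraicClosure L,
      ∀ x, i x = F.symm (i' (D.E x)) :=
    ⟨{ toRingHom := ((F.symm : AlgebraicClosure L' →+* AlgebraicClosure L).comp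
        (i' : AlgebraicClosure k' →+* AlgebraicClosure L')).comp
        (D.E : AlgebraicClosure k →+* AlgebraicClosure k')
       commutes' := fun x => by
        show F.symm (i' (D.E (algebraMap k (AlgebraicClosure k) x))) = _
        rw [D.hE, AlgHom.commutes, ← hF', RingEquiv.symm_apply_apply] }, fun x => rfl⟩
  obtain ⟨P, hP⟩ := hc i
  refine ⟨g P, fun σ τ h => ?_⟩
  obtain ⟨σ₀, hσ⟩ : ∃ σ₀ : Gal L, ∀ x, σ₀ x = F.symm (σ (F x)) :=
    ⟨AlgEquiv.ofRingEquiv (f := (F.trans (σ : AlgebraicClosure L' ≃+* AlgebraicClosure L')).trans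
      F.symm) (fun x => by
        rw [RingEquiv.trans_apply, RingEquiv.trans_apply, hF]
        show F.symm (σ (algebraMap L' (AlgebraicClosure L') (φ x))) = _
        rw [AlgEquiv.commutes, ← hF, RingEquiv.symm_apply_apply]), fun x => rfl⟩
  have h1 := hP σ₀ (D.gal τ) (fun x => by
    rw [hi, hσ, hi, RingEquiv.apply_symm_apply, gal_apply, RingEquiv.apply_symm_apply, h])
  have h2 : g (Affine.Point.map i (c (D.gal τ))) = Affine.Point.map i' (D.f (c (D.gal τ))) :=
    cov_comm D.hf hg i i' (fun x => by rw [hi, RingEquiv.apply_symm_apply]) _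
  have h3 : g (Affine.Point.map ((σ₀ : AlgebraicClosure L →ₐ[L] _).restrictScalars k) P) =
      Affine.Point.map ((σ : AlgebraicClosure L' →ₐ[L'] _).restrictScalars k') (g P) :=
    cov_comm hg hg _ _ (fun x => by
      show σ (F x) = F (σ₀ x)
      rw [hσ, RingEquiv.apply_symm_apply]) P
  show Affine.Point.map i' (D.f (c (D.gal τ))) = _
  rw [← h2, h1, map_sub, h3]

/-- The transport of cochains is an isomorphism. -/
def TE : (Gal k → Pts W (AlgebraicClosure k)) ≃+ (Gal k' → Pts W' (AlgebraicClosure k')) where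
  toFun := D.T
  invFun := D.symm.T
  left_inv c := by
    funext σ
    show D.f.symm (D.f (c (D.gal (D.symm.gal σ)))) = c σ
    rw [AddEquiv.symm_apply_apply, gal_symm]
  right_inv c := by
    funext σ
    show D.f (D.f.symm (c (D.symm.gal (D.gal σ)))) = c σ
    rw [AddEquiv.apply_symm_apply]
    exact congrArg c (D.symm.gal_symm σ)
  map_add' c d := by
    funext σ
    exact map_add D.f _ _

end Dat

section Num

variable {N N' : Type} [Field N] [NumberField N] [Field N'] [NumberField N']
  {W : WeierstrassCurve N} {W' : WeierstrassCurve N'}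

theorem Dat.T_sha (D : Dat W W') {c : Gal N → Pts W (AlgebraicClosure N)} (hc : c ∈ shaCoc W) :
    D.T c ∈ shaCoc W' := by
  obtain ⟨⟨h1, h2⟩, h3⟩ := hc
  refine ⟨⟨D.T_coc h1, ?_⟩, ?_⟩
  · have h2' := (AddSubgroup.mem_iInf).1 h2
    refine (AddSubgroup.mem_iInf).2 fun v' => ?_
    obtain ⟨v, rfl⟩ := (plE D.e).surjective v'
    exact D.T_triv (cmE D.e v) (cmE_coe D.e v) (h2' v)
  · have h3' := (AddSubgroup.mem_iInf).1 h3
    refine (AddSubgroup.mem_iInf).2 fun v' => ?_
    obtain ⟨v, rfl⟩ := (ipE D.e).surjective v'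
    exact D.T_triv (icE D.e v) (icE_coe D.e v) (h3' v)

/-- The isomorphism of the groups of the cocycles. -/
def Dat.shaE (D : Dat W W') : shaCoc W ≃+ shaCoc W' where
  toFun c := ⟨D.TE c.1, D.T_sha c.2⟩
  invFun c := ⟨D.TE.symm c.1, D.symm.T_sha c.2⟩
  left_inv c := Subtype.ext (D.TE.symm_apply_apply c.1)
  right_inv c := Subtype.ext (D.TE.apply_symm_apply c.1)
  map_add' c d := Subtype.ext (map_add D.TE c.1 d.1)

/-- The isomorphism of the Tate-Shafarevich groups. -/
theorem exists_sha (e : N ≃+* N') (hW : W' = W.map (e : N →+* N')) : Nonempty (Sha W ≃+ Sha W') := by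
  obtain ⟨D, -⟩ := Dat.exists_dat (W := W) (W' := W') e hW
  refine ⟨QuotientAddGroup.congr _ _ D.shaE ?_⟩
  ext c
  constructor
  · rintro ⟨d, hd, rfl⟩
    exact D.T_cob hd
  · intro h
    exact ⟨D.shaE.symm c, D.symm.T_cob h, D.shaE.apply_symm_apply c⟩

theorem prim_card (p : ℕ) [Fact p.Prime] {A B : Type*} [AddCommGroup A] [AddCommGroup B]
    (f : A ≃+ B) : Nat.card (AddCommGroup.primaryComponent A p) =
      Nat.card (AddCommGroup.primaryComponent B p) := by
  refine Nat.card_congr (f.toEquiv.subtypeEquiv fun x => ?_)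
  constructor
  · rintro ⟨n, hn⟩
    refine ⟨n, ?_⟩
    change p ^ n • f x = 0
    rw [← map_nsmul, hn, map_zero]
  · rintro ⟨n, hn⟩
    refine ⟨n, f.injective ?_⟩
    rw [map_nsmul, map_zero]
    exact hn

variable (e : N ≃+* N') (p : ℕ) [Fact p.Prime] (W₀ : WeierstrassCurve N)

/-- The `p`-primary part of the Tate-Shafarevich group. -/
theorem shaP_e : Nat.card (ShaP p (W₀.map (e : N →+* N'))) = Nat.card (ShaP p W₀) := by
  obtain ⟨f⟩ := exists_sha (W := W₀) e rfl
  exact (prim_card p f).symm

/-- The `p`-primary part of the group of points. -/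
theorem prim_e : Nat.card (AddCommGroup.primaryComponent (W₀.map (e : N →+* N')).toAffine.Point p) =
    Nat.card (AddCommGroup.primaryComponent W₀.toAffine.Point p) := by
  obtain ⟨f, -⟩ := exists_cov (M := W₀) e rfl
  exact (prim_card p f).symm

omit [NumberField N] [NumberField N'] in
/-- Finiteness of the group of points. -/
theorem fin_e : Finite (W₀.map (e : N →+* N')).toAffine.Point ↔ Finite W₀.toAffine.Point := by
  obtain ⟨f, -⟩ := exists_cov (M := W₀) e rfl
  exact f.toEquiv.finite_iff.symm

end Num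

end

end Pool.Agent.Lib.MP_1a91b9_ntI
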