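import Pool.Agent.Lib.MP_1a91b9_ntT3.S9.Defs

/-!
# Transport along an isomorphism of number fields, file TrPl: the places and the completions
-/

set_option autoImplicit false
set_option linter.unusedSectionVars false

namespace Pool.Agent.Lib.MP_1a91b9_ntI

open NumberField IsDedekindDomain WithZero

noncomputable section

namespace TrPl

/-- an isomorphism of valued fields which preserves the values is continuous -/
theorem cont_of_val {A B : Type*} [Field A] [Field B] [Valued A ℤᵐ⁰] [Valued B ℤᵐ⁰] (f : A ≃+* B)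
    (h : ∀ x, Valued.v (f x) = (Valued.v x : ℤᵐ⁰)) : Continuous f := by
  refine continuous_of_continuousAt_zero f ?_
  rw [ContinuousAt, map_zero]
  intro s hs
  obtain ⟨γ, hγ⟩ := Valued.mem_nhds_zero.1 hs
  obtain ⟨r, hr⟩ := MonoidWithZeroHom.ValueGroup₀.restrict₀_surjective
    (.ofClass (Valued.v : Valuation B ℤᵐ⁰)) γ.1
  have hr' : (Valued.v : Valuation B ℤᵐ⁰).restrict r = γ.1 := hr
  have h0 : (Valued.v : Valuation B ℤᵐ⁰) r ≠ 0 := by
    intro h0
    have : (Valued.v : Valuation B ℤᵐ⁰).restrict r = 0 := by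
      rw [Valuation.restrict_def]
      simpa using h0
    exact γ.ne_zero (by rw [← hr', this])
  have h1 : (Valued.v : Valuation A ℤᵐ⁰) (f.symm r) ≠ 0 := by
    rw [← h, f.apply_symm_apply]
    exact h0
  rw [Filter.mem_map, Valued.mem_nhds_zero]
  refine ⟨Units.mk0 ((Valued.v : Valuation A ℤᵐ⁰).restrict (f.symm r)) ?_, fun x hx => hγ ?_⟩
  · rw [Valuation.restrict_def]
    simpa using h1
  · have hx' : (Valued.v : Valuation A ℤᵐ⁰).restrict x <
        (Valued.v : Valuation A ℤᵐ⁰).restrict (f.symm r) := hx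
    show (Valued.v : Valuation B ℤᵐ⁰).restrict (f x) < γ.1
    rw [← hr']
    rw [Valuation.restrict_lt_iff] at hx' ⊢
    rw [h]
    rwa [← h (f.symm r), f.apply_symm_apply] at hx'

/-- the value of the extension to the completion -/
theorem val_of_dense {A B : Type*} [Field A] [Field B] [Valued A ℤᵐ⁰] [Valued B ℤᵐ⁰] (F : A ≃+* B)
    (hF : Continuous F) {s : Set A} (hs : Dense s)
    (h : ∀ x ∈ s, Valued.v (F x) = (Valued.v x : ℤᵐ⁰)) (y : A) :
    Valued.v (F y) = (Valued.v y : ℤᵐ⁰) := by
  by_cases hy : y = 0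
  · rw [hy, map_zero, map_zero, map_zero]
  have h1 : (Valued.v y : ℤᵐ⁰) ≠ 0 := (Valuation.ne_zero_iff _).2 hy
  have h2 : (Valued.v (F y) : ℤᵐ⁰) ≠ 0 :=
    (Valuation.ne_zero_iff _).2 ((map_ne_zero_iff _ F.injective).2 hy)
  have n1 := Valued.locally_const h1
  have n2 := hF.continuousAt.preimage_mem_nhds (Valued.locally_const h2)
  obtain ⟨x, hx, hxs⟩ := hs.inter_nhds_nonempty (Filter.inter_mem n1 n2)
  have e1 : (Valued.v x : ℤᵐ⁰) = Valued.v y := hxs.1
  have e2 : (Valued.v (F x) : ℤᵐ⁰) = Valued.v (F y) := hxs.2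
  rw [← e1, ← e2, h x hx]

end TrPl

variable {N N' : Type} [Field N] [NumberField N] [Field N'] [NumberField N'] (e : N ≃+* N')

/-- The finite places. -/
def plE : HeightOneSpectrum (𝓞 N) ≃ HeightOneSpectrum (𝓞 N') :=
  HeightOneSpectrum.equivOfRingEquiv (RingOfIntegers.mapRingEquiv e)

theorem plE_map (v : HeightOneSpectrum (𝓞 N)) :
    (plE e v).asIdeal = v.asIdeal.map (RingOfIntegers.mapRingEquiv e) := by
  show v.asIdeal.comap ((RingOfIntegers.mapRingEquiv e).symm : 𝓞 N' →+* 𝓞 N) = _
  exact Ideal.comap_symm (RingOfIntegers.mapRingEquiv e)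

theorem mem_map_e (I : Ideal (𝓞 N)) (x : 𝓞 N) :
    RingOfIntegers.mapRingEquiv e x ∈ I.map (RingOfIntegers.mapRingEquiv e) ↔ x ∈ I := by
  rw [← Ideal.comap_symm, Ideal.mem_comap, RingEquiv.symm_apply_apply]

theorem plE_mem (v : HeightOneSpectrum (𝓞 N)) (x : 𝓞 N) :
    RingOfIntegers.mapRingEquiv e x ∈ (plE e v).asIdeal ↔ x ∈ v.asIdeal := by
  rw [plE_map, mem_map_e]

theorem plE_mem_pow (v : HeightOneSpectrum (𝓞 N)) (x : 𝓞 N) (n : ℕ) :
    RingOfIntegers.mapRingEquiv e x ∈ (plE e v).asIdeal ^ n ↔ x ∈ v.asIdeal ^ n := by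
  rw [plE_map, ← Ideal.map_pow, mem_map_e]

theorem plE_norm (v : HeightOneSpectrum (𝓞 N)) :
    Ideal.absNorm (plE e v).asIdeal = Ideal.absNorm v.asIdeal := by
  rw [Ideal.absNorm_apply, Ideal.absNorm_apply, Submodule.cardQuot_apply,
    Submodule.cardQuot_apply]
  exact (Nat.card_congr (Ideal.quotientEquiv v.asIdeal (plE e v).asIdeal
    (RingOfIntegers.mapRingEquiv e) (plE_map e v)).toEquiv).symm

theorem plE_int (v : HeightOneSpectrum (𝓞 N)) (x : 𝓞 N) :
    (plE e v).intValuation (RingOfIntegers.mapRingEquiv e x) = v.intValuation x := by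
  by_cases hx : x = 0
  · rw [hx, map_zero, map_zero, map_zero]
  have hx' : RingOfIntegers.mapRingEquiv e x ≠ 0 :=
    (map_ne_zero_iff _ (RingOfIntegers.mapRingEquiv e).injective).2 hx
  have key : ∀ n : ℕ, (plE e v).intValuation (RingOfIntegers.mapRingEquiv e x) ≤
      exp (-(n : ℤ)) ↔ v.intValuation x ≤ exp (-(n : ℤ)) := by
    intro n
    rw [HeightOneSpectrum.intValuation_le_pow_iff_mem, HeightOneSpectrum.intValuation_le_pow_iff_mem,
      plE_mem_pow]
  have hs : ∀ {R : Type} [CommRing R] [IsDedekindDomain R] (w : HeightOneSpectrum R) (y : R),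
      y ≠ 0 → ∃ n : ℕ, w.intValuation y = exp (-(n : ℤ)) := by
    intro R _ _ w y hy
    exact ⟨_, w.intValuation_if_neg hy⟩
  obtain ⟨m, hm⟩ := hs v x hx
  obtain ⟨n, hn⟩ := hs (plE e v) _ hx'
  refine le_antisymm ?_ ?_
  · rw [hm, key m, hm]
  · rw [hn, ← key n, hn]

theorem plE_val (v : HeightOneSpectrum (𝓞 N)) (x : N) :
    (plE e v).valuation N' (e x) = v.valuation N x := by
  obtain ⟨a, b, -, rfl⟩ := IsFractionRing.div_surjective (A := 𝓞 N) x
  have h : ∀ a : 𝓞 N, (plE e v).valuation N' (e (algebraMap (𝓞 N) N a)) =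
      v.valuation N (algebraMap (𝓞 N) N a) := by
    intro a
    have : e (algebraMap (𝓞 N) N a) = algebraMap (𝓞 N') N' (RingOfIntegers.mapRingEquiv e a) := rfl
    rw [this, HeightOneSpectrum.valuation_of_algebraMap, HeightOneSpectrum.valuation_of_algebraMap,
      plE_int]
  rw [map_div₀, map_div₀, map_div₀, h a, h b]

/-- the isomorphism of the fields with the valuations -/
def wvE (v : HeightOneSpectrum (𝓞 N)) :
    WithVal (v.valuation N) ≃+* WithVal ((plE e v).valuation N') :=
  WithVal.congr (v.valuation N) ((plE e v).valuation N') e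

theorem wvE_val (v : HeightOneSpectrum (𝓞 N)) (x : WithVal (v.valuation N)) :
    Valued.v (wvE e v x) = (Valued.v x : ℤᵐ⁰) := plE_val e v x.ofVal

theorem wvE_cont (v : HeightOneSpectrum (𝓞 N)) : Continuous (wvE e v) :=
  TrPl.cont_of_val (wvE e v) (wvE_val e v)

theorem wvE_cont' (v : HeightOneSpectrum (𝓞 N)) : Continuous (wvE e v).symm :=
  TrPl.cont_of_val (wvE e v).symm fun x => by
    rw [← wvE_val e v, RingEquiv.apply_symm_apply]

/-- the isomorphism of the completions -/
def ucE (v : HeightOneSpectrum (𝓞 N)) :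
    (v.valuation N).Completion ≃+* ((plE e v).valuation N').Completion :=
  UniformSpace.Completion.mapRingEquiv (wvE e v) (wvE_cont e v) (wvE_cont' e v)

theorem ucE_coe (v : HeightOneSpectrum (𝓞 N)) (x : WithVal (v.valuation N)) :
    ucE e v (x : (v.valuation N).Completion) = (wvE e v x : ((plE e v).valuation N').Completion) :=
  UniformSpace.Completion.mapRingHom_coe (wvE_cont e v) x

theorem ucE_val (v : HeightOneSpectrum (𝓞 N)) (x : (v.valuation N).Completion) :
    Valued.v (ucE e v x) = (Valued.v x : ℤᵐ⁰) := by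
  refine TrPl.val_of_dense (ucE e v) ?_
    (UniformSpace.Completion.denseRange_coe (α := WithVal (v.valuation N))) ?_ x
  · exact UniformSpace.Completion.continuous_map
  · rintro _ ⟨y, rfl⟩
    rw [ucE_coe, Valued.valuedCompletion_apply, Valued.valuedCompletion_apply, wvE_val]

/-- The isomorphism of the completions. -/
def cmE (v : HeightOneSpectrum (𝓞 N)) : v.adicCompletion N ≃+* (plE e v).adicCompletion N' :=
  (HeightOneSpectrum.adicCompletion.equiv N v).trans
    ((ucE e v).trans (HeightOneSpectrum.adicCompletion.equiv N' (plE e v)).symm)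

theorem cmE_coe (v : HeightOneSpectrum (𝓞 N)) (x : N) :
    cmE e v (algebraMap N (v.adicCompletion N) x) =
      algebraMap N' ((plE e v).adicCompletion N') (e x) := by
  apply HeightOneSpectrum.adicCompletion.ext
  exact ucE_coe e v (WithVal.toVal _ x)

theorem cmE_val (v : HeightOneSpectrum (𝓞 N)) (x : v.adicCompletion N) :
    Valued.v (cmE e v x) = (Valued.v x : WithZero (Multiplicative ℤ)) :=
  ucE_val e v x.toCompletion

/-- The infinite places. -/
def ipE : InfinitePlace N ≃ InfinitePlace N' where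
  toFun v := v.comap (e.symm : N' →+* N)
  invFun v := v.comap (e : N →+* N')
  left_inv v := by
    ext x
    simp
  right_inv v := by
    ext x
    simp

theorem ipE_apply (v : InfinitePlace N) (x : N) : ipE e v (e x) = v x := by
  show v (e.symm (e x)) = v x
  rw [e.symm_apply_apply]

theorem ipE_real (v : InfinitePlace N) : (ipE e v).IsReal ↔ v.IsReal := by
  show (v.comap (e.symm : N' →+* N)).IsReal ↔ v.IsReal
  constructor
  · intro h
    have := InfinitePlace.IsReal.comap (e : N →+* N') h
    have h2 : (v.comap (e.symm : N' →+* N)).comap (e : N →+* N') = v := (ipE e).left_inv v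
    rwa [h2] at this
  · intro h
    exact InfinitePlace.IsReal.comap (e.symm : N' →+* N) h

/-- the isomorphism of the fields with the absolute values -/
def waE (v : InfinitePlace N) : WithAbs v.1 ≃+* WithAbs (ipE e v).1 :=
  WithAbs.congr v.1 (ipE e v).1 e

theorem waE_norm (v : InfinitePlace N) (x : WithAbs v.1) : ‖waE e v x‖ = ‖x‖ :=
  ipE_apply e v (WithAbs.equiv v.1 x)

theorem waE_isom (v : InfinitePlace N) : Isometry (waE e v) :=
  AddMonoidHomClass.isometry_of_norm _ (waE_norm e v)

theorem waE_isom' (v : InfinitePlace N) : Isometry (waE e v).symm :=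
  AddMonoidHomClass.isometry_of_norm _ fun x => by
    rw [← waE_norm e v, RingEquiv.apply_symm_apply]

/-- The isomorphism of the completions at the infinite places. -/
def icE (v : InfinitePlace N) : v.Completion ≃+* (ipE e v).Completion :=
  (InfinitePlace.Completion.equiv v).trans
    ((UniformSpace.Completion.mapRingEquiv (waE e v) (waE_isom e v).continuous
      (waE_isom' e v).continuous).trans (InfinitePlace.Completion.equiv (ipE e v)).symm)

theorem icE_coe (v : InfinitePlace N) (x : N) :
    icE e v (algebraMap N v.Completion x) = algebraMap N' (ipE e v).Completion (e x) := by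
  apply InfinitePlace.Completion.ext
  exact UniformSpace.Completion.mapRingHom_coe (waE_isom e v).continuous
    ((WithAbs.equiv v.1).symm x)

/-- The isomorphism is an isometry. -/
theorem icE_norm (v : InfinitePlace N) (x : v.Completion) : ‖icE e v x‖ = ‖x‖ := by
  have h : Isometry (UniformSpace.Completion.map (waE e v)) := (waE_isom e v).completion_map
  have h0 : UniformSpace.Completion.map (waE e v) 0 = 0 := by
    have := UniformSpace.Completion.map_coe (waE_isom e v).uniformContinuous 0
    rwa [map_zero] at this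
  have h1 := h.dist_eq x.toCompletion 0
  rw [h0, dist_zero_right, dist_zero_right] at h1
  exact h1

end

end Pool.Agent.Lib.MP_1a91b9_ntI
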