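import Pool.Agent.Lib.MP_1a91b9_ntI.TamI
import Pool.Agent.Lib.MP_1a91b9_ntI.TrPl

/-!
# Transport along an isomorphism of number fields: Tamagawa numbers and the factors of the period
-/

set_option autoImplicit false

namespace Pool.Agent.Lib.MP_1a91b9_ntI

open NumberField IsDedekindDomain WithZero WeierstrassCurve
open Pool.Agent.Lib.MP_1a91b9_ntT.S9 (tam nonsing minModel minChange minModel_isMinimal normFactor)
open Pool.Agent.Lib.MP_1a91b9_ntT.CT (min_int min_le)
open Pool.Agent.Lib.MP_1a91b9_ntH.C (nsSet nsG tam_def)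
open Pool.Agent.Lib.MP_1a91b9_ntH.C.TamT (Itg index_smul Itg_bc)
open Pool.Agent.Lib.MP_1a91b9_ntV.C (coef_gen)
open Pool.Agent.Lib.MP_1a91b9_ntW.T (model_of_itg u_mul_inv)
open scoped Classical

section

variable {L L' : Type*} [Field L] [Field L']

/-- the points of a curve and of its image under an isomorphism of fields -/
theorem exists_map_equiv (φ : L ≃+* L') (M : WeierstrassCurve L) :
    ∃ f : M.toAffine.Point ≃+ (M.map (φ : L →+* L')).toAffine.Point,
      ∀ (x y : L) (h : M.toAffine.Nonsingular x y), ∃ h',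
        f (Affine.Point.some x y h) = Affine.Point.some (φ x) (φ y) h' := by
  let : Algebra L L' := (φ : L →+* L').toAlgebra
  let g : M.toAffine.Point →+ (M.map (φ : L →+* L')).toAffine.Point :=
    Affine.Point.map (W' := M) (Algebra.ofId L L')
  have hinj : Function.Injective g := Affine.Point.map_injective (W' := M) (Algebra.ofId L L')
  have hsur : Function.Surjective g := by
    rintro (_ | ⟨x, y, h⟩)
    · exact ⟨0, rfl⟩
    · have hx : φ (φ.symm x) = x := φ.apply_symm_apply x
      have hy : φ (φ.symm y) = y := φ.apply_symm_apply y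
      have hn := Affine.map_nonsingular (W := M.toAffine) (f := (φ : L →+* L')) φ.injective
        (φ.symm x) (φ.symm y)
      have h0 : M.toAffine.Nonsingular (φ.symm x) (φ.symm y) := by
        refine hn.1 ?_
        simpa [hx, hy] using h
      refine ⟨Affine.Point.some _ _ h0, ?_⟩
      have : g (Affine.Point.some _ _ h0) = Affine.Point.some (φ (φ.symm x)) (φ (φ.symm y))
        (hn.2 h0) := rfl
      rw [this, Affine.Point.some.injEq]
      exact ⟨hx, hy⟩
  refine ⟨AddEquiv.ofBijective g ⟨hinj, hsur⟩, fun x y h => ⟨_, rfl⟩⟩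

variable {V : Valuation L ℤᵐ⁰} {V' : Valuation L' ℤᵐ⁰}

/-- Integral coefficients. -/
theorem itg_map {φ : L ≃+* L'} (hφ : ∀ x, V' (φ x) = V x) {M : WeierstrassCurve L} :
    Itg V' (M.map (φ : L →+* L')) ↔ Itg V M := by
  constructor
  · rintro ⟨h1, h2, h3, h4, h6⟩
    simp only [WeierstrassCurve.map_a₁, WeierstrassCurve.map_a₂, WeierstrassCurve.map_a₃,
      WeierstrassCurve.map_a₄, WeierstrassCurve.map_a₆, RingHom.coe_coe, hφ] at h1 h2 h3 h4 h6
    exact ⟨h1, h2, h3, h4, h6⟩
  · rintro ⟨h1, h2, h3, h4, h6⟩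
    refine ⟨?_, ?_, ?_, ?_, ?_⟩ <;>
    simpa only [WeierstrassCurve.map_a₁, WeierstrassCurve.map_a₂, WeierstrassCurve.map_a₃,
      WeierstrassCurve.map_a₄, WeierstrassCurve.map_a₆, RingHom.coe_coe, hφ]

/-- the index is transported by an isomorphism of valued fields -/
theorem index_map {φ : L ≃+* L'} (hφ : ∀ x, V' (φ x) = V x) (M : WeierstrassCurve L) :
    (nsG V' (M.map (φ : L →+* L'))).index = (nsG V M).index := by
  obtain ⟨f, hf⟩ := exists_map_equiv φ M
  have n2 : φ 2 = 2 := map_ofNat φ 2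
  have n3 : φ 3 = 3 := map_ofNat φ 3
  have eA : ∀ x y : L, V' (2 * φ y + (M.map (φ : L →+* L')).a₁ * φ x +
      (M.map (φ : L →+* L')).a₃) = V (2 * y + M.a₁ * x + M.a₃) := by
    intro x y
    rw [← hφ]
    simp [n2]
  have eB : ∀ x y : L, V' (3 * φ x ^ 2 + 2 * (M.map (φ : L →+* L')).a₂ * φ x +
      (M.map (φ : L →+* L')).a₄ - (M.map (φ : L →+* L')).a₁ * φ y) =
      V (3 * x ^ 2 + 2 * M.a₂ * x + M.a₄ - M.a₁ * y) := by
    intro x y
    rw [← hφ]
    simp [n2, n3]
  have key : (nsG V M).map (f : M.toAffine.Point →+ (M.map (φ : L →+* L')).toAffine.Point) =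
      nsG V' (M.map (φ : L →+* L')) := by
    rw [nsG, nsG, AddMonoidHom.map_closure]
    congr 1
    ext P
    constructor
    · rintro ⟨Q, hQ, rfl⟩
      rcases hQ with rfl | ⟨x, y, h, rfl, hxy⟩
      · exact Or.inl (map_zero f)
      · obtain ⟨h', hh⟩ := hf x y h
        refine Or.inr ⟨_, _, h', hh, ?_⟩
        rw [hφ, eA, eB]
        exact hxy
    · intro hP
      rcases hP with rfl | ⟨X, Y, H, rfl, hXY⟩
      · exact ⟨0, Or.inl rfl, map_zero f⟩
      · obtain ⟨Q, hQ⟩ := f.surjective (Affine.Point.some X Y H)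
        refine ⟨Q, ?_, hQ⟩
        rcases Q with _ | ⟨x, y, h⟩
        · exact Or.inl rfl
        · obtain ⟨h', hh⟩ := hf x y h
          rw [hh, Affine.Point.some.injEq] at hQ
          refine Or.inr ⟨x, y, h, rfl, ?_⟩
          rw [← hQ.1, ← hQ.2, hφ, eA, eB] at hXY
          exact hXY
  rw [← key]
  exact (AddSubgroup.index_map_equiv (nsG V M) f)

/-- A minimal equation with respect to a valuation. -/
structure Mini (V : Valuation L ℤᵐ⁰) (M : WeierstrassCurve L) : Prop where
  itg : Itg V M
  max : ∀ C : VariableChange L, Itg V (C • M) → V (C • M).Δ ≤ V M.Δ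

theorem Mini.unit {M : WeierstrassCurve L} (hM : Mini V M) (hΔ : M.Δ ≠ 0)
    {D : VariableChange L} (hD : Mini V (D • M)) : V (D.u : L) = 1 := by
  have h1 := hM.max D hD.itg
  have h2 : V M.Δ ≤ V (D • M).Δ := by
    have h3 := hD.max D⁻¹ (by rw [inv_smul_smul]; exact hM.itg)
    rwa [inv_smul_smul] at h3
  have h4 := le_antisymm h1 h2
  rw [variableChange_Δ, Units.val_inv_eq_inv_val, map_mul, map_pow, map_inv₀] at h4
  have hD0 : V M.Δ ≠ 0 := (Valuation.ne_zero_iff _).2 hΔ
  have h5 : (V (D.u : L))⁻¹ ^ 12 = 1 :=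
    mul_right_cancel₀ hD0 (by rw [one_mul]; exact h4)
  have h6 := (pow_eq_one_iff_of_nonneg (zero_le) (by norm_num : 12 ≠ 0)).1 h5
  exact inv_eq_one.1 h6

theorem Mini.index {M : WeierstrassCurve L} (hM : Mini V M) (hΔ : M.Δ ≠ 0)
    {D : VariableChange L} (hD : Mini V (D • M)) : (nsG V (D • M)).index = (nsG V M).index := by
  have hu := hM.unit hΔ hD
  obtain ⟨hr, hs, -⟩ := coef_gen hM.itg hD.itg hu
  exact index_smul hD.itg hu hr hs

/-- minimality is transported by an isomorphism of valued fields -/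
theorem Mini.map {φ : L ≃+* L'} (hφ : ∀ x, V' (φ x) = V x) {M : WeierstrassCurve L}
    (hM : Mini V M) : Mini V' (M.map (φ : L →+* L')) := by
  refine ⟨(itg_map hφ).2 hM.itg, fun C hC => ?_⟩
  obtain ⟨C₀, rfl⟩ : ∃ C₀ : VariableChange L, C = C₀.map (φ : L →+* L') := by
    refine ⟨C.map (φ.symm : L' →+* L), ?_⟩
    rw [VariableChange.map_map]
    have : ((φ : L →+* L').comp (φ.symm : L' →+* L)) = RingHom.id L' := by
      ext x
      simp
    rw [this, VariableChange.map_id]
  rw [map_variableChange] at hC ⊢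
  rw [map_Δ, map_Δ, RingHom.coe_coe, hφ, hφ]
  exact hM.max C₀ ((itg_map hφ).1 hC)

end

section

variable {N : Type*} [Field N] [NumberField N] {v : HeightOneSpectrum (𝓞 N)}

theorem mini_of_isMinimal {M : WeierstrassCurve (v.adicCompletion N)}
    (hM : IsMinimal (v.adicCompletionIntegers N) M) :
    Mini (Valued.v : Valuation (v.adicCompletion N) ℤᵐ⁰) M := by
  refine ⟨Itg_bc (min_int _ hM), fun C hC => ?_⟩
  obtain ⟨I, hI⟩ := model_of_itg hC
  have h3 := min_le (C • M) I hI C⁻¹ (by rw [inv_smul_smul]; exact hM)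
  rwa [inv_smul_smul] at h3

end

section

variable {N N' : Type} [Field N] [NumberField N] [Field N'] [NumberField N'] (e : N ≃+* N')

theorem bc_map (W : WeierstrassCurve N) (v : HeightOneSpectrum (𝓞 N)) :
    (W.map (e : N →+* N')).baseChange ((plE e v).adicCompletion N') =
      (W.baseChange (v.adicCompletion N)).map (cmE e v : v.adicCompletion N →+* _) := by
  rw [WeierstrassCurve.baseChange, WeierstrassCurve.baseChange, WeierstrassCurve.map_map,
    WeierstrassCurve.map_map]
  congr 1
  exact RingHom.ext fun x => (cmE_coe e v x).symm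

theorem minModel_e (W : WeierstrassCurve N) (v : HeightOneSpectrum (𝓞 N)) :
    minModel (W.map (e : N →+* N')) (plE e v) =
      (minChange (W.map (e : N →+* N')) (plE e v) *
        ((minChange W v).map (cmE e v : v.adicCompletion N →+* _))⁻¹) •
        (minModel W v).map (cmE e v : v.adicCompletion N →+* _) := by
  rw [minModel, minModel, ← map_variableChange, mul_smul, inv_smul_smul, bc_map]

/-- **Transport of the Tamagawa number.** -/
theorem tam_e (W : WeierstrassCurve N) (hD : W.Δ ≠ 0) (v : HeightOneSpectrum (𝓞 N)) :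
    tam (W.map (e : N →+* N')) (plE e v) = tam W v := by
  rw [tam_def, tam_def]
  have hm := minModel_isMinimal (W.map (e : N →+* N')) (plE e v)
  rw [minModel_e e W v] at hm ⊢
  have h0 := (mini_of_isMinimal (minModel_isMinimal W v)).map (cmE_val e v)
  rw [h0.index ?_ (mini_of_isMinimal hm), index_map (cmE_val e v)]
  rw [WeierstrassCurve.map_Δ]
  exact fun h => minModel_disc W hD ((map_eq_zero_iff _ (cmE e v).injective).1 h)

/-- The scaling factor. -/
theorem minChange_e (W : WeierstrassCurve N) (hD : W.Δ ≠ 0) (v : HeightOneSpectrum (𝓞 N)) :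
    (Valued.v ((minChange (W.map (e : N →+* N')) (plE e v)).u :
      (plE e v).adicCompletion N') : ℤᵐ⁰) =
      Valued.v ((minChange W v).u : v.adicCompletion N) := by
  have hm := minModel_isMinimal (W.map (e : N →+* N')) (plE e v)
  rw [minModel_e e W v] at hm
  have h0 := (mini_of_isMinimal (minModel_isMinimal W v)).map (cmE_val e v)
  have h1 := h0.unit (by
    rw [WeierstrassCurve.map_Δ]
    exact fun h => minModel_disc W hD ((map_eq_zero_iff _ (cmE e v).injective).1 h))
    (mini_of_isMinimal hm)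
  rw [u_mul_inv, map_mul, map_inv₀, mul_inv_eq_one₀] at h1
  · rw [h1, ← cmE_val e v]
    rfl
  · exact (Valuation.ne_zero_iff _).2 (Units.ne_zero _)

/-- **Transport of the factor of the period.** -/
theorem nf_e (W : WeierstrassCurve N) (hD : W.Δ ≠ 0) (v : HeightOneSpectrum (𝓞 N)) :
    normFactor (W.map (e : N →+* N')) (plE e v) = normFactor W v := by
  rw [normFactor, normFactor, minChange_e e W hD v, plE_norm]

/-- The product of the Tamagawa numbers. -/
theorem finprod_tam_e (W : WeierstrassCurve N) (hD : W.Δ ≠ 0) :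
    ∏ᶠ v : HeightOneSpectrum (𝓞 N'), tam (W.map (e : N →+* N')) v =
      ∏ᶠ v : HeightOneSpectrum (𝓞 N), tam W v := by
  rw [← finprod_comp_equiv (plE e)]
  exact finprod_congr fun v => tam_e e W hD v

/-- The norm of the ideal of the period. -/
theorem finprod_nf_e (W : WeierstrassCurve N) (hD : W.Δ ≠ 0) :
    ∏ᶠ v : HeightOneSpectrum (𝓞 N'), normFactor (W.map (e : N →+* N')) v =
      ∏ᶠ v : HeightOneSpectrum (𝓞 N), normFactor W v := by
  rw [← finprod_comp_equiv (plE e)]
  exact finprod_congr fun v => nf_e e W hD v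

end

/-- The product of the Tamagawa numbers does not change under a change of variables. -/
theorem finprod_tam_vc {N : Type*} [Field N] [NumberField N] (W : WeierstrassCurve N)
    (hD : W.Δ ≠ 0) (C : VariableChange N) :
    ∏ᶠ v : HeightOneSpectrum (𝓞 N), tam (C • W) v = ∏ᶠ v : HeightOneSpectrum (𝓞 N), tam W v :=
  finprod_congr fun v => tam_vc W hD C v

end Pool.Agent.Lib.MP_1a91b9_ntI
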