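import Pool.Agent.Lib.MP_1a91b9_ntI.TrPer
import Pool.Agent.Lib.MP_1a91b9_ntI.Defs
import Pool.Agent.Lib.MP_1a91b9_ntI.TrTam
import Pool.Agent.Lib.MP_1a91b9_ntI.TrSha
import Pool.Agent.Lib.MP_1a91b9_ntI.TrLs
import Pool.Agent.Lib.MP_1a91b9_ntI.ShaI
import Pool.Agent.Lib.MP_1a91b9_ntI.PerI
import Pool.Agent.Lib.MP_1a91b9_ntI.LsI

/-!
# The invariance of `BSDMod` under isomorphisms

`bsd_e`: along an isomorphism of number fields; `bsd_vc`: under a change of variables.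
`TP.equiv`: the main statement over an isomorphic field.
-/

set_option autoImplicit false
set_option linter.unusedSectionVars false

namespace Pool.Agent.Lib.MP_1a91b9_ntI

open NumberField IsDedekindDomain Pool.Agent.Lib.MP_1a91b9_ntT.S9 WeierstrassCurve
open Pool.Agent.Lib.MP_1a91b9_ntT3.S9 (ShaP)
open Pool.Agent.Lib.MP_1a91b9_ntS (BSDMod)
open Pool.Agent.Lib.MP_1a91b9_nuI (HasJ)
open scoped Classical

noncomputable section

variable {N N' : Type} [Field N] [NumberField N] [Field N'] [NumberField N'] (e : N ≃+* N')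

/-- **The transport of `BSDMod`** along an isomorphism of number fields. -/
theorem bsd_e (p : ℕ) [Fact p.Prime] (W : WeierstrassCurve N) (hD : W.Δ ≠ 0)
    (hL : ∀ s, (W.map (e : N →+* N')).LSeries s = W.LSeries s) (q : ℚ) : BSDMod p (W.map (e : N →+* N')) q ↔ BSDMod p W q := by
  have h1 : (∏ᶠ v : HeightOneSpectrum (𝓞 N'), tam (W.map (e : N →+* N')) v) =
      ∏ᶠ v : HeightOneSpectrum (𝓞 N), tam W v := by
    rw [← finprod_comp_equiv (plE e)]
    exact finprod_congr fun v => tam_e e W hD v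
  have h2 : discr N' = discr N := (discr_eq_discr_of_ringEquiv (K := N) e).symm
  unfold BSDMod
  rw [h1, h2, prim_e, fin_e, shaP_e, period_e e W hD]
  simp only [hL]

/-- **The invariance of `BSDMod`** under a change of variables. -/
theorem bsd_vc (p : ℕ) [Fact p.Prime] (W : WeierstrassCurve N) (hD : W.Δ ≠ 0)
    (C : VariableChange N) (hL : ∀ s, (C • W).LSeries s = W.LSeries s) (q : ℚ) :
    BSDMod p (C • W) q ↔ BSDMod p W q := by
  have h1 : (∏ᶠ v : HeightOneSpectrum (𝓞 N), tam (C • W) v) =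
      ∏ᶠ v : HeightOneSpectrum (𝓞 N), tam W v := finprod_congr fun v => tam_vc W hD C v
  have h2 := fin_vc W C
  have h3 := prim_vc p W C
  unfold BSDMod
  rw [h1, h2, h3, shaP_vc, period_vc W hD C]
  simp only [hL]

theorem norm_e (E : 𝓞 N ≃+* 𝓞 N') (d : 𝓞 N) : Algebra.norm ℤ (E d) = Algebra.norm ℤ d :=
  Algebra.norm_eq_of_algEquiv E.toIntAlgEquiv d

theorem Fr_e (E : 𝓞 N ≃+* 𝓞 N') (w : ℕ) (d : 𝓞 N) : Fr N' w (E d) ↔ Fr N w d := by
  constructor
  · intro h p hp hd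
    refine h (E p) ((MulEquiv.prime_iff E.toMulEquiv).2 hp) ?_
    have := (map_dvd_iff E (a := p ^ w) (b := d)).2 hd
    rwa [map_pow] at this
  · intro h p hp hd
    obtain ⟨q, rfl⟩ := E.surjective p
    refine h q ((MulEquiv.prime_iff E.toMulEquiv).1 hp) ?_
    rw [← map_pow] at hd
    exact (map_dvd_iff E).1 hd

/-- **The main statement over an isomorphic field.** -/
theorem TP.equiv {w : ℕ} {a b : 𝓞 N} {c : ℝ}
    (hD : ∃ j : ℤ, ∀ D : 𝓞 N, Fr N w D → HasJ (cW N w a b D) j ∧ (cW N w a b D).Δ ≠ 0)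
    (h : TP N w a b c) :
    TP N' w (RingOfIntegers.mapRingEquiv e a) (RingOfIntegers.mapRingEquiv e b) c := by
  obtain ⟨q, h1, h2⟩ := h
  obtain ⟨j, hj⟩ := hD
  obtain ⟨E, hE⟩ : ∃ E : 𝓞 N ≃+* 𝓞 N', E = RingOfIntegers.mapRingEquiv e := ⟨_, rfl⟩
  have hEe : ∀ d : 𝓞 N, ((E d : 𝓞 N') : N') = e (d : N) := fun d => by
    rw [hE]
    rfl
  rw [← hE]
  refine ⟨fun D => q (E.symm D), fun D hF => ?_, fun n m u hm hu => ?_⟩
  · obtain ⟨d, rfl⟩ := E.surjective D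
    have hd := (Fr_e E w d).1 hF
    have e1 : cW N' w (E a) (E b) (E d) = (cW N w a b d).map (e : N →+* N') := by
      unfold cW
      rw [← map_mul E, ← map_pow, ← map_mul E, hEe, hEe]
      ext <;> simp [WeierstrassCurve.map]
    change BSDMod 2 _ (q (E.symm (E d)))
    rw [e1, E.symm_apply_apply]
    exact (bsd_e e 2 _ (hj d hd).2 (ls_e_hasJ e (hj d hd).1) _).2 (h1 d hd)
  · obtain ⟨m', rfl⟩ := E.surjective m
    obtain ⟨u', rfl⟩ := E.surjective u
    have hm' : m' ∣ 2 ^ n := by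
      have e1 : (2 : 𝓞 N') ^ n = E (2 ^ n) := by
        rw [map_pow, map_ofNat]
      rw [e1] at hm
      exact (map_dvd_iff E).1 hm
    have hu' : ∀ p : 𝓞 N, Prime p → ¬ (p ^ w ∣ m' ∧ p ^ w ∣ u') := by
      rintro p hp ⟨h3, h4⟩
      refine hu (E p) ((MulEquiv.prime_iff E.toMulEquiv).2 hp) ⟨?_, ?_⟩
      · rw [← map_pow]
        exact (map_dvd_iff E).2 h3
      · rw [← map_pow]
        exact (map_dvd_iff E).2 h4
    have key := h2 n m' u' hm' hu'
    have c1 : ∀ X : ℝ, Nat.card {D : 𝓞 N // Fr N w D ∧ m' ∣ D - u' ∧ |Algebra.norm ℤ D| ≤ X ∧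
          ¬ 2 ∣ (q D).num} = Nat.card {D : 𝓞 N' // Fr N' w D ∧ E m' ∣ D - E u' ∧
          |Algebra.norm ℤ D| ≤ X ∧ ¬ 2 ∣ (q (E.symm D)).num} := by
      intro X
      refine Nat.card_congr (E.toEquiv.subtypeEquiv fun d => ?_)
      change _ ↔ Fr N' w (E d) ∧ E m' ∣ E d - E u' ∧ |Algebra.norm ℤ (E d)| ≤ X ∧
        ¬ 2 ∣ (q (E.symm (E d))).num
      rw [Fr_e, norm_e, ← map_sub, map_dvd_iff E, E.symm_apply_apply]
    have c2 : ∀ X : ℝ, Nat.card {D : 𝓞 N // Fr N w D ∧ m' ∣ D - u' ∧ |Algebra.norm ℤ D| ≤ X} =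
        Nat.card {D : 𝓞 N' // Fr N' w D ∧ E m' ∣ D - E u' ∧ |Algebra.norm ℤ D| ≤ X} := by
      intro X
      refine Nat.card_congr (E.toEquiv.subtypeEquiv fun d => ?_)
      change _ ↔ Fr N' w (E d) ∧ E m' ∣ E d - E u' ∧ |Algebra.norm ℤ (E d)| ≤ X
      rw [Fr_e, norm_e, ← map_sub, map_dvd_iff E]
    simp only [c1, c2] at key
    exact key

end

end Pool.Agent.Lib.MP_1a91b9_ntI
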