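import Pool.Agent.Lib.MP_1a91b9_ntI.TrTam

/-!
# Transport along an isomorphism of number fields: the period
-/

set_option autoImplicit false
set_option linter.unusedSectionVars false

namespace Pool.Agent.Lib.MP_1a91b9_ntI

open NumberField IsDedekindDomain WeierstrassCurve MeasureTheory
open Pool.Agent.Lib.MP_1a91b9_ntT.S9 (period normFactor minChange)
open Pool.Agent.Lib.MP_1a91b9_ntT.Per (perAt perC perR)

noncomputable section

/-! ### Complex conjugation -/

/-- the points of the conjugate curve -/
def cjPt (W : WeierstrassCurve ℂ) (x : ℂ) : {y : ℂ // W.toAffine.Equation x y} ≃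
    {y : ℂ // (W.map (starRingEnd ℂ)).toAffine.Equation ((starRingEnd ℂ) x) y} where
  toFun y := ⟨(starRingEnd ℂ) y.1, (Affine.map_equation W (f := starRingEnd ℂ) (starRingEnd ℂ).injective x y.1).2 y.2⟩
  invFun y := ⟨(starRingEnd ℂ) y.1, by
    have h := y.2
    rw [← Complex.conj_conj y.1] at h
    exact (Affine.map_equation W (f := starRingEnd ℂ) (starRingEnd ℂ).injective x _).1 h⟩
  left_inv y := by
    apply Subtype.ext
    exact Complex.conj_conj y.1
  right_inv y := by
    apply Subtype.ext
    exact Complex.conj_conj y.1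

theorem perC_conj (W : WeierstrassCurve ℂ) : perC (W.map (starRingEnd ℂ)) = perC W := by
  rw [perC, perC]
  have hmp : MeasurePreserving (Complex.conjLIE : ℂ ≃ₗᵢ[ℝ] ℂ) volume volume :=
    Complex.conjLIE.measurePreserving
  have hme : MeasurableEmbedding (Complex.conjLIE : ℂ ≃ₗᵢ[ℝ] ℂ) :=
    Complex.conjLIE.toHomeomorph.measurableEmbedding
  rw [← hmp.integral_comp hme]
  congr 1
  ext x
  have hx : (Complex.conjLIE : ℂ ≃ₗᵢ[ℝ] ℂ) x = (starRingEnd ℂ) x := rfl
  rw [hx, ← (cjPt W x).tsum_eq]
  refine tsum_congr fun y => ?_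
  have e1 : (((cjPt W x) y : {y : ℂ // (W.map (starRingEnd ℂ)).toAffine.Equation
      ((starRingEnd ℂ) x) y}) : ℂ) = (starRingEnd ℂ) (y : ℂ) := rfl
  rw [e1]
  have e2 : 2 * (starRingEnd ℂ) (y : ℂ) + (W.map (starRingEnd ℂ)).a₁ * (starRingEnd ℂ) x +
      (W.map (starRingEnd ℂ)).a₃ = (starRingEnd ℂ) (2 * (y : ℂ) + W.a₁ * x + W.a₃) := by
    rw [map_add, map_add, map_mul, map_mul, map_ofNat, map_a₁, map_a₃]
  rw [e2, Complex.norm_conj]

/-! ### The infinite places -/

variable {N N' : Type} [Field N] [NumberField N] [Field N'] [NumberField N'] (e : N ≃+* N')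

theorem mk_comp_e (v : InfinitePlace N) :
    InfinitePlace.mk ((ipE e v).embedding.comp (e : N →+* N')) = v := by
  ext x
  have h := ipE_apply e v x
  rw [← InfinitePlace.norm_embedding_eq] at h
  rw [InfinitePlace.apply]
  exact h

theorem emb_e (v : InfinitePlace N) :
    (ipE e v).embedding.comp (e : N →+* N') = v.embedding ∨
      (ipE e v).embedding.comp (e : N →+* N') = (starRingEnd ℂ).comp v.embedding := by
  have h := (mk_comp_e e v).trans (InfinitePlace.mk_embedding v).symm
  rw [InfinitePlace.mk_eq_iff] at h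
  rcases h with h | h
  · exact Or.inl h
  · refine Or.inr ?_
    rw [← h]
    ext x
    exact (Complex.conj_conj _).symm

theorem embR_e (v : InfinitePlace N) (h : v.IsReal) (h' : (ipE e v).IsReal) :
    (InfinitePlace.embedding_of_isReal h').comp (e : N →+* N') =
      InfinitePlace.embedding_of_isReal h := by
  ext x
  apply Complex.ofReal_injective
  rw [RingHom.comp_apply, InfinitePlace.embedding_of_isReal_apply,
    InfinitePlace.embedding_of_isReal_apply]
  rcases emb_e e v with h1 | h1
  · exact congrArg (fun f : N →+* ℂ => f x) h1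
  · have h2 := congrArg (fun f : N →+* ℂ => f x) h1
    change (ipE e v).embedding ((e : N →+* N') x) = (starRingEnd ℂ) (v.embedding x) at h2
    rw [h2, ← InfinitePlace.embedding_of_isReal_apply h, Complex.conj_ofReal]

/-- **The period at an infinite place.** -/
theorem perAt_e (W : WeierstrassCurve N) (v : InfinitePlace N) :
    perAt (W.map (e : N →+* N')) (ipE e v) = perAt W v := by
  by_cases h : v.IsReal
  · have h' : (ipE e v).IsReal := (ipE_real e v).2 h
    rw [perAt, perAt, dif_pos h, dif_pos h', WeierstrassCurve.map_map, embR_e e v h h']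
  · have h' : ¬ (ipE e v).IsReal := fun h2 => h ((ipE_real e v).1 h2)
    rw [perAt, perAt, dif_neg h, dif_neg h', WeierstrassCurve.map_map]
    rcases emb_e e v with h1 | h1
    · rw [h1]
    · rw [h1, ← WeierstrassCurve.map_map, perC_conj]

theorem prod_perAt_e (W : WeierstrassCurve N) :
    ∏ v : InfinitePlace N', perAt (W.map (e : N →+* N')) v = ∏ v : InfinitePlace N, perAt W v := by
  rw [← Equiv.prod_comp (ipE e)]
  exact Finset.prod_congr rfl fun v _ => perAt_e e W v

/-- **The period.** -/
theorem period_e (W : WeierstrassCurve N) (hD : W.Δ ≠ 0) :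
    period (W.map (e : N →+* N')) = period W := by
  rw [period, period, finprod_nf_e e W hD, prod_perAt_e]

end

end Pool.Agent.Lib.MP_1a91b9_ntI
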